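import Pool.Agent.Lib.MP_afdd4d_co.Data2

/-!
# Checks of base graphs, part 2
-/

set_option linter.defProp false
set_option maxRecDepth 100000

namespace Pool.Agent.Lib.MP_afdd4d_co

def okc1109 : okc 1109 = true := by decide +kernel

def okc33877 : okc 33877 = true := by decide +kernel

def okc66645 : okc 66645 = true := by decide +kernel

def okc99413 : okc 99413 = true := by decide +kernel

def okc1110 : okc 1110 = true := by decide +kernel

def okc33878 : okc 33878 = true := by decide +kernel

def okc66646 : okc 66646 = true := by decide +kernel

def okc99414 : okc 99414 = true := by decide +kernel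

def okc1111 : okc 1111 = true := by decide +kernel

def okc33879 : okc 33879 = true := by decide +kernel

def okc66647 : okc 66647 = true := by decide +kernel

def okc99415 : okc 99415 = true := by decide +kernel

def okc1118 : okc 1118 = true := by decide +kernel

def okc33886 : okc 33886 = true := by decide +kernel

def okc66654 : okc 66654 = true := by decide +kernel

def okc99422 : okc 99422 = true := by decide +kernel

def okc1119 : okc 1119 = true := by decide +kernel

def okc33887 : okc 33887 = true := by decide +kernel

def okc66655 : okc 66655 = true := by decide +kernel

def okc99423 : okc 99423 = true := by decide +kernel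

def cl2 : List ℕ := [1109, 1110, 1111, 1118, 1119]

theorem part2 : ∀ c ∈ cl2, ∀ w < 4, okc (c + 32768 * w) = true := by
  intro c hc
  simp only [cl2, List.mem_cons, List.not_mem_nil, or_false] at hc
  rcases hc with rfl | rfl | rfl | rfl | rfl
  · exact four _ okc1109 okc33877 okc66645 okc99413
  · exact four _ okc1110 okc33878 okc66646 okc99414
  · exact four _ okc1111 okc33879 okc66647 okc99415
  · exact four _ okc1118 okc33886 okc66654 okc99422
  · exact four _ okc1119 okc33887 okc66655 okc99423

end Pool.Agent.Lib.MP_afdd4d_co
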