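import Pool.Agent.Lib.MP_afdd4d_co.Data2

/-!
# Checks of base graphs, part 3
-/

set_option linter.defProp false
set_option maxRecDepth 100000

namespace Pool.Agent.Lib.MP_afdd4d_co

def okc1140 : okc 1140 = true := by decide +kernel

def okc33908 : okc 33908 = true := by decide +kernel

def okc66676 : okc 66676 = true := by decide +kernel

def okc99444 : okc 99444 = true := by decide +kernel

def okc1141 : okc 1141 = true := by decide +kernel

def okc33909 : okc 33909 = true := by decide +kernel

def okc66677 : okc 66677 = true := by decide +kernel

def okc99445 : okc 99445 = true := by decide +kernel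

def okc1143 : okc 1143 = true := by decide +kernel

def okc33911 : okc 33911 = true := by decide +kernel

def okc66679 : okc 66679 = true := by decide +kernel

def okc99447 : okc 99447 = true := by decide +kernel

def okc1151 : okc 1151 = true := by decide +kernel

def okc33919 : okc 33919 = true := by decide +kernel

def okc66687 : okc 66687 = true := by decide +kernel

def okc99455 : okc 99455 = true := by decide +kernel

def okc1182 : okc 1182 = true := by decide +kernel

def okc33950 : okc 33950 = true := by decide +kernel

def okc66718 : okc 66718 = true := by decide +kernel

def okc99486 : okc 99486 = true := by decide +kernel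

def cl3 : List ℕ := [1140, 1141, 1143, 1151, 1182]

theorem part3 : ∀ c ∈ cl3, ∀ w < 4, okc (c + 32768 * w) = true := by
  intro c hc
  simp only [cl3, List.mem_cons, List.not_mem_nil, or_false] at hc
  rcases hc with rfl | rfl | rfl | rfl | rfl
  · exact four _ okc1140 okc33908 okc66676 okc99444
  · exact four _ okc1141 okc33909 okc66677 okc99445
  · exact four _ okc1143 okc33911 okc66679 okc99447
  · exact four _ okc1151 okc33919 okc66687 okc99455
  · exact four _ okc1182 okc33950 okc66718 okc99486

end Pool.Agent.Lib.MP_afdd4d_co
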