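import Pool.Agent.Lib.MP_afdd4d_co.Data2

/-!
# Checks of base graphs, part 4
-/

set_option linter.defProp false
set_option maxRecDepth 100000

namespace Pool.Agent.Lib.MP_afdd4d_co

def okc1183 : okc 1183 = true := by decide +kernel

def okc33951 : okc 33951 = true := by decide +kernel

def okc66719 : okc 66719 = true := by decide +kernel

def okc99487 : okc 99487 = true := by decide +kernel

def okc1184 : okc 1184 = true := by decide +kernel

def okc33952 : okc 33952 = true := by decide +kernel

def okc66720 : okc 66720 = true := by decide +kernel

def okc99488 : okc 99488 = true := by decide +kernel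

def okc1185 : okc 1185 = true := by decide +kernel

def okc33953 : okc 33953 = true := by decide +kernel

def okc66721 : okc 66721 = true := by decide +kernel

def okc99489 : okc 99489 = true := by decide +kernel

def okc1187 : okc 1187 = true := by decide +kernel

def okc33955 : okc 33955 = true := by decide +kernel

def okc66723 : okc 66723 = true := by decide +kernel

def okc99491 : okc 99491 = true := by decide +kernel

def okc1191 : okc 1191 = true := by decide +kernel

def okc33959 : okc 33959 = true := by decide +kernel

def okc66727 : okc 66727 = true := by decide +kernel

def okc99495 : okc 99495 = true := by decide +kernel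

def cl4 : List ℕ := [1183, 1184, 1185, 1187, 1191]

theorem part4 : ∀ c ∈ cl4, ∀ w < 4, okc (c + 32768 * w) = true := by
  intro c hc
  simp only [cl4, List.mem_cons, List.not_mem_nil, or_false] at hc
  rcases hc with rfl | rfl | rfl | rfl | rfl
  · exact four _ okc1183 okc33951 okc66719 okc99487
  · exact four _ okc1184 okc33952 okc66720 okc99488
  · exact four _ okc1185 okc33953 okc66721 okc99489
  · exact four _ okc1187 okc33955 okc66723 okc99491
  · exact four _ okc1191 okc33959 okc66727 okc99495

end Pool.Agent.Lib.MP_afdd4d_co
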