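import Pool.Agent.Lib.MP_afdd4d_co.Data2

/-!
# Checks of base graphs, part 5
-/

set_option linter.defProp false
set_option maxRecDepth 100000

namespace Pool.Agent.Lib.MP_afdd4d_co

def okc1194 : okc 1194 = true := by decide +kernel

def okc33962 : okc 33962 = true := by decide +kernel

def okc66730 : okc 66730 = true := by decide +kernel

def okc99498 : okc 99498 = true := by decide +kernel

def okc1195 : okc 1195 = true := by decide +kernel

def okc33963 : okc 33963 = true := by decide +kernel

def okc66731 : okc 66731 = true := by decide +kernel

def okc99499 : okc 99499 = true := by decide +kernel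

def okc1196 : okc 1196 = true := by decide +kernel

def okc33964 : okc 33964 = true := by decide +kernel

def okc66732 : okc 66732 = true := by decide +kernel

def okc99500 : okc 99500 = true := by decide +kernel

def okc1197 : okc 1197 = true := by decide +kernel

def okc33965 : okc 33965 = true := by decide +kernel

def okc66733 : okc 66733 = true := by decide +kernel

def okc99501 : okc 99501 = true := by decide +kernel

def okc1198 : okc 1198 = true := by decide +kernel

def okc33966 : okc 33966 = true := by decide +kernel

def okc66734 : okc 66734 = true := by decide +kernel

def okc99502 : okc 99502 = true := by decide +kernel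

def cl5 : List ℕ := [1194, 1195, 1196, 1197, 1198]

theorem part5 : ∀ c ∈ cl5, ∀ w < 4, okc (c + 32768 * w) = true := by
  intro c hc
  simp only [cl5, List.mem_cons, List.not_mem_nil, or_false] at hc
  rcases hc with rfl | rfl | rfl | rfl | rfl
  · exact four _ okc1194 okc33962 okc66730 okc99498
  · exact four _ okc1195 okc33963 okc66731 okc99499
  · exact four _ okc1196 okc33964 okc66732 okc99500
  · exact four _ okc1197 okc33965 okc66733 okc99501
  · exact four _ okc1198 okc33966 okc66734 okc99502

end Pool.Agent.Lib.MP_afdd4d_co
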