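import Pool.Agent.Lib.MP_afdd4d_co.Data2

/-!
# Checks of base graphs, part 6
-/

set_option linter.defProp false
set_option maxRecDepth 100000

namespace Pool.Agent.Lib.MP_afdd4d_co

def okc1199 : okc 1199 = true := by decide +kernel

def okc33967 : okc 33967 = true := by decide +kernel

def okc66735 : okc 66735 = true := by decide +kernel

def okc99503 : okc 99503 = true := by decide +kernel

def okc1214 : okc 1214 = true := by decide +kernel

def okc33982 : okc 33982 = true := by decide +kernel

def okc66750 : okc 66750 = true := by decide +kernel

def okc99518 : okc 99518 = true := by decide +kernel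

def okc1215 : okc 1215 = true := by decide +kernel

def okc33983 : okc 33983 = true := by decide +kernel

def okc66751 : okc 66751 = true := by decide +kernel

def okc99519 : okc 99519 = true := by decide +kernel

def okc1246 : okc 1246 = true := by decide +kernel

def okc34014 : okc 34014 = true := by decide +kernel

def okc66782 : okc 66782 = true := by decide +kernel

def okc99550 : okc 99550 = true := by decide +kernel

def okc1247 : okc 1247 = true := by decide +kernel

def okc34015 : okc 34015 = true := by decide +kernel

def okc66783 : okc 66783 = true := by decide +kernel

def okc99551 : okc 99551 = true := by decide +kernel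

def cl6 : List ℕ := [1199, 1214, 1215, 1246, 1247]

theorem part6 : ∀ c ∈ cl6, ∀ w < 4, okc (c + 32768 * w) = true := by
  intro c hc
  simp only [cl6, List.mem_cons, List.not_mem_nil, or_false] at hc
  rcases hc with rfl | rfl | rfl | rfl | rfl
  · exact four _ okc1199 okc33967 okc66735 okc99503
  · exact four _ okc1214 okc33982 okc66750 okc99518
  · exact four _ okc1215 okc33983 okc66751 okc99519
  · exact four _ okc1246 okc34014 okc66782 okc99550
  · exact four _ okc1247 okc34015 okc66783 okc99551

end Pool.Agent.Lib.MP_afdd4d_co
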