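import Pool.Agent.Lib.MP_afdd4d_co.Data2

/-!
# Checks of base graphs, part 7
-/

set_option linter.defProp false
set_option maxRecDepth 100000

namespace Pool.Agent.Lib.MP_afdd4d_co

def okc1259 : okc 1259 = true := by decide +kernel

def okc34027 : okc 34027 = true := by decide +kernel

def okc66795 : okc 66795 = true := by decide +kernel

def okc99563 : okc 99563 = true := by decide +kernel

def okc1260 : okc 1260 = true := by decide +kernel

def okc34028 : okc 34028 = true := by decide +kernel

def okc66796 : okc 66796 = true := by decide +kernel

def okc99564 : okc 99564 = true := by decide +kernel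

def okc1261 : okc 1261 = true := by decide +kernel

def okc34029 : okc 34029 = true := by decide +kernel

def okc66797 : okc 66797 = true := by decide +kernel

def okc99565 : okc 99565 = true := by decide +kernel

def okc1263 : okc 1263 = true := by decide +kernel

def okc34031 : okc 34031 = true := by decide +kernel

def okc66799 : okc 66799 = true := by decide +kernel

def okc99567 : okc 99567 = true := by decide +kernel

def okc1268 : okc 1268 = true := by decide +kernel

def okc34036 : okc 34036 = true := by decide +kernel

def okc66804 : okc 66804 = true := by decide +kernel

def okc99572 : okc 99572 = true := by decide +kernel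

def cl7 : List ℕ := [1259, 1260, 1261, 1263, 1268]

theorem part7 : ∀ c ∈ cl7, ∀ w < 4, okc (c + 32768 * w) = true := by
  intro c hc
  simp only [cl7, List.mem_cons, List.not_mem_nil, or_false] at hc
  rcases hc with rfl | rfl | rfl | rfl | rfl
  · exact four _ okc1259 okc34027 okc66795 okc99563
  · exact four _ okc1260 okc34028 okc66796 okc99564
  · exact four _ okc1261 okc34029 okc66797 okc99565
  · exact four _ okc1263 okc34031 okc66799 okc99567
  · exact four _ okc1268 okc34036 okc66804 okc99572

end Pool.Agent.Lib.MP_afdd4d_co
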