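import Pool.Agent.Lib.MP_afdd4d_co.Data2

/-!
# Checks of base graphs, part 8
-/

set_option linter.defProp false
set_option maxRecDepth 100000

namespace Pool.Agent.Lib.MP_afdd4d_co

def okc1269 : okc 1269 = true := by decide +kernel

def okc34037 : okc 34037 = true := by decide +kernel

def okc66805 : okc 66805 = true := by decide +kernel

def okc99573 : okc 99573 = true := by decide +kernel

def okc1270 : okc 1270 = true := by decide +kernel

def okc34038 : okc 34038 = true := by decide +kernel

def okc66806 : okc 66806 = true := by decide +kernel

def okc99574 : okc 99574 = true := by decide +kernel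

def okc1271 : okc 1271 = true := by decide +kernel

def okc34039 : okc 34039 = true := by decide +kernel

def okc66807 : okc 66807 = true := by decide +kernel

def okc99575 : okc 99575 = true := by decide +kernel

def okc1278 : okc 1278 = true := by decide +kernel

def okc34046 : okc 34046 = true := by decide +kernel

def okc66814 : okc 66814 = true := by decide +kernel

def okc99582 : okc 99582 = true := by decide +kernel

def okc1279 : okc 1279 = true := by decide +kernel

def okc34047 : okc 34047 = true := by decide +kernel

def okc66815 : okc 66815 = true := by decide +kernel

def okc99583 : okc 99583 = true := by decide +kernel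

def cl8 : List ℕ := [1269, 1270, 1271, 1278, 1279]

theorem part8 : ∀ c ∈ cl8, ∀ w < 4, okc (c + 32768 * w) = true := by
  intro c hc
  simp only [cl8, List.mem_cons, List.not_mem_nil, or_false] at hc
  rcases hc with rfl | rfl | rfl | rfl | rfl
  · exact four _ okc1269 okc34037 okc66805 okc99573
  · exact four _ okc1270 okc34038 okc66806 okc99574
  · exact four _ okc1271 okc34039 okc66807 okc99575
  · exact four _ okc1278 okc34046 okc66814 okc99582
  · exact four _ okc1279 okc34047 okc66815 okc99583

end Pool.Agent.Lib.MP_afdd4d_co
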