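import Pool.Agent.Lib.MP_afdd4d_co.Data2

/-!
# Checks of base graphs, part 9
-/

set_option linter.defProp false
set_option maxRecDepth 100000

namespace Pool.Agent.Lib.MP_afdd4d_co

def okc1456 : okc 1456 = true := by decide +kernel

def okc34224 : okc 34224 = true := by decide +kernel

def okc66992 : okc 66992 = true := by decide +kernel

def okc99760 : okc 99760 = true := by decide +kernel

def okc1457 : okc 1457 = true := by decide +kernel

def okc34225 : okc 34225 = true := by decide +kernel

def okc66993 : okc 66993 = true := by decide +kernel

def okc99761 : okc 99761 = true := by decide +kernel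

def okc1459 : okc 1459 = true := by decide +kernel

def okc34227 : okc 34227 = true := by decide +kernel

def okc66995 : okc 66995 = true := by decide +kernel

def okc99763 : okc 99763 = true := by decide +kernel

def okc1460 : okc 1460 = true := by decide +kernel

def okc34228 : okc 34228 = true := by decide +kernel

def okc66996 : okc 66996 = true := by decide +kernel

def okc99764 : okc 99764 = true := by decide +kernel

def okc1461 : okc 1461 = true := by decide +kernel

def okc34229 : okc 34229 = true := by decide +kernel

def okc66997 : okc 66997 = true := by decide +kernel

def okc99765 : okc 99765 = true := by decide +kernel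

def cl9 : List ℕ := [1456, 1457, 1459, 1460, 1461]

theorem part9 : ∀ c ∈ cl9, ∀ w < 4, okc (c + 32768 * w) = true := by
  intro c hc
  simp only [cl9, List.mem_cons, List.not_mem_nil, or_false] at hc
  rcases hc with rfl | rfl | rfl | rfl | rfl
  · exact four _ okc1456 okc34224 okc66992 okc99760
  · exact four _ okc1457 okc34225 okc66993 okc99761
  · exact four _ okc1459 okc34227 okc66995 okc99763
  · exact four _ okc1460 okc34228 okc66996 okc99764
  · exact four _ okc1461 okc34229 okc66997 okc99765

end Pool.Agent.Lib.MP_afdd4d_co
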