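import Pool.Agent.Lib.MP_afdd4d_co.Data2

/-!
# Checks of base graphs, part 10
-/

set_option linter.defProp false
set_option maxRecDepth 100000

namespace Pool.Agent.Lib.MP_afdd4d_co

def okc1463 : okc 1463 = true := by decide +kernel

def okc34231 : okc 34231 = true := by decide +kernel

def okc66999 : okc 66999 = true := by decide +kernel

def okc99767 : okc 99767 = true := by decide +kernel

def okc1465 : okc 1465 = true := by decide +kernel

def okc34233 : okc 34233 = true := by decide +kernel

def okc67001 : okc 67001 = true := by decide +kernel

def okc99769 : okc 99769 = true := by decide +kernel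

def okc1467 : okc 1467 = true := by decide +kernel

def okc34235 : okc 34235 = true := by decide +kernel

def okc67003 : okc 67003 = true := by decide +kernel

def okc99771 : okc 99771 = true := by decide +kernel

def okc1468 : okc 1468 = true := by decide +kernel

def okc34236 : okc 34236 = true := by decide +kernel

def okc67004 : okc 67004 = true := by decide +kernel

def okc99772 : okc 99772 = true := by decide +kernel

def okc1469 : okc 1469 = true := by decide +kernel

def okc34237 : okc 34237 = true := by decide +kernel

def okc67005 : okc 67005 = true := by decide +kernel

def okc99773 : okc 99773 = true := by decide +kernel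

def cl10 : List ℕ := [1463, 1465, 1467, 1468, 1469]

theorem part10 : ∀ c ∈ cl10, ∀ w < 4, okc (c + 32768 * w) = true := by
  intro c hc
  simp only [cl10, List.mem_cons, List.not_mem_nil, or_false] at hc
  rcases hc with rfl | rfl | rfl | rfl | rfl
  · exact four _ okc1463 okc34231 okc66999 okc99767
  · exact four _ okc1465 okc34233 okc67001 okc99769
  · exact four _ okc1467 okc34235 okc67003 okc99771
  · exact four _ okc1468 okc34236 okc67004 okc99772
  · exact four _ okc1469 okc34237 okc67005 okc99773

end Pool.Agent.Lib.MP_afdd4d_co
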