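import Pool.Agent.Lib.MP_afdd4d_co.Data2

/-!
# Checks of base graphs, part 11
-/

set_option linter.defProp false
set_option maxRecDepth 100000

namespace Pool.Agent.Lib.MP_afdd4d_co

def okc1471 : okc 1471 = true := by decide +kernel

def okc34239 : okc 34239 = true := by decide +kernel

def okc67007 : okc 67007 = true := by decide +kernel

def okc99775 : okc 99775 = true := by decide +kernel

def okc1531 : okc 1531 = true := by decide +kernel

def okc34299 : okc 34299 = true := by decide +kernel

def okc67067 : okc 67067 = true := by decide +kernel

def okc99835 : okc 99835 = true := by decide +kernel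

def okc1532 : okc 1532 = true := by decide +kernel

def okc34300 : okc 34300 = true := by decide +kernel

def okc67068 : okc 67068 = true := by decide +kernel

def okc99836 : okc 99836 = true := by decide +kernel

def okc1533 : okc 1533 = true := by decide +kernel

def okc34301 : okc 34301 = true := by decide +kernel

def okc67069 : okc 67069 = true := by decide +kernel

def okc99837 : okc 99837 = true := by decide +kernel

def okc1535 : okc 1535 = true := by decide +kernel

def okc34303 : okc 34303 = true := by decide +kernel

def okc67071 : okc 67071 = true := by decide +kernel

def okc99839 : okc 99839 = true := by decide +kernel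

def cl11 : List ℕ := [1471, 1531, 1532, 1533, 1535]

theorem part11 : ∀ c ∈ cl11, ∀ w < 4, okc (c + 32768 * w) = true := by
  intro c hc
  simp only [cl11, List.mem_cons, List.not_mem_nil, or_false] at hc
  rcases hc with rfl | rfl | rfl | rfl | rfl
  · exact four _ okc1471 okc34239 okc67007 okc99775
  · exact four _ okc1531 okc34299 okc67067 okc99835
  · exact four _ okc1532 okc34300 okc67068 okc99836
  · exact four _ okc1533 okc34301 okc67069 okc99837
  · exact four _ okc1535 okc34303 okc67071 okc99839

end Pool.Agent.Lib.MP_afdd4d_co
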