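import Pool.Agent.Lib.MP_afdd4d_co.Data2

/-!
# Checks of base graphs, part 13
-/

set_option linter.defProp false
set_option maxRecDepth 100000

namespace Pool.Agent.Lib.MP_afdd4d_co

def okc3294 : okc 3294 = true := by decide +kernel

def okc36062 : okc 36062 = true := by decide +kernel

def okc68830 : okc 68830 = true := by decide +kernel

def okc101598 : okc 101598 = true := by decide +kernel

def okc3295 : okc 3295 = true := by decide +kernel

def okc36063 : okc 36063 = true := by decide +kernel

def okc68831 : okc 68831 = true := by decide +kernel

def okc101599 : okc 101599 = true := by decide +kernel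

def okc3306 : okc 3306 = true := by decide +kernel

def okc36074 : okc 36074 = true := by decide +kernel

def okc68842 : okc 68842 = true := by decide +kernel

def okc101610 : okc 101610 = true := by decide +kernel

def okc3307 : okc 3307 = true := by decide +kernel

def okc36075 : okc 36075 = true := by decide +kernel

def okc68843 : okc 68843 = true := by decide +kernel

def okc101611 : okc 101611 = true := by decide +kernel

def okc3308 : okc 3308 = true := by decide +kernel

def okc36076 : okc 36076 = true := by decide +kernel

def okc68844 : okc 68844 = true := by decide +kernel

def okc101612 : okc 101612 = true := by decide +kernel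

def cl13 : List ℕ := [3294, 3295, 3306, 3307, 3308]

theorem part13 : ∀ c ∈ cl13, ∀ w < 4, okc (c + 32768 * w) = true := by
  intro c hc
  simp only [cl13, List.mem_cons, List.not_mem_nil, or_false] at hc
  rcases hc with rfl | rfl | rfl | rfl | rfl
  · exact four _ okc3294 okc36062 okc68830 okc101598
  · exact four _ okc3295 okc36063 okc68831 okc101599
  · exact four _ okc3306 okc36074 okc68842 okc101610
  · exact four _ okc3307 okc36075 okc68843 okc101611
  · exact four _ okc3308 okc36076 okc68844 okc101612

end Pool.Agent.Lib.MP_afdd4d_co
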