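import Pool.Agent.Lib.MP_afdd4d_co.Data2

/-!
# Checks of base graphs, part 14
-/

set_option linter.defProp false
set_option maxRecDepth 100000

namespace Pool.Agent.Lib.MP_afdd4d_co

def okc3309 : okc 3309 = true := by decide +kernel

def okc36077 : okc 36077 = true := by decide +kernel

def okc68845 : okc 68845 = true := by decide +kernel

def okc101613 : okc 101613 = true := by decide +kernel

def okc3310 : okc 3310 = true := by decide +kernel

def okc36078 : okc 36078 = true := by decide +kernel

def okc68846 : okc 68846 = true := by decide +kernel

def okc101614 : okc 101614 = true := by decide +kernel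

def okc3311 : okc 3311 = true := by decide +kernel

def okc36079 : okc 36079 = true := by decide +kernel

def okc68847 : okc 68847 = true := by decide +kernel

def okc101615 : okc 101615 = true := by decide +kernel

def okc3326 : okc 3326 = true := by decide +kernel

def okc36094 : okc 36094 = true := by decide +kernel

def okc68862 : okc 68862 = true := by decide +kernel

def okc101630 : okc 101630 = true := by decide +kernel

def okc3327 : okc 3327 = true := by decide +kernel

def okc36095 : okc 36095 = true := by decide +kernel

def okc68863 : okc 68863 = true := by decide +kernel

def okc101631 : okc 101631 = true := by decide +kernel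

def cl14 : List ℕ := [3309, 3310, 3311, 3326, 3327]

theorem part14 : ∀ c ∈ cl14, ∀ w < 4, okc (c + 32768 * w) = true := by
  intro c hc
  simp only [cl14, List.mem_cons, List.not_mem_nil, or_false] at hc
  rcases hc with rfl | rfl | rfl | rfl | rfl
  · exact four _ okc3309 okc36077 okc68845 okc101613
  · exact four _ okc3310 okc36078 okc68846 okc101614
  · exact four _ okc3311 okc36079 okc68847 okc101615
  · exact four _ okc3326 okc36094 okc68862 okc101630
  · exact four _ okc3327 okc36095 okc68863 okc101631

end Pool.Agent.Lib.MP_afdd4d_co
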