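import Pool.Agent.Lib.MP_afdd4d_co.Data2

/-!
# Checks of base graphs, part 15
-/

set_option linter.defProp false
set_option maxRecDepth 100000

namespace Pool.Agent.Lib.MP_afdd4d_co

def okc3440 : okc 3440 = true := by decide +kernel

def okc36208 : okc 36208 = true := by decide +kernel

def okc68976 : okc 68976 = true := by decide +kernel

def okc101744 : okc 101744 = true := by decide +kernel

def okc3441 : okc 3441 = true := by decide +kernel

def okc36209 : okc 36209 = true := by decide +kernel

def okc68977 : okc 68977 = true := by decide +kernel

def okc101745 : okc 101745 = true := by decide +kernel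

def okc3443 : okc 3443 = true := by decide +kernel

def okc36211 : okc 36211 = true := by decide +kernel

def okc68979 : okc 68979 = true := by decide +kernel

def okc101747 : okc 101747 = true := by decide +kernel

def okc3447 : okc 3447 = true := by decide +kernel

def okc36215 : okc 36215 = true := by decide +kernel

def okc68983 : okc 68983 = true := by decide +kernel

def okc101751 : okc 101751 = true := by decide +kernel

def okc3448 : okc 3448 = true := by decide +kernel

def okc36216 : okc 36216 = true := by decide +kernel

def okc68984 : okc 68984 = true := by decide +kernel

def okc101752 : okc 101752 = true := by decide +kernel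

def cl15 : List ℕ := [3440, 3441, 3443, 3447, 3448]

theorem part15 : ∀ c ∈ cl15, ∀ w < 4, okc (c + 32768 * w) = true := by
  intro c hc
  simp only [cl15, List.mem_cons, List.not_mem_nil, or_false] at hc
  rcases hc with rfl | rfl | rfl | rfl | rfl
  · exact four _ okc3440 okc36208 okc68976 okc101744
  · exact four _ okc3441 okc36209 okc68977 okc101745
  · exact four _ okc3443 okc36211 okc68979 okc101747
  · exact four _ okc3447 okc36215 okc68983 okc101751
  · exact four _ okc3448 okc36216 okc68984 okc101752

end Pool.Agent.Lib.MP_afdd4d_co
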