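import Pool.Agent.Lib.MP_afdd4d_co.Data2

/-!
# Checks of base graphs, part 16
-/

set_option linter.defProp false
set_option maxRecDepth 100000

namespace Pool.Agent.Lib.MP_afdd4d_co

def okc3449 : okc 3449 = true := by decide +kernel

def okc36217 : okc 36217 = true := by decide +kernel

def okc68985 : okc 68985 = true := by decide +kernel

def okc101753 : okc 101753 = true := by decide +kernel

def okc3451 : okc 3451 = true := by decide +kernel

def okc36219 : okc 36219 = true := by decide +kernel

def okc68987 : okc 68987 = true := by decide +kernel

def okc101755 : okc 101755 = true := by decide +kernel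

def okc3452 : okc 3452 = true := by decide +kernel

def okc36220 : okc 36220 = true := by decide +kernel

def okc68988 : okc 68988 = true := by decide +kernel

def okc101756 : okc 101756 = true := by decide +kernel

def okc3453 : okc 3453 = true := by decide +kernel

def okc36221 : okc 36221 = true := by decide +kernel

def okc68989 : okc 68989 = true := by decide +kernel

def okc101757 : okc 101757 = true := by decide +kernel

def okc3455 : okc 3455 = true := by decide +kernel

def okc36223 : okc 36223 = true := by decide +kernel

def okc68991 : okc 68991 = true := by decide +kernel

def okc101759 : okc 101759 = true := by decide +kernel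

def cl16 : List ℕ := [3449, 3451, 3452, 3453, 3455]

theorem part16 : ∀ c ∈ cl16, ∀ w < 4, okc (c + 32768 * w) = true := by
  intro c hc
  simp only [cl16, List.mem_cons, List.not_mem_nil, or_false] at hc
  rcases hc with rfl | rfl | rfl | rfl | rfl
  · exact four _ okc3449 okc36217 okc68985 okc101753
  · exact four _ okc3451 okc36219 okc68987 okc101755
  · exact four _ okc3452 okc36220 okc68988 okc101756
  · exact four _ okc3453 okc36221 okc68989 okc101757
  · exact four _ okc3455 okc36223 okc68991 okc101759

end Pool.Agent.Lib.MP_afdd4d_co
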