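import Pool.Agent.Lib.MP_afdd4d_co.Data2

/-!
# Checks of base graphs, part 17
-/

set_option linter.defProp false
set_option maxRecDepth 100000

namespace Pool.Agent.Lib.MP_afdd4d_co

def okc3576 : okc 3576 = true := by decide +kernel

def okc36344 : okc 36344 = true := by decide +kernel

def okc69112 : okc 69112 = true := by decide +kernel

def okc101880 : okc 101880 = true := by decide +kernel

def okc3577 : okc 3577 = true := by decide +kernel

def okc36345 : okc 36345 = true := by decide +kernel

def okc69113 : okc 69113 = true := by decide +kernel

def okc101881 : okc 101881 = true := by decide +kernel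

def okc3578 : okc 3578 = true := by decide +kernel

def okc36346 : okc 36346 = true := by decide +kernel

def okc69114 : okc 69114 = true := by decide +kernel

def okc101882 : okc 101882 = true := by decide +kernel

def okc3579 : okc 3579 = true := by decide +kernel

def okc36347 : okc 36347 = true := by decide +kernel

def okc69115 : okc 69115 = true := by decide +kernel

def okc101883 : okc 101883 = true := by decide +kernel

def okc3582 : okc 3582 = true := by decide +kernel

def okc36350 : okc 36350 = true := by decide +kernel

def okc69118 : okc 69118 = true := by decide +kernel

def okc101886 : okc 101886 = true := by decide +kernel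

def cl17 : List ℕ := [3576, 3577, 3578, 3579, 3582]

theorem part17 : ∀ c ∈ cl17, ∀ w < 4, okc (c + 32768 * w) = true := by
  intro c hc
  simp only [cl17, List.mem_cons, List.not_mem_nil, or_false] at hc
  rcases hc with rfl | rfl | rfl | rfl | rfl
  · exact four _ okc3576 okc36344 okc69112 okc101880
  · exact four _ okc3577 okc36345 okc69113 okc101881
  · exact four _ okc3578 okc36346 okc69114 okc101882
  · exact four _ okc3579 okc36347 okc69115 okc101883
  · exact four _ okc3582 okc36350 okc69118 okc101886

end Pool.Agent.Lib.MP_afdd4d_co
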