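import Pool.Agent.Lib.MP_afdd4d_co.Data2

/-!
# Checks of base graphs, part 18
-/

set_option linter.defProp false
set_option maxRecDepth 100000

namespace Pool.Agent.Lib.MP_afdd4d_co

def okc3583 : okc 3583 = true := by decide +kernel

def okc36351 : okc 36351 = true := by decide +kernel

def okc69119 : okc 69119 = true := by decide +kernel

def okc101887 : okc 101887 = true := by decide +kernel

def okc3873 : okc 3873 = true := by decide +kernel

def okc36641 : okc 36641 = true := by decide +kernel

def okc69409 : okc 69409 = true := by decide +kernel

def okc102177 : okc 102177 = true := by decide +kernel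

def okc3875 : okc 3875 = true := by decide +kernel

def okc36643 : okc 36643 = true := by decide +kernel

def okc69411 : okc 69411 = true := by decide +kernel

def okc102179 : okc 102179 = true := by decide +kernel

def okc3879 : okc 3879 = true := by decide +kernel

def okc36647 : okc 36647 = true := by decide +kernel

def okc69415 : okc 69415 = true := by decide +kernel

def okc102183 : okc 102183 = true := by decide +kernel

def okc3885 : okc 3885 = true := by decide +kernel

def okc36653 : okc 36653 = true := by decide +kernel

def okc69421 : okc 69421 = true := by decide +kernel

def okc102189 : okc 102189 = true := by decide +kernel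

def cl18 : List ℕ := [3583, 3873, 3875, 3879, 3885]

theorem part18 : ∀ c ∈ cl18, ∀ w < 4, okc (c + 32768 * w) = true := by
  intro c hc
  simp only [cl18, List.mem_cons, List.not_mem_nil, or_false] at hc
  rcases hc with rfl | rfl | rfl | rfl | rfl
  · exact four _ okc3583 okc36351 okc69119 okc101887
  · exact four _ okc3873 okc36641 okc69409 okc102177
  · exact four _ okc3875 okc36643 okc69411 okc102179
  · exact four _ okc3879 okc36647 okc69415 okc102183
  · exact four _ okc3885 okc36653 okc69421 okc102189

end Pool.Agent.Lib.MP_afdd4d_co
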