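import Pool.Agent.Lib.MP_afdd4d_co.Data2

/-!
# Checks of base graphs, part 19
-/

set_option linter.defProp false
set_option maxRecDepth 100000

namespace Pool.Agent.Lib.MP_afdd4d_co

def okc3887 : okc 3887 = true := by decide +kernel

def okc36655 : okc 36655 = true := by decide +kernel

def okc69423 : okc 69423 = true := by decide +kernel

def okc102191 : okc 102191 = true := by decide +kernel

def okc3903 : okc 3903 = true := by decide +kernel

def okc36671 : okc 36671 = true := by decide +kernel

def okc69439 : okc 69439 = true := by decide +kernel

def okc102207 : okc 102207 = true := by decide +kernel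

def okc3947 : okc 3947 = true := by decide +kernel

def okc36715 : okc 36715 = true := by decide +kernel

def okc69483 : okc 69483 = true := by decide +kernel

def okc102251 : okc 102251 = true := by decide +kernel

def okc3948 : okc 3948 = true := by decide +kernel

def okc36716 : okc 36716 = true := by decide +kernel

def okc69484 : okc 69484 = true := by decide +kernel

def okc102252 : okc 102252 = true := by decide +kernel

def okc3949 : okc 3949 = true := by decide +kernel

def okc36717 : okc 36717 = true := by decide +kernel

def okc69485 : okc 69485 = true := by decide +kernel

def okc102253 : okc 102253 = true := by decide +kernel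

def cl19 : List ℕ := [3887, 3903, 3947, 3948, 3949]

theorem part19 : ∀ c ∈ cl19, ∀ w < 4, okc (c + 32768 * w) = true := by
  intro c hc
  simp only [cl19, List.mem_cons, List.not_mem_nil, or_false] at hc
  rcases hc with rfl | rfl | rfl | rfl | rfl
  · exact four _ okc3887 okc36655 okc69423 okc102191
  · exact four _ okc3903 okc36671 okc69439 okc102207
  · exact four _ okc3947 okc36715 okc69483 okc102251
  · exact four _ okc3948 okc36716 okc69484 okc102252
  · exact four _ okc3949 okc36717 okc69485 okc102253

end Pool.Agent.Lib.MP_afdd4d_co
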