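import Pool.Agent.Lib.MP_afdd4d_co.Data2

/-!
# Checks of base graphs, part 20
-/

set_option linter.defProp false
set_option maxRecDepth 100000

namespace Pool.Agent.Lib.MP_afdd4d_co

def okc3950 : okc 3950 = true := by decide +kernel

def okc36718 : okc 36718 = true := by decide +kernel

def okc69486 : okc 69486 = true := by decide +kernel

def okc102254 : okc 102254 = true := by decide +kernel

def okc3951 : okc 3951 = true := by decide +kernel

def okc36719 : okc 36719 = true := by decide +kernel

def okc69487 : okc 69487 = true := by decide +kernel

def okc102255 : okc 102255 = true := by decide +kernel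

def okc3958 : okc 3958 = true := by decide +kernel

def okc36726 : okc 36726 = true := by decide +kernel

def okc69494 : okc 69494 = true := by decide +kernel

def okc102262 : okc 102262 = true := by decide +kernel

def okc3959 : okc 3959 = true := by decide +kernel

def okc36727 : okc 36727 = true := by decide +kernel

def okc69495 : okc 69495 = true := by decide +kernel

def okc102263 : okc 102263 = true := by decide +kernel

def okc3966 : okc 3966 = true := by decide +kernel

def okc36734 : okc 36734 = true := by decide +kernel

def okc69502 : okc 69502 = true := by decide +kernel

def okc102270 : okc 102270 = true := by decide +kernel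

def cl20 : List ℕ := [3950, 3951, 3958, 3959, 3966]

theorem part20 : ∀ c ∈ cl20, ∀ w < 4, okc (c + 32768 * w) = true := by
  intro c hc
  simp only [cl20, List.mem_cons, List.not_mem_nil, or_false] at hc
  rcases hc with rfl | rfl | rfl | rfl | rfl
  · exact four _ okc3950 okc36718 okc69486 okc102254
  · exact four _ okc3951 okc36719 okc69487 okc102255
  · exact four _ okc3958 okc36726 okc69494 okc102262
  · exact four _ okc3959 okc36727 okc69495 okc102263
  · exact four _ okc3966 okc36734 okc69502 okc102270

end Pool.Agent.Lib.MP_afdd4d_co
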