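import Pool.Agent.Lib.MP_afdd4d_co.Data2

/-!
# Checks of base graphs, part 21
-/

set_option linter.defProp false
set_option maxRecDepth 100000

namespace Pool.Agent.Lib.MP_afdd4d_co

def okc3967 : okc 3967 = true := by decide +kernel

def okc36735 : okc 36735 = true := by decide +kernel

def okc69503 : okc 69503 = true := by decide +kernel

def okc102271 : okc 102271 = true := by decide +kernel

def okc4094 : okc 4094 = true := by decide +kernel

def okc36862 : okc 36862 = true := by decide +kernel

def okc69630 : okc 69630 = true := by decide +kernel

def okc102398 : okc 102398 = true := by decide +kernel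

def okc4095 : okc 4095 = true := by decide +kernel

def okc36863 : okc 36863 = true := by decide +kernel

def okc69631 : okc 69631 = true := by decide +kernel

def okc102399 : okc 102399 = true := by decide +kernel

def okc7672 : okc 7672 = true := by decide +kernel

def okc40440 : okc 40440 = true := by decide +kernel

def okc73208 : okc 73208 = true := by decide +kernel

def okc105976 : okc 105976 = true := by decide +kernel

def okc7673 : okc 7673 = true := by decide +kernel

def okc40441 : okc 40441 = true := by decide +kernel

def okc73209 : okc 73209 = true := by decide +kernel

def okc105977 : okc 105977 = true := by decide +kernel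

def cl21 : List ℕ := [3967, 4094, 4095, 7672, 7673]

theorem part21 : ∀ c ∈ cl21, ∀ w < 4, okc (c + 32768 * w) = true := by
  intro c hc
  simp only [cl21, List.mem_cons, List.not_mem_nil, or_false] at hc
  rcases hc with rfl | rfl | rfl | rfl | rfl
  · exact four _ okc3967 okc36735 okc69503 okc102271
  · exact four _ okc4094 okc36862 okc69630 okc102398
  · exact four _ okc4095 okc36863 okc69631 okc102399
  · exact four _ okc7672 okc40440 okc73208 okc105976
  · exact four _ okc7673 okc40441 okc73209 okc105977

end Pool.Agent.Lib.MP_afdd4d_co
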