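import Pool.Agent.Lib.MP_afdd4d_co.Data2

/-!
# Checks of base graphs, part 22
-/

set_option linter.defProp false
set_option maxRecDepth 100000

namespace Pool.Agent.Lib.MP_afdd4d_co

def okc7675 : okc 7675 = true := by decide +kernel

def okc40443 : okc 40443 = true := by decide +kernel

def okc73211 : okc 73211 = true := by decide +kernel

def okc105979 : okc 105979 = true := by decide +kernel

def okc7679 : okc 7679 = true := by decide +kernel

def okc40447 : okc 40447 = true := by decide +kernel

def okc73215 : okc 73215 = true := by decide +kernel

def okc105983 : okc 105983 = true := by decide +kernel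

def okc7902 : okc 7902 = true := by decide +kernel

def okc40670 : okc 40670 = true := by decide +kernel

def okc73438 : okc 73438 = true := by decide +kernel

def okc106206 : okc 106206 = true := by decide +kernel

def okc7903 : okc 7903 = true := by decide +kernel

def okc40671 : okc 40671 = true := by decide +kernel

def okc73439 : okc 73439 = true := by decide +kernel

def okc106207 : okc 106207 = true := by decide +kernel

def okc7915 : okc 7915 = true := by decide +kernel

def okc40683 : okc 40683 = true := by decide +kernel

def okc73451 : okc 73451 = true := by decide +kernel

def okc106219 : okc 106219 = true := by decide +kernel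

def cl22 : List ℕ := [7675, 7679, 7902, 7903, 7915]

theorem part22 : ∀ c ∈ cl22, ∀ w < 4, okc (c + 32768 * w) = true := by
  intro c hc
  simp only [cl22, List.mem_cons, List.not_mem_nil, or_false] at hc
  rcases hc with rfl | rfl | rfl | rfl | rfl
  · exact four _ okc7675 okc40443 okc73211 okc105979
  · exact four _ okc7679 okc40447 okc73215 okc105983
  · exact four _ okc7902 okc40670 okc73438 okc106206
  · exact four _ okc7903 okc40671 okc73439 okc106207
  · exact four _ okc7915 okc40683 okc73451 okc106219

end Pool.Agent.Lib.MP_afdd4d_co
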