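import Pool.Agent.Lib.MP_afdd4d_co.Data2

/-!
# Checks of base graphs, part 23
-/

set_option linter.defProp false
set_option maxRecDepth 100000

namespace Pool.Agent.Lib.MP_afdd4d_co

def okc7916 : okc 7916 = true := by decide +kernel

def okc40684 : okc 40684 = true := by decide +kernel

def okc73452 : okc 73452 = true := by decide +kernel

def okc106220 : okc 106220 = true := by decide +kernel

def okc7917 : okc 7917 = true := by decide +kernel

def okc40685 : okc 40685 = true := by decide +kernel

def okc73453 : okc 73453 = true := by decide +kernel

def okc106221 : okc 106221 = true := by decide +kernel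

def okc7919 : okc 7919 = true := by decide +kernel

def okc40687 : okc 40687 = true := by decide +kernel

def okc73455 : okc 73455 = true := by decide +kernel

def okc106223 : okc 106223 = true := by decide +kernel

def okc7934 : okc 7934 = true := by decide +kernel

def okc40702 : okc 40702 = true := by decide +kernel

def okc73470 : okc 73470 = true := by decide +kernel

def okc106238 : okc 106238 = true := by decide +kernel

def okc7935 : okc 7935 = true := by decide +kernel

def okc40703 : okc 40703 = true := by decide +kernel

def okc73471 : okc 73471 = true := by decide +kernel

def okc106239 : okc 106239 = true := by decide +kernel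

def cl23 : List ℕ := [7916, 7917, 7919, 7934, 7935]

theorem part23 : ∀ c ∈ cl23, ∀ w < 4, okc (c + 32768 * w) = true := by
  intro c hc
  simp only [cl23, List.mem_cons, List.not_mem_nil, or_false] at hc
  rcases hc with rfl | rfl | rfl | rfl | rfl
  · exact four _ okc7916 okc40684 okc73452 okc106220
  · exact four _ okc7917 okc40685 okc73453 okc106221
  · exact four _ okc7919 okc40687 okc73455 okc106223
  · exact four _ okc7934 okc40702 okc73470 okc106238
  · exact four _ okc7935 okc40703 okc73471 okc106239

end Pool.Agent.Lib.MP_afdd4d_co
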