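import Pool.Agent.Lib.MP_afdd4d_co.Data2

/-!
# Checks of base graphs, part 25
-/

set_option linter.defProp false
set_option maxRecDepth 100000

namespace Pool.Agent.Lib.MP_afdd4d_co

def okc16383 : okc 16383 = true := by decide +kernel

def okc49151 : okc 49151 = true := by decide +kernel

def okc81919 : okc 81919 = true := by decide +kernel

def okc114687 : okc 114687 = true := by decide +kernel

def okc32767 : okc 32767 = true := by decide +kernel

def okc65535 : okc 65535 = true := by decide +kernel

def okc98303 : okc 98303 = true := by decide +kernel

def okc131071 : okc 131071 = true := by decide +kernel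

def cl25 : List ℕ := [16383, 32767]

theorem part25 : ∀ c ∈ cl25, ∀ w < 4, okc (c + 32768 * w) = true := by
  intro c hc
  simp only [cl25, List.mem_cons, List.not_mem_nil, or_false] at hc
  rcases hc with rfl | rfl
  · exact four _ okc16383 okc49151 okc81919 okc114687
  · exact four _ okc32767 okc65535 okc98303 okc131071

end Pool.Agent.Lib.MP_afdd4d_co
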