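import Pool.Agent.Lib.MP_afdd4d_co.C01
import Pool.Agent.Lib.MP_afdd4d_co.C02
import Pool.Agent.Lib.MP_afdd4d_co.C03
import Pool.Agent.Lib.MP_afdd4d_co.C04
import Pool.Agent.Lib.MP_afdd4d_co.C05
import Pool.Agent.Lib.MP_afdd4d_co.C06
import Pool.Agent.Lib.MP_afdd4d_co.C07
import Pool.Agent.Lib.MP_afdd4d_co.C08
import Pool.Agent.Lib.MP_afdd4d_co.C09
import Pool.Agent.Lib.MP_afdd4d_co.C10
import Pool.Agent.Lib.MP_afdd4d_co.C11
import Pool.Agent.Lib.MP_afdd4d_co.C12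
import Pool.Agent.Lib.MP_afdd4d_co.C13
import Pool.Agent.Lib.MP_afdd4d_co.C14
import Pool.Agent.Lib.MP_afdd4d_co.C15
import Pool.Agent.Lib.MP_afdd4d_co.C16
import Pool.Agent.Lib.MP_afdd4d_co.C17
import Pool.Agent.Lib.MP_afdd4d_co.C18
import Pool.Agent.Lib.MP_afdd4d_co.C19
import Pool.Agent.Lib.MP_afdd4d_co.C20
import Pool.Agent.Lib.MP_afdd4d_co.C21
import Pool.Agent.Lib.MP_afdd4d_co.C22
import Pool.Agent.Lib.MP_afdd4d_co.C23
import Pool.Agent.Lib.MP_afdd4d_co.C24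
import Pool.Agent.Lib.MP_afdd4d_co.C25

/-!
# All base graphs
-/

namespace Pool.Agent.Lib.MP_afdd4d_co

theorem classes_ok : ∀ c ∈ classes, ∀ w < 4, okc (c + 32768 * w) = true := by
  intro c hc
  have h : classes = cl1 ++ (cl2 ++ (cl3 ++ (cl4 ++ (cl5 ++ (cl6 ++ (cl7 ++ (cl8 ++ (cl9 ++ (
    cl10 ++ (cl11 ++ (cl12 ++ (cl13 ++ (cl14 ++ (cl15 ++ (cl16 ++ (cl17 ++ (cl18 ++ (cl19 ++ (
    cl20 ++ (cl21 ++ (cl22 ++ (cl23 ++ (cl24 ++ cl25))))))))))))))))))))))) := rfl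
  rw [h] at hc
  simp only [List.mem_append] at hc
  rcases hc with hc | hc | hc | hc | hc | hc | hc | hc | hc | hc | hc | hc | hc | hc | hc |
    hc | hc | hc | hc | hc | hc | hc | hc | hc | hc
  · exact part1 c hc
  · exact part2 c hc
  · exact part3 c hc
  · exact part4 c hc
  · exact part5 c hc
  · exact part6 c hc
  · exact part7 c hc
  · exact part8 c hc
  · exact part9 c hc
  · exact part10 c hc
  · exact part11 c hc
  · exact part12 c hc
  · exact part13 c hc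
  · exact part14 c hc
  · exact part15 c hc
  · exact part16 c hc
  · exact part17 c hc
  · exact part18 c hc
  · exact part19 c hc
  · exact part20 c hc
  · exact part21 c hc
  · exact part22 c hc
  · exact part23 c hc
  · exact part24 c hc
  · exact part25 c hc

end Pool.Agent.Lib.MP_afdd4d_co
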