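import Mathlib

/-!
# Averaging over tuples: sums of squares give density bounds
-/

namespace Pool.Agent.Lib.MP_afdd4d_co

open Finset

section avg
variable {V : Type*} [Fintype V] [DecidableEq V] {m : ℕ}

/-- The injective tuples. -/
noncomputable def inj (V : Type*) [Fintype V] [DecidableEq V] (m : ℕ) : Finset (Fin m → V) :=
  univ.filter fun t => Function.Injective t

theorem mem_inj {t : Fin m → V} : t ∈ inj V m ↔ Function.Injective t := by
  simp [inj]

theorem sum_inj_perm (F : (Fin m → V) → ℝ) (σ : Equiv.Perm (Fin m)) :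
    ∑ t ∈ inj V m, F (t ∘ σ) = ∑ t ∈ inj V m, F t := by
  refine Finset.sum_equiv (Equiv.arrowCongr σ.symm (Equiv.refl V)) ?_ ?_
  · intro t
    rw [mem_inj, mem_inj]
    constructor
    · intro h
      exact h.comp σ.injective
    · intro h
      have : Function.Injective ((t ∘ σ) ∘ σ.symm) := Function.Injective.comp h σ.symm.injective
      rwa [Function.comp_assoc, Equiv.self_comp_symm, Function.comp_id] at this
  · intro t _
    rfl

theorem card_inj : (inj V m).card = (Fintype.card V).descFactorial m := by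
  have h := Fintype.card_embedding_eq (α := Fin m) (β := V)
  rw [Fintype.card_fin] at h
  rw [← h]
  rw [inj, ← Fintype.card_subtype]
  exact Fintype.card_congr (Equiv.subtypeInjectiveEquivEmbedding (Fin m) V)

theorem avg {I J : Type*} [Fintype I] [Fintype J] (D : (Fin m → V) → ℝ) (a : I → ℝ)
    (σ : I → Equiv.Perm (Fin m)) (K : J → (Fin m → V) → ℝ) (ρ : J → Equiv.Perm (Fin m))
    (L : ℝ) (C : ℝ) (hK : ∀ j, 0 ≤ ∑ t, K j t) (hC : ∀ j t, K j t ≤ C)
    (hloc : ∀ t, Function.Injective t →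
      L + ∑ j, K j (t ∘ ρ j) ≤ ∑ i, a i * D (t ∘ σ i)) :
    L * ((Fintype.card V).descFactorial m : ℝ) -
      (Fintype.card J : ℝ) * C * ((Fintype.card V : ℝ) ^ m - ((Fintype.card V).descFactorial m : ℝ))
      ≤ (∑ i, a i) * ∑ t ∈ inj V m, D t := by
  classical
  have h1 : ∑ t ∈ inj V m, (L + ∑ j, K j (t ∘ ρ j)) ≤
      ∑ t ∈ inj V m, ∑ i, a i * D (t ∘ σ i) :=
    Finset.sum_le_sum fun t ht => hloc t (mem_inj.mp ht)
  have h2 : ∑ t ∈ inj V m, ∑ i, a i * D (t ∘ σ i) = (∑ i, a i) * ∑ t ∈ inj V m, D t := by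
    rw [Finset.sum_comm, Finset.sum_mul]
    refine Finset.sum_congr rfl fun i _ => ?_
    rw [← Finset.mul_sum, sum_inj_perm]
  have h3 : ∑ t ∈ inj V m, (L + ∑ j, K j (t ∘ ρ j)) =
      L * ((Fintype.card V).descFactorial m : ℝ) + ∑ j, ∑ t ∈ inj V m, K j t := by
    rw [Finset.sum_add_distrib, Finset.sum_const, nsmul_eq_mul, card_inj, mul_comm]
    congr 1
    rw [Finset.sum_comm]
    exact Finset.sum_congr rfl fun j _ => sum_inj_perm _ _
  have hcard : (((univ : Finset (Fin m → V)) \ inj V m).card : ℝ) =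
      (Fintype.card V : ℝ) ^ m - ((Fintype.card V).descFactorial m : ℝ) := by
    rw [Finset.card_sdiff_of_subset (Finset.subset_univ _), card_inj, Finset.card_univ,
      Fintype.card_fun, Fintype.card_fin, Nat.cast_sub, Nat.cast_pow]
    exact Nat.descFactorial_le_pow _ _
  have h4 : ∀ j, -(C * ((Fintype.card V : ℝ) ^ m - ((Fintype.card V).descFactorial m : ℝ))) ≤
      ∑ t ∈ inj V m, K j t := by
    intro j
    have hs := Finset.sum_sdiff (Finset.subset_univ (inj V m)) (f := K j)
    have hb : ∑ t ∈ (univ : Finset (Fin m → V)) \ inj V m, K j t ≤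
        C * ((Fintype.card V : ℝ) ^ m - ((Fintype.card V).descFactorial m : ℝ)) := by
      calc ∑ t ∈ (univ : Finset (Fin m → V)) \ inj V m, K j t
          ≤ ∑ t ∈ (univ : Finset (Fin m → V)) \ inj V m, C :=
            Finset.sum_le_sum fun t _ => hC j t
        _ = C * ((Fintype.card V : ℝ) ^ m - ((Fintype.card V).descFactorial m : ℝ)) := by
            rw [Finset.sum_const, nsmul_eq_mul, hcard, mul_comm]
    have := hK j
    linarith
  have h5 : -((Fintype.card J : ℝ) * C *
      ((Fintype.card V : ℝ) ^ m - ((Fintype.card V).descFactorial m : ℝ))) ≤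
      ∑ j, ∑ t ∈ inj V m, K j t := by
    calc -((Fintype.card J : ℝ) * C *
        ((Fintype.card V : ℝ) ^ m - ((Fintype.card V).descFactorial m : ℝ)))
        = ∑ _j : J, -(C * ((Fintype.card V : ℝ) ^ m -
            ((Fintype.card V).descFactorial m : ℝ))) := by
          rw [Finset.sum_const, Finset.card_univ, nsmul_eq_mul]
          ring
      _ ≤ _ := Finset.sum_le_sum fun j _ => h4 j
  rw [h3, h2] at h1
  linarith

end avg

section square
variable {V : Type*} [Fintype V]

/-- A product of two copies of a function that share the first `s` coordinates sums to a sum of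
squares. -/
theorem square_nonneg (s u : ℕ) (h : (Fin s → V) → (Fin u → V) → ℝ) :
    0 ≤ ∑ t : Fin (s + (u + u)) → V,
      h (fun i => t (Fin.castAdd (u + u) i)) (fun i => t (Fin.natAdd s (Fin.castAdd u i))) *
      h (fun i => t (Fin.castAdd (u + u) i)) (fun i => t (Fin.natAdd s (Fin.natAdd u i))) := by
  rw [← (Fin.appendEquiv s (u + u)).sum_comp, Fintype.sum_prod_type]
  refine Finset.sum_nonneg fun a _ => ?_
  rw [← (Fin.appendEquiv u u).sum_comp, Fintype.sum_prod_type]
  have hh : ∀ x y : Fin u → V,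
      h (fun i => (Fin.appendEquiv s (u + u)) (a, (Fin.appendEquiv u u) (x, y))
          (Fin.castAdd (u + u) i))
        (fun i => (Fin.appendEquiv s (u + u)) (a, (Fin.appendEquiv u u) (x, y))
          (Fin.natAdd s (Fin.castAdd u i))) *
      h (fun i => (Fin.appendEquiv s (u + u)) (a, (Fin.appendEquiv u u) (x, y))
          (Fin.castAdd (u + u) i))
        (fun i => (Fin.appendEquiv s (u + u)) (a, (Fin.appendEquiv u u) (x, y))
          (Fin.natAdd s (Fin.natAdd u i))) = h a x * h a y := by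
    intro x y
    simp only [Fin.appendEquiv_apply, Fin.append_left, Fin.append_right]
  simp_rw [hh]
  rw [← Finset.sum_mul_sum]
  exact mul_self_nonneg _

end square

section asym

/-- `n.descFactorial m / n ^ m` tends to `1`. -/
theorem tendsto_desc (m : ℕ) :
    Filter.Tendsto (fun n : ℕ => (n.descFactorial m : ℝ) / (n : ℝ) ^ m) Filter.atTop (nhds 1) := by
  have hlow : Filter.Tendsto (fun n : ℕ => (1 - (m : ℝ) * (1 / (n : ℝ))) ^ m) Filter.atTop
      (nhds 1) := by
    have h0 : Filter.Tendsto (fun n : ℕ => (1 : ℝ) / (n : ℝ)) Filter.atTop (nhds 0) :=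
      tendsto_one_div_atTop_nhds_zero_nat
    have h1 := ((tendsto_const_nhds (x := (1 : ℝ))).sub (h0.const_mul (m : ℝ))).pow m
    simpa using h1
  refine tendsto_of_tendsto_of_tendsto_of_le_of_le' hlow tendsto_const_nhds ?_ ?_
  · filter_upwards [Filter.eventually_ge_atTop (m + 1)] with n hn
    have hn0 : (0 : ℝ) < n := by
      have : 0 < n := by omega
      exact_mod_cast this
    rw [le_div_iff₀ (pow_pos hn0 m), ← mul_pow]
    have h1 : (1 - (m : ℝ) * (1 / (n : ℝ))) * (n : ℝ) = (n : ℝ) - m := by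
      field_simp
    rw [h1]
    have h2 : ((n + 1 - m) ^ m : ℕ) ≤ n.descFactorial m := Nat.pow_sub_le_descFactorial n m
    have h3 : ((n : ℝ) - m) ≤ ((n + 1 - m : ℕ) : ℝ) := by
      rw [Nat.cast_sub (by omega)]
      push_cast
      linarith
    have h4 : (0 : ℝ) ≤ (n : ℝ) - m := by
      have : (m : ℝ) ≤ n := by exact_mod_cast (by omega : m ≤ n)
      linarith
    calc ((n : ℝ) - m) ^ m ≤ ((n + 1 - m : ℕ) : ℝ) ^ m := pow_le_pow_left₀ h4 h3 m
      _ ≤ (n.descFactorial m : ℝ) := by exact_mod_cast h2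
  · filter_upwards [Filter.eventually_ge_atTop 1] with n hn
    have hn0 : (0 : ℝ) < n := by exact_mod_cast hn
    rw [div_le_one (pow_pos hn0 m)]
    exact_mod_cast Nat.descFactorial_le_pow n m

/-- From the averaged inequality to the density bound. -/
theorem density_bound (m r : ℕ) (hrm : r ≤ m) (A L B lam : ℝ) (hA : 0 < A)
    (hlam : lam * A ≤ L) (ε : ℝ) (hε : 0 < ε) :
    ∃ N : ℕ, ∀ n : ℕ, N ≤ n → ∀ (e S : ℝ), 0 ≤ e →
      S ≤ (n : ℝ) ^ (m - r) * ((r.factorial : ℝ) * e) →
      L * (n.descFactorial m : ℝ) - B * ((n : ℝ) ^ m - (n.descFactorial m : ℝ)) ≤ A * S →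
      (lam - ε) * ((n.choose r : ℕ) : ℝ) ≤ e := by
  have ht := tendsto_desc m
  have ht2 : Filter.Tendsto (fun n : ℕ => (L * ((n.descFactorial m : ℝ) / (n : ℝ) ^ m) -
      B * (1 - (n.descFactorial m : ℝ) / (n : ℝ) ^ m)) / A) Filter.atTop
      (nhds ((L * 1 - B * (1 - 1)) / A)) :=
    ((ht.const_mul L).sub ((tendsto_const_nhds.sub ht).const_mul B)).div_const A
  have hlim : lam - ε < (L * 1 - B * (1 - 1)) / A := by
    have : lam ≤ L / A := by
      rw [le_div_iff₀ hA]
      exact hlam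
    have h2 : (L * 1 - B * (1 - 1)) / A = L / A := by ring_nf
    rw [h2]
    linarith
  have hev := ht2.eventually (lt_mem_nhds hlim)
  obtain ⟨N0, hN0⟩ := Filter.eventually_atTop.mp hev
  refine ⟨max N0 1, fun n hn e S he hS hmain => ?_⟩
  have hn0 : (0 : ℝ) < n := by
    have : 1 ≤ n := le_trans (le_max_right _ _) hn
    exact_mod_cast this
  have hgt := hN0 n (le_trans (le_max_left _ _) hn)
  rcases le_or_gt (lam - ε) 0 with hneg | hpos
  · exact le_trans (mul_nonpos_of_nonpos_of_nonneg hneg (Nat.cast_nonneg _)) he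
  · have hpm : (0 : ℝ) < (n : ℝ) ^ m := pow_pos hn0 m
    have h1 : (lam - ε) * (n : ℝ) ^ m ≤ S := by
      have h2 : (lam - ε) * (A * (n : ℝ) ^ m) ≤
          L * (n.descFactorial m : ℝ) - B * ((n : ℝ) ^ m - (n.descFactorial m : ℝ)) := by
        have h3 : (L * ((n.descFactorial m : ℝ) / (n : ℝ) ^ m) -
            B * (1 - (n.descFactorial m : ℝ) / (n : ℝ) ^ m)) / A * (A * (n : ℝ) ^ m) =
            L * (n.descFactorial m : ℝ) - B * ((n : ℝ) ^ m - (n.descFactorial m : ℝ)) := by
          field_simp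
        rw [← h3]
        exact mul_le_mul_of_nonneg_right hgt.le (mul_pos hA hpm).le
      have h4 : (lam - ε) * (A * (n : ℝ) ^ m) ≤ A * S := le_trans h2 hmain
      have h5 : A * ((lam - ε) * (n : ℝ) ^ m) ≤ A * S := by linarith
      exact le_of_mul_le_mul_left h5 hA
    have h6 : (lam - ε) * (n : ℝ) ^ r ≤ (r.factorial : ℝ) * e := by
      have hpow : (n : ℝ) ^ m = (n : ℝ) ^ (m - r) * (n : ℝ) ^ r := by
        rw [← pow_add, Nat.sub_add_cancel hrm]
      have h7 : (n : ℝ) ^ (m - r) * ((lam - ε) * (n : ℝ) ^ r) ≤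
          (n : ℝ) ^ (m - r) * ((r.factorial : ℝ) * e) := by
        calc (n : ℝ) ^ (m - r) * ((lam - ε) * (n : ℝ) ^ r) = (lam - ε) * (n : ℝ) ^ m := by
              rw [hpow]; ring
          _ ≤ S := h1
          _ ≤ _ := hS
      exact le_of_mul_le_mul_left h7 (pow_pos hn0 _)
    have h8 : ((n.choose r : ℕ) : ℝ) * (r.factorial : ℝ) ≤ (n : ℝ) ^ r := by
      have := Nat.descFactorial_le_pow n r
      rw [Nat.descFactorial_eq_factorial_mul_choose] at this
      have h9 : (((r.factorial * n.choose r : ℕ)) : ℝ) ≤ ((n ^ r : ℕ) : ℝ) := by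
        exact_mod_cast this
      push_cast at h9
      linarith
    have hf : (0 : ℝ) < (r.factorial : ℝ) := by exact_mod_cast r.factorial_pos
    have h10 : (r.factorial : ℝ) * ((lam - ε) * ((n.choose r : ℕ) : ℝ)) ≤
        (r.factorial : ℝ) * e := by
      calc (r.factorial : ℝ) * ((lam - ε) * ((n.choose r : ℕ) : ℝ))
          = (lam - ε) * (((n.choose r : ℕ) : ℝ) * (r.factorial : ℝ)) := by ring
        _ ≤ (lam - ε) * (n : ℝ) ^ r := mul_le_mul_of_nonneg_left h8 hpos.le
        _ ≤ _ := h6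
    exact le_of_mul_le_mul_left h10 hf

end asym

end Pool.Agent.Lib.MP_afdd4d_co
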