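import Pool.Agent.Lib.MP_afdd4d_co.Data2

/-!
# Reduction of the base graph
-/

namespace Pool.Agent.Lib.MP_afdd4d_co

/-- For each vertex, the positions of the pairs that contain it. -/
def isoD : List (List ℕ) := [[0, 10, 6, 3, 1], [0, 11, 7, 2, 4], [1, 8, 12, 5, 2],
  [3, 9, 13, 5, 4], [6, 14, 9, 8, 7], [10, 14, 13, 12, 11]]

/-- The condition checked for each graph. -/
def red (g : ℕ) : Bool :=
  (redD.any fun d => Nat.ble (Nat.succ (btsF g d.2)) g) ||
    ((isoD.any fun l => Nat.beq (btsF g l) 0) || classes.elem g)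

def allb (f : ℕ → Bool) : ℕ → ℕ → Bool
  | 0, g => f g
  | k + 1, g => allb f k (2 * g) && allb f k (2 * g + 1)

theorem allb_spec (f : ℕ → Bool) (k : ℕ) : ∀ g : ℕ, allb f k g = true →
    ∀ h < 2 ^ k, f (g * 2 ^ k + h) = true := by
  induction k with
  | zero =>
    intro g hg h hh
    have : h = 0 := by simpa using hh
    subst this
    rw [pow_zero, mul_one, add_zero]
    exact hg
  | succ k ih =>
    intro g hg h hh
    rw [allb, Bool.and_eq_true] at hg
    by_cases h1 : h < 2 ^ k
    · have := ih _ hg.1 h h1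
      have e : 2 * g * 2 ^ k + h = g * 2 ^ (k + 1) + h := by rw [pow_succ]; ring
      rwa [e] at this
    · have h2 : h - 2 ^ k < 2 ^ k := by
        rw [pow_succ] at hh
        omega
      have := ih _ hg.2 _ h2
      have e : (2 * g + 1) * 2 ^ k + (h - 2 ^ k) = g * 2 ^ (k + 1) + h := by
        have e2 : (2 * g + 1) * 2 ^ k = g * 2 ^ (k + 1) + 2 ^ k := by rw [pow_succ]; ring
        rw [e2]
        omega
      rwa [e] at this

def allbF (f : ℕ → Bool) (k : ℕ) : ℕ → Bool :=
  @Nat.rec (fun _ => ℕ → Bool) (fun g => f g)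
    (fun _ ih g => @Bool.rec (fun _ => Bool) false (force (Nat.add (Nat.mul 2 g) 1) ih)
      (force (Nat.mul 2 g) ih)) k

theorem allbF_eq (f : ℕ → Bool) (k : ℕ) : ∀ g : ℕ, allbF f k g = allb f k g := by
  induction k with
  | zero => intro g; rfl
  | succ k ih =>
    intro g
    have e1 : allbF f (k + 1) g = @Bool.rec (fun _ => Bool) false
      (force (Nat.add (Nat.mul 2 g) 1) (allbF f k)) (force (Nat.mul 2 g) (allbF f k)) := rfl
    rw [e1, force_eq, force_eq, ih, ih, allb]
    have e2 : Nat.mul 2 g = 2 * g := rfl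
    have e3 : Nat.add (2 * g) 1 = 2 * g + 1 := rfl
    rw [e2, e3]
    cases allb f k (2 * g) <;> rfl

theorem red_check : allbF red 15 0 = true := by decide +kernel

theorem red_all (g : ℕ) (hg : g < 2 ^ 15) : red g = true := by
  have h := red_check
  rw [allbF_eq] at h
  have := allb_spec red 15 0 h g hg
  rwa [zero_mul, zero_add] at this

end Pool.Agent.Lib.MP_afdd4d_co
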