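import Pool.Agent.Lib.MP_afdd4d_co.Data2

/-!
# Checks of base graphs, part 1
-/

set_option linter.defProp false
set_option maxRecDepth 100000

namespace Pool.Agent.Lib.MP_afdd4d_co

def okc1099 : okc 1099 = true := by decide +kernel

def okc33867 : okc 33867 = true := by decide +kernel

def okc66635 : okc 66635 = true := by decide +kernel

def okc99403 : okc 99403 = true := by decide +kernel

def okc1100 : okc 1100 = true := by decide +kernel

def okc33868 : okc 33868 = true := by decide +kernel

def okc66636 : okc 66636 = true := by decide +kernel

def okc99404 : okc 99404 = true := by decide +kernel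

def okc1101 : okc 1101 = true := by decide +kernel

def okc33869 : okc 33869 = true := by decide +kernel

def okc66637 : okc 66637 = true := by decide +kernel

def okc99405 : okc 99405 = true := by decide +kernel

def okc1103 : okc 1103 = true := by decide +kernel

def okc33871 : okc 33871 = true := by decide +kernel

def okc66639 : okc 66639 = true := by decide +kernel

def okc99407 : okc 99407 = true := by decide +kernel

def okc1108 : okc 1108 = true := by decide +kernel

def okc33876 : okc 33876 = true := by decide +kernel

def okc66644 : okc 66644 = true := by decide +kernel

def okc99412 : okc 99412 = true := by decide +kernel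

def cl1 : List ℕ := [1099, 1100, 1101, 1103, 1108]

theorem part1 : ∀ c ∈ cl1, ∀ w < 4, okc (c + 32768 * w) = true := by
  intro c hc
  simp only [cl1, List.mem_cons, List.not_mem_nil, or_false] at hc
  rcases hc with rfl | rfl | rfl | rfl | rfl
  · exact four _ okc1099 okc33867 okc66635 okc99403
  · exact four _ okc1100 okc33868 okc66636 okc99404
  · exact four _ okc1101 okc33869 okc66637 okc99405
  · exact four _ okc1103 okc33871 okc66639 okc99407
  · exact four _ okc1108 okc33876 okc66644 okc99412

end Pool.Agent.Lib.MP_afdd4d_co
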