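import Pool.Agent.Lib.MP_afdd4d_co.Data2

/-!
# Checks of base graphs, part 12
-/

set_option linter.defProp false
set_option maxRecDepth 100000

namespace Pool.Agent.Lib.MP_afdd4d_co

def okc1972 : okc 1972 = true := by decide +kernel

def okc34740 : okc 34740 = true := by decide +kernel

def okc67508 : okc 67508 = true := by decide +kernel

def okc100276 : okc 100276 = true := by decide +kernel

def okc1973 : okc 1973 = true := by decide +kernel

def okc34741 : okc 34741 = true := by decide +kernel

def okc67509 : okc 67509 = true := by decide +kernel

def okc100277 : okc 100277 = true := by decide +kernel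

def okc1975 : okc 1975 = true := by decide +kernel

def okc34743 : okc 34743 = true := by decide +kernel

def okc67511 : okc 67511 = true := by decide +kernel

def okc100279 : okc 100279 = true := by decide +kernel

def okc1983 : okc 1983 = true := by decide +kernel

def okc34751 : okc 34751 = true := by decide +kernel

def okc67519 : okc 67519 = true := by decide +kernel

def okc100287 : okc 100287 = true := by decide +kernel

def okc2047 : okc 2047 = true := by decide +kernel

def okc34815 : okc 34815 = true := by decide +kernel

def okc67583 : okc 67583 = true := by decide +kernel

def okc100351 : okc 100351 = true := by decide +kernel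

def cl12 : List ℕ := [1972, 1973, 1975, 1983, 2047]

theorem part12 : ∀ c ∈ cl12, ∀ w < 4, okc (c + 32768 * w) = true := by
  intro c hc
  simp only [cl12, List.mem_cons, List.not_mem_nil, or_false] at hc
  rcases hc with rfl | rfl | rfl | rfl | rfl
  · exact four _ okc1972 okc34740 okc67508 okc100276
  · exact four _ okc1973 okc34741 okc67509 okc100277
  · exact four _ okc1975 okc34743 okc67511 okc100279
  · exact four _ okc1983 okc34751 okc67519 okc100287
  · exact four _ okc2047 okc34815 okc67583 okc100351

end Pool.Agent.Lib.MP_afdd4d_co
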