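import Pool.Agent.Lib.MP_afdd4d_co.Data2

/-!
# Checks of base graphs, part 24
-/

set_option linter.defProp false
set_option maxRecDepth 100000

namespace Pool.Agent.Lib.MP_afdd4d_co

def okc8185 : okc 8185 = true := by decide +kernel

def okc40953 : okc 40953 = true := by decide +kernel

def okc73721 : okc 73721 = true := by decide +kernel

def okc106489 : okc 106489 = true := by decide +kernel

def okc8187 : okc 8187 = true := by decide +kernel

def okc40955 : okc 40955 = true := by decide +kernel

def okc73723 : okc 73723 = true := by decide +kernel

def okc106491 : okc 106491 = true := by decide +kernel

def okc8191 : okc 8191 = true := by decide +kernel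

def okc40959 : okc 40959 = true := by decide +kernel

def okc73727 : okc 73727 = true := by decide +kernel

def okc106495 : okc 106495 = true := by decide +kernel

def okc16350 : okc 16350 = true := by decide +kernel

def okc49118 : okc 49118 = true := by decide +kernel

def okc81886 : okc 81886 = true := by decide +kernel

def okc114654 : okc 114654 = true := by decide +kernel

def okc16351 : okc 16351 = true := by decide +kernel

def okc49119 : okc 49119 = true := by decide +kernel

def okc81887 : okc 81887 = true := by decide +kernel

def okc114655 : okc 114655 = true := by decide +kernel

def cl24 : List ℕ := [8185, 8187, 8191, 16350, 16351]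

theorem part24 : ∀ c ∈ cl24, ∀ w < 4, okc (c + 32768 * w) = true := by
  intro c hc
  simp only [cl24, List.mem_cons, List.not_mem_nil, or_false] at hc
  rcases hc with rfl | rfl | rfl | rfl | rfl
  · exact four _ okc8185 okc40953 okc73721 okc106489
  · exact four _ okc8187 okc40955 okc73723 okc106491
  · exact four _ okc8191 okc40959 okc73727 okc106495
  · exact four _ okc16350 okc49118 okc81886 okc114654
  · exact four _ okc16351 okc49119 okc81887 okc114655

end Pool.Agent.Lib.MP_afdd4d_co
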