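import Pool.Agent.Lib.MP_afdd4d_co.Lane4

/-!
# The check for one base graph
-/

namespace Pool.Agent.Lib.MP_afdd4d_co

open Finset

/-- The number with bits `F i` for `i` in the list. -/
def bt (F : ℕ → Bool) : List ℕ → ℕ
  | [] => 0
  | i :: l => (F i).toNat + 2 * bt F l

/-- The same for the bits of a number. -/
def bts (c : ℕ) : List ℕ → ℕ
  | [] => 0
  | i :: l => (c / 2 ^ i) % 2 + 2 * bts c l

theorem bts_eq (c : ℕ) (l : List ℕ) : bts c l = bt c.testBit l := by
  induction l with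
  | nil => rfl
  | cons i l ih => rw [bts, bt, ih, Nat.toNat_testBit]

theorem bt_congr (F G : ℕ → Bool) (l : List ℕ) (h : ∀ i ∈ l, F i = G i) : bt F l = bt G l := by
  induction l with
  | nil => rfl
  | cons i l ih =>
    rw [bt, bt, h i List.mem_cons_self, ih fun j hj => h j (List.mem_cons_of_mem _ hj)]

theorem bt_map (F : ℕ → Bool) (g : ℕ → ℕ) (l : List ℕ) : bt F (l.map g) = bt (F ∘ g) l := by
  induction l with
  | nil => rfl
  | cons i l ih => rw [List.map_cons, bt, bt, ih]; rfl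

theorem bt_append (F : ℕ → Bool) (l m : List ℕ) :
    bt F (l ++ m) = bt F l + 2 ^ l.length * bt F m := by
  induction l with
  | nil => simp [bt]
  | cons i l ih =>
    rw [List.cons_append, bt, bt, ih, List.length_cons, pow_succ]
    ring

theorem bt_lt (F : ℕ → Bool) (l : List ℕ) : bt F l < 2 ^ l.length := by
  induction l with
  | nil => simp [bt]
  | cons i l ih =>
    rw [bt, List.length_cons, pow_succ]
    have := Bool.toNat_le (F i)
    omega

theorem idx_eq_bt (n : ℕ) (b : ℕ → Bool) : idx n b = bt b (List.range n) := by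
  induction n with
  | zero => rfl
  | succ n ih =>
    rw [idx, List.range_succ, bt_append, List.length_range, ih, bt, bt]
    simp

/-! ### Rows -/

/-- The family of a pattern: the patterns with bit 0 equal to zero are in the first list, the others in
the second. -/
def fam (fA fB : List (List ℕ)) (p : ℕ) : List ℕ :=
  (bif Nat.beq (p % 2) 0 then fA else fB).getD (p / 2) []

/-- A row: positions of the bits of the pattern and of the two codes, a program, and the numbers of
free bits. -/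
structure Row where
  p : List ℕ
  x : List ℕ
  y : List ℕ
  pr : List (ℕ × ℕ)
  kx : ℕ
  ky : ℕ
  t : ℕ

/-- A row of the first kind together with rows of the second kind. -/
structure Grp where
  r : Row
  ex : List Row

/-- Sums over a list. -/
def sumR {α : Type} (g : α → ℕ) : List α → ℕ
  | [] => 0
  | r :: l => g r + sumR g l

/-- The array of a row of the second kind. -/
def valB (fA fB : List (List ℕ)) (c : ℕ) (r : Row) : ℕ :=
  run r.kx r.pr (sl (2 ^ r.kx) (row (fam fA fB (bts c r.p)) (bts c r.y)) (bts c (r.x.drop r.kx)))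

/-- The families used by a row of the first kind. -/
def sel (t h : ℕ) (fs : List (List ℕ)) : List (List ℕ) := (fs.drop (2 ^ t * h)).take (2 ^ t)

/-- The array of a row of the first kind. -/
def valT (fA fB : List (List ℕ)) (c : ℕ) (r : Row) : ℕ :=
  tab r.kx r.ky (bts c (r.x.drop r.kx)) (bts c (r.y.drop r.ky))
    (sel r.t (bts c (r.p.drop (r.t + 1)))
      (bif Nat.beq ((c / 2 ^ (r.p.headD 0)) % 2) 0 then fA else fB))

/-- The array of a group, with `2 ^ 18` lanes. -/
def valG (fA fB : List (List ℕ)) (c : ℕ) (g : Grp) : ℕ :=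
  run (g.r.kx + g.r.ky + g.r.t) g.r.pr (valT fA fB c g.r + sumR (valB fA fB c) g.ex)

/-- Conditions on rows of the first kind. -/
def okA (r : Row) : Bool :=
  okp (r.kx + r.ky + r.t) r.pr && (decide (nd (r.kx + r.ky + r.t) r.pr = 18) &&
    (decide ((List.range (r.kx + r.ky + r.t)).map
      (fun i => pm (r.kx + r.ky + r.t) r.pr i + 17) =
      r.x.take r.kx ++ (r.y.take r.ky ++ (r.p.drop 1).take r.t)) &&
    (decide (r.p.length = 5) && (decide (r.x.length = 10) && (decide (r.y.length = 10) &&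
    (decide (r.p.headD 0 < 17) && ((r.x.drop r.kx).all (fun i => decide (i < 17)) &&
    ((r.y.drop r.ky).all (fun i => decide (i < 17)) &&
    ((r.p.drop (r.t + 1)).all (fun i => decide (i < 17)) &&
    (decide (r.ky ≤ r.kx) && (decide (1 ≤ r.kx) && (decide (r.kx ≤ 10) &&
    decide (r.t ≤ 4)))))))))))))

/-- Conditions on rows of the second kind; `n` and `pr` belong to the group. -/
def okB (n : ℕ) (pr : List (ℕ × ℕ)) (r : Row) : Bool :=
  okp r.kx r.pr && (decide (nd r.kx r.pr = n) &&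
    (decide ((List.range r.kx).map (fun i => pm n pr (pm r.kx r.pr i) + 17) = r.x.take r.kx) &&
    (decide (r.p.length = 5) && (decide (r.x.length = 10) && (decide (r.kx ≤ 10) &&
    (r.p.all (fun i => decide (i < 17)) && (r.y.all (fun i => decide (i < 17)) &&
    (r.x.drop r.kx).all (fun i => decide (i < 17)))))))))

def okG (g : Grp) : Bool :=
  okA g.r && (decide (g.ex.length ≤ 6) &&
    g.ex.all (fun r => okB (g.r.kx + g.r.ky + g.r.t) g.r.pr r))

/-- The families are good, and nonempty except for the first. -/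
def GoodF (fA fB : List (List ℕ)) : Prop :=
  fA.length = 16 ∧ fB.length = 16 ∧ (∀ l ∈ fA, Good l) ∧ (∀ l ∈ fB, Good l) ∧
    ∀ p < 32, p ≠ 0 → fam fA fB p ≠ []

theorem good_nil : Good [] := ⟨by simp, by simp⟩

theorem getD_mem_or {α : Type*} (l : List α) (i : ℕ) (d : α) :
    l.getD i d ∈ l ∨ l.getD i d = d := by
  by_cases h : i < l.length
  · left
    rw [List.getD_eq_getElem _ _ h]
    exact List.getElem_mem h
  · right
    exact List.getD_eq_default _ _ (not_lt.mp h)

theorem good_getD (ls : List (List ℕ)) (h : ∀ l ∈ ls, Good l) (i : ℕ) : Good (ls.getD i []) := by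
  rcases getD_mem_or ls i [] with h1 | h1
  · exact h _ h1
  · rw [h1]; exact good_nil

theorem good_fam (fA fB : List (List ℕ)) (h : GoodF fA fB) (p : ℕ) : Good (fam fA fB p) := by
  unfold fam
  cases Nat.beq (p % 2) 0
  · exact good_getD _ h.2.2.2.1 _
  · exact good_getD _ h.2.2.1 _

theorem sel_getD (t h w : ℕ) (fs : List (List ℕ)) (hw : w < 2 ^ t) :
    (sel t h fs).getD w [] = fs.getD (w + 2 ^ t * h) [] := by
  rw [sel, List.getD_eq_getElem?_getD, List.getD_eq_getElem?_getD, List.getElem?_take, if_pos hw,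
    List.getElem?_drop, add_comm]

theorem valT_spec (fA fB : List (List ℕ)) (h : GoodF fA fB) (c : ℕ) (r : Row)
    (hr : okA r = true) (F : ℕ → Bool) (hF : ∀ i < 17, F i = c.testBit i) :
    valT fA fB c r < 2 ^ (40 * 2 ^ (r.kx + r.ky + r.t)) ∧
    (∀ i, L (valT fA fB c r) i ≤ 2 ^ 33) ∧
    (bt F r.p ≠ 0 → (L (valT fA fB c r) (idx (r.kx + r.ky + r.t)
      ((fun k => F (k + 17)) ∘ pm (r.kx + r.ky + r.t) r.pr)) : ℤ) =
      2 ^ 32 + gram (fam fA fB (bt F r.p)) (bt F r.x) (bt F r.y)) := by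
  obtain ⟨hlA, hlB, hgA, hgB, hne⟩ := h
  simp only [okA, Bool.and_eq_true, decide_eq_true_eq, List.all_eq_true] at hr
  obtain ⟨h1, h2, h3, h4, h5, h6, h7, h8, h9, h10, h11, h12, h13, h14⟩ := hr
  -- the list of families
  set fs := bif Nat.beq ((c / 2 ^ (r.p.headD 0)) % 2) 0 then fA else fB with hfs
  have hgs : ∀ l ∈ fs, Good l := by
    rw [hfs]
    cases Nat.beq ((c / 2 ^ (r.p.headD 0)) % 2) 0
    · exact hgB
    · exact hgA
  set fs' := sel r.t (bts c (r.p.drop (r.t + 1))) fs with hfs'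
  have hgs' : ∀ l ∈ fs', Good l := by
    intro l hl
    rw [hfs', sel] at hl
    exact hgs l (List.mem_of_mem_drop (List.mem_of_mem_take hl))
  have hls' : fs'.length ≤ 2 ^ r.t := by
    rw [hfs', sel]
    exact List.length_take_le _ _
  have hTlt := tab_lt r.kx r.ky r.t h11 h12 (bts c (r.x.drop r.kx)) (bts c (r.y.drop r.ky)) fs'
    hgs' hls'
  have hTsp := tab_spec r.kx r.ky h11 h12 (bts c (r.x.drop r.kx)) (bts c (r.y.drop r.ky)) fs' hgs'
  have hbound : ∀ i, L (tab r.kx r.ky (bts c (r.x.drop r.kx)) (bts c (r.y.drop r.ky)) fs') i ≤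
      2 ^ 33 := by
    intro i
    rw [hTsp]
    exact (blk_spec _ _ h11 h12 _ (good_getD _ hgs' _) _ _).2.2 _
  refine ⟨hTlt, hbound, ?_⟩
  intro hp
  rw [valT, ← hfs, ← hfs', hTsp]
  -- the index
  set b : ℕ → Bool := fun k => F (k + 17) with hb
  have hidx : idx (r.kx + r.ky + r.t) (b ∘ pm (r.kx + r.ky + r.t) r.pr) =
      bt F (r.x.take r.kx ++ (r.y.take r.ky ++ (r.p.drop 1).take r.t)) := by
    rw [← h3, idx_eq_bt, bt_map]
    apply bt_congr
    intro i _
    rfl
  have hx6 : (r.x.take r.kx).length = r.kx := by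
    rw [List.length_take, h5]; omega
  have hy6 : (r.y.take r.ky).length = r.ky := by
    rw [List.length_take, h6]; omega
  have hp1 : ((r.p.drop 1).take r.t).length = r.t := by
    rw [List.length_take, List.length_drop, h4]; omega
  have hu := bt_lt F (r.x.take r.kx)
  have hv := bt_lt F (r.y.take r.ky)
  have hw := bt_lt F ((r.p.drop 1).take r.t)
  rw [hx6] at hu
  rw [hy6] at hv
  rw [hp1] at hw
  rw [bt_append, bt_append, hx6, hy6] at hidx
  set u := bt F (r.x.take r.kx) with hu'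
  set v := bt F (r.y.take r.ky) with hv'
  set w := bt F ((r.p.drop 1).take r.t) with hw'
  have hxp : 0 < 2 ^ r.kx := Nat.two_pow_pos _
  have huv : u + 2 ^ r.kx * v < 2 ^ (r.kx + r.ky) := by
    rw [pow_add]
    calc u + 2 ^ r.kx * v < 2 ^ r.kx + 2 ^ r.kx * v := Nat.add_lt_add_right hu _
      _ = 2 ^ r.kx * (v + 1) := by ring
      _ ≤ 2 ^ r.kx * 2 ^ r.ky := Nat.mul_le_mul_left _ hv
  have hidx2 : idx (r.kx + r.ky + r.t) (b ∘ pm (r.kx + r.ky + r.t) r.pr) =
      (u + 2 ^ r.kx * v) + 2 ^ (r.kx + r.ky) * w := by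
    rw [hidx, pow_add]
    ring
  have hmod : idx (r.kx + r.ky + r.t) (b ∘ pm (r.kx + r.ky + r.t) r.pr) % 2 ^ (r.kx + r.ky) =
      u + 2 ^ r.kx * v := by
    rw [hidx2, Nat.add_mul_mod_self_left, Nat.mod_eq_of_lt huv]
  have hdiv : idx (r.kx + r.ky + r.t) (b ∘ pm (r.kx + r.ky + r.t) r.pr) / 2 ^ (r.kx + r.ky) =
      w := by
    rw [hidx2, Nat.add_mul_div_left _ _ (Nat.two_pow_pos _), Nat.div_eq_of_lt huv, zero_add]
  have hfx : bt F r.x = u + 2 ^ r.kx * bts c (r.x.drop r.kx) := by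
    rw [← List.take_append_drop r.kx r.x, bt_append, hx6, List.take_append_drop, bts_eq]
    congr 2
    apply bt_congr
    intro i hi
    exact hF i (h8 i hi)
  have hfy : bt F r.y = v + 2 ^ r.ky * bts c (r.y.drop r.ky) := by
    rw [← List.take_append_drop r.ky r.y, bt_append, hy6, List.take_append_drop, bts_eq]
    congr 2
    apply bt_congr
    intro i hi
    exact hF i (h9 i hi)
  -- the pattern
  obtain ⟨p0, pl, hpl⟩ : ∃ p0 pl, r.p = p0 :: pl := by
    cases hrp : r.p with
    | nil => rw [hrp] at h4; simp at h4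
    | cons p0 pl => exact ⟨p0, pl, rfl⟩
  have hp0 : p0 < 17 := by rw [hpl] at h7; exact h7
  have hpd : bt F (r.p.drop 1) = w + 2 ^ r.t * bts c (r.p.drop (r.t + 1)) := by
    have e1 : r.p.drop 1 = (r.p.drop 1).take r.t ++ r.p.drop (r.t + 1) := by
      have e2 : r.p.drop (r.t + 1) = (r.p.drop 1).drop r.t := by
        rw [List.drop_drop, add_comm]
      rw [e2, List.take_append_drop]
    rw [e1, bt_append, hp1, bts_eq]
    congr 2
    apply bt_congr
    intro i hi
    exact hF i (h10 i hi)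
  have hpbt : bt F r.p = (F p0).toNat + 2 * bt F (r.p.drop 1) := by
    rw [hpl, bt]; rfl
  have hFp0 : (F p0).toNat = (c / 2 ^ p0) % 2 := by
    rw [hF p0 hp0, Nat.toNat_testBit]
  have hp2 : bt F r.p % 2 = (c / 2 ^ p0) % 2 := by
    rw [hpbt, hFp0]; omega
  have hp3 : bt F r.p / 2 = bt F (r.p.drop 1) := by
    rw [hpbt]
    have := Bool.toNat_le (F p0)
    omega
  have hfam : fam fA fB (bt F r.p) = fs'.getD w [] := by
    rw [hfs', sel_getD _ _ _ _ hw, ← hpd, fam, hp2, hp3, hfs, hpl]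
    rfl
  have hplt : bt F r.p < 32 := by
    have := bt_lt F r.p
    rw [h4] at this
    exact this
  have hne' : fs'.getD w [] ≠ [] := by
    rw [← hfam]
    exact hne _ hplt hp
  rw [hmod, hdiv, hfam, hfx, hfy]
  have hN : u + 2 ^ r.kx * v < 2 ^ r.kx * 2 ^ r.ky := by rw [← pow_add]; exact huv
  rw [(blk_spec _ _ h11 h12 _ (good_getD _ hgs' _) _ _).2.1 hne' _ hN]
  have e1 : (u + 2 ^ r.kx * v) % 2 ^ r.kx = u := by
    rw [Nat.add_mul_mod_self_left, Nat.mod_eq_of_lt hu]
  have e2 : (u + 2 ^ r.kx * v) / 2 ^ r.kx = v := by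
    rw [Nat.add_mul_div_left _ _ hxp, Nat.div_eq_of_lt hu, zero_add]
  rw [e1, e2]

theorem valB_spec (fA fB : List (List ℕ)) (h : GoodF fA fB) (c n : ℕ) (pr : List (ℕ × ℕ))
    (r : Row) (hr : okB n pr r = true) (F : ℕ → Bool) (hF : ∀ i < 17, F i = c.testBit i) :
    valB fA fB c r < 2 ^ (40 * 2 ^ n) ∧ (∀ i, L (valB fA fB c r) i ≤ 2 ^ 33) ∧
    (bt F r.p ≠ 0 → (L (valB fA fB c r) (idx n ((fun k => F (k + 17)) ∘ pm n pr)) : ℤ) =
      2 ^ 32 + gram (fam fA fB (bt F r.p)) (bt F r.x) (bt F r.y)) := by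
  have hgf := good_fam fA fB h
  obtain ⟨_, _, _, _, hne⟩ := h
  simp only [okB, Bool.and_eq_true, decide_eq_true_eq, List.all_eq_true] at hr
  obtain ⟨h1, h2, h3, h4, h7, h8, h5, h6, h9⟩ := hr
  have hp : bts c r.p = bt F r.p := by
    rw [bts_eq]
    apply bt_congr
    intro i hi
    exact (hF i (h5 i hi)).symm
  have hy : bts c r.y = bt F r.y := by
    rw [bts_eq]
    apply bt_congr
    intro i hi
    exact (hF i (h6 i hi)).symm
  have hx : bts c (r.x.drop r.kx) = bt F (r.x.drop r.kx) := by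
    rw [bts_eq]
    apply bt_congr
    intro i hi
    exact (hF i (h9 i hi)).symm
  obtain ⟨hr1, hr2, hr3⟩ := row_spec (fam fA fB (bt F r.p)) (hgf _) (bt F r.y)
  obtain ⟨hs1, hs2⟩ := sl_spec (2 ^ r.kx) (row (fam fA fB (bt F r.p)) (bt F r.y))
    (bt F (r.x.drop r.kx))
  obtain ⟨h10, h11⟩ := run_spec r.pr r.kx _ h1 hs1
  rw [h2] at h10 h11
  rw [valB, hp, hy, hx]
  have hsb : ∀ i, L (sl (2 ^ r.kx) (row (fam fA fB (bt F r.p)) (bt F r.y))
      (bt F (r.x.drop r.kx))) i ≤ 2 ^ 33 := by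
    intro i
    rw [hs2]
    split_ifs
    · exact hr3 _
    · exact Nat.zero_le _
  refine ⟨h10, ?_, ?_⟩
  · intro i
    by_cases hi : i < 2 ^ n
    · have h12 := h11 i.testBit
      rw [idx_testBit n i hi] at h12
      rw [h12]
      exact hsb _
    · rw [L_eq_zero_of_lt _ _ _ h10 (not_lt.mp hi)]
      exact Nat.zero_le _
  · intro hp0
    have hplt : bt F r.p < 32 := by
      have := bt_lt F r.p
      rw [h4] at this
      exact this
    rw [h11]
    have hidx : idx r.kx (((fun k => F (k + 17)) ∘ pm n pr) ∘ pm r.kx r.pr) =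
        bt F (r.x.take r.kx) := by
      rw [← h3, idx_eq_bt, bt_map]
      apply bt_congr
      intro i _
      rfl
    have hxl : (r.x.take r.kx).length = r.kx := by
      rw [List.length_take, h7]; omega
    have hu := bt_lt F (r.x.take r.kx)
    rw [hxl] at hu
    have hfx : bt F (r.x.take r.kx) + 2 ^ r.kx * bt F (r.x.drop r.kx) = bt F r.x := by
      conv_rhs => rw [← List.take_append_drop r.kx r.x, bt_append, hxl]
    have hxlt : bt F r.x < 1024 := by
      have := bt_lt F r.x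
      rw [h7] at this
      exact this
    rw [hidx, hs2, if_pos hu, hfx]
    exact hr2 (hne _ hplt hp0) _ hxlt

/-! ### The whole check -/

theorem sumR_spec {α : Type} (g : α → ℕ) (m : α → ℕ) (N : ℕ) (l : List α)
    (hl : (l.map m).sum ≤ 32)
    (h1 : ∀ r ∈ l, ∀ i, L (g r) i ≤ m r * 2 ^ 33) (h2 : ∀ r ∈ l, g r < 2 ^ (40 * N)) :
    sumR g l < 2 ^ (40 * N) ∧ ∀ i, L (sumR g l) i = (l.map fun r => L (g r) i).sum ∧
      L (sumR g l) i ≤ (l.map m).sum * 2 ^ 33 := by
  induction l with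
  | nil =>
    refine ⟨Nat.two_pow_pos _, fun i => ?_⟩
    rw [sumR, L_zero_left]
    exact ⟨rfl, Nat.zero_le _⟩
  | cons r l ih =>
    rw [List.map_cons, List.sum_cons] at hl
    obtain ⟨h3, h4⟩ := ih (by omega) (fun r hr => h1 r (List.mem_cons_of_mem _ hr))
      (fun r hr => h2 r (List.mem_cons_of_mem _ hr))
    have h5 := h1 r List.mem_cons_self
    have h6 := h2 r List.mem_cons_self
    have hadd : ∀ i, L (g r) i + L (sumR g l) i < 2 ^ 40 := by
      intro i
      have h7 := h5 i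
      have h8 := (h4 i).2
      have h9 : (m r + (l.map m).sum) * 2 ^ 33 ≤ 32 * 2 ^ 33 := Nat.mul_le_mul_right _ hl
      rw [add_mul] at h9
      norm_num at h7 h8 h9 ⊢
      omega
    constructor
    · apply lt_of_L_eq_zero
      intro i hi
      rw [sumR, L_add _ _ hadd, L_eq_zero_of_lt _ _ _ h6 hi, L_eq_zero_of_lt _ _ _ h3 hi]
    · intro i
      rw [sumR, L_add _ _ hadd, List.map_cons, List.sum_cons, (h4 i).1]
      refine ⟨rfl, ?_⟩
      rw [← (h4 i).1, List.map_cons, List.sum_cons, add_mul]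
      exact Nat.add_le_add (h5 i) (h4 i).2

theorem cast_sum_map {α : Type} (m : List α) (g : α → ℕ) : (((m.map g).sum : ℕ) : ℤ) =
    (m.map fun r => ((g r : ℕ) : ℤ)).sum := by
  induction m with
  | nil => rfl
  | cons r m ih =>
    rw [List.map_cons, List.sum_cons, List.map_cons, List.sum_cons, ← ih]; push_cast; rfl

theorem sum_const_add {α : Type} (m : List α) (g : α → ℤ) : (m.map fun r => 2 ^ 32 + g r).sum =
    2 ^ 32 * (m.length : ℤ) + (m.map g).sum := by
  induction m with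
  | nil => simp
  | cons r m ih =>
    rw [List.map_cons, List.sum_cons, List.map_cons, List.sum_cons, ih, List.length_cons]
    push_cast
    ring

/-- The value of a row. -/
def gr (fA fB : List (List ℕ)) (F : ℕ → Bool) (r : Row) : ℤ :=
  gram (fam fA fB (bt F r.p)) (bt F r.x) (bt F r.y)

theorem valG_spec (fA fB : List (List ℕ)) (h : GoodF fA fB) (c : ℕ) (g : Grp)
    (hg : okG g = true) (F : ℕ → Bool) (hF : ∀ i < 17, F i = c.testBit i) :
    valG fA fB c g < 2 ^ (40 * 2 ^ 18) ∧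
    (∀ i, L (valG fA fB c g) i ≤ (g.ex.length + 1) * 2 ^ 33) ∧
    ((∀ r ∈ g.r :: g.ex, bt F r.p ≠ 0) →
      (L (valG fA fB c g) (idx 18 fun k => F (k + 17)) : ℤ) =
      2 ^ 32 * ((g.r :: g.ex).length : ℤ) + ((g.r :: g.ex).map (gr fA fB F)).sum) := by
  simp only [okG, Bool.and_eq_true, decide_eq_true_eq] at hg
  obtain ⟨hgr, hgl, hge⟩ := hg
  rw [List.all_eq_true] at hge
  obtain ⟨ht1, ht2, ht3⟩ := valT_spec fA fB h c g.r hgr F hF
  have hB := fun r hr => valB_spec fA fB h c (g.r.kx + g.r.ky + g.r.t) g.r.pr r (hge r hr) F hF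
  have hsum1 : (g.ex.map fun _ => 1).sum = g.ex.length := by
    rw [List.map_const', List.sum_replicate, smul_eq_mul, mul_one]
  obtain ⟨hs1, hs2⟩ := sumR_spec (valB fA fB c) (fun _ => 1) (2 ^ (g.r.kx + g.r.ky + g.r.t)) g.ex
    (by rw [hsum1]; omega)
    (fun r hr i => by rw [one_mul]; exact (hB r hr).2.1 i)
    (fun r hr => (hB r hr).1)
  rw [hsum1] at hs2
  have hadd : ∀ i, L (valT fA fB c g.r) i + L (sumR (valB fA fB c) g.ex) i < 2 ^ 40 := by
    intro i
    have h1 := ht2 i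
    have h2 := (hs2 i).2
    have h3 : g.ex.length * 2 ^ 33 ≤ 6 * 2 ^ 33 := Nat.mul_le_mul_right _ hgl
    norm_num at h1 h2 h3 ⊢
    omega
  have hlt : valT fA fB c g.r + sumR (valB fA fB c) g.ex <
      2 ^ (40 * 2 ^ (g.r.kx + g.r.ky + g.r.t)) := by
    apply lt_of_L_eq_zero
    intro i hi
    rw [L_add _ _ hadd, L_eq_zero_of_lt _ _ _ ht1 hi, L_eq_zero_of_lt _ _ _ hs1 hi]
  have hok : okp (g.r.kx + g.r.ky + g.r.t) g.r.pr = true ∧
      nd (g.r.kx + g.r.ky + g.r.t) g.r.pr = 18 := by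
    simp only [okA, Bool.and_eq_true, decide_eq_true_eq] at hgr
    exact ⟨hgr.1, hgr.2.1⟩
  obtain ⟨h10, h11⟩ := run_spec g.r.pr (g.r.kx + g.r.ky + g.r.t) _ hok.1 hlt
  rw [hok.2] at h10 h11
  have hbound : ∀ i, L (valT fA fB c g.r + sumR (valB fA fB c) g.ex) i ≤
      (g.ex.length + 1) * 2 ^ 33 := by
    intro i
    rw [L_add _ _ hadd, add_mul, one_mul, add_comm (g.ex.length * 2 ^ 33)]
    exact Nat.add_le_add (ht2 i) (hs2 i).2
  refine ⟨h10, ?_, ?_⟩
  · intro i
    by_cases hi : i < 2 ^ 18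
    · have h12 := h11 i.testBit
      rw [idx_testBit 18 i hi] at h12
      rw [valG, h12]
      exact hbound _
    · rw [valG, L_eq_zero_of_lt _ _ _ h10 (not_lt.mp hi)]
      exact Nat.zero_le _
  · intro hv
    rw [valG, h11, L_add _ _ hadd, (hs2 _).1]
    push_cast
    rw [ht3 (hv g.r List.mem_cons_self), List.map_map]
    have e1 : (g.ex.map (Nat.cast ∘ fun r => L (valB fA fB c r)
        (idx (g.r.kx + g.r.ky + g.r.t)
          ((fun k => F (k + 17)) ∘ pm (g.r.kx + g.r.ky + g.r.t) g.r.pr)))) =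
        g.ex.map fun r => (2 : ℤ) ^ 32 + gr fA fB F r := by
      apply List.map_congr_left
      intro r hr
      exact (hB r hr).2.2 (hv r (List.mem_cons_of_mem _ hr))
    rw [e1, sum_const_add, List.map_cons, List.sum_cons, gr, List.length_cons]
    push_cast
    ring

/-- The number of ones among the first `n` bits. -/
def pop (c : ℕ) : ℕ → ℕ
  | 0 => 0
  | n + 1 => pop c n + (c / 2 ^ n) % 2

theorem pop_eq (c n : ℕ) : pop c n = ∑ r ∈ range n, (c.testBit r).toNat := by
  induction n with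
  | zero => rfl
  | succ n ih => rw [pop, ih, Finset.sum_range_succ, Nat.toNat_testBit]

/-- The check for the first 17 bits `c`. -/
def chk (fA fB : List (List ℕ)) (gs : List Grp) (a Lo c : ℕ) : Bool :=
  cmp 18 (pcn a (a * pop c 17 + 21 * 2 ^ 32 - Lo) 18) (sumR (valG fA fB c) gs)

/-- All rows. -/
def allR (gs : List Grp) : List Row := gs.flatMap fun g => g.r :: g.ex

theorem chk_spec (fA fB : List (List ℕ)) (h : GoodF fA fB) (gs : List Grp)
    (hlen : (allR gs).length = 21) (hok : ∀ g ∈ gs, okG g = true)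
    (a Lo c : ℕ) (ha : a < 2 ^ 30) (hL : Lo ≤ 21 * 2 ^ 32)
    (hc : chk fA fB gs a Lo c = true) (F : ℕ → Bool) (hF : ∀ i < 17, F i = c.testBit i)
    (hv : ∀ r ∈ allR gs, bt F r.p ≠ 0) :
    (Lo : ℤ) + ((allR gs).map (gr fA fB F)).sum ≤
      (a : ℤ) * ((∑ i ∈ range 35, (F i).toNat : ℕ) : ℤ) := by
  set K1 := a * pop c 17 + 21 * 2 ^ 32 - Lo with hK1
  have hpop : pop c 17 ≤ 17 := by
    rw [pop_eq]
    calc ∑ r ∈ range 17, (c.testBit r).toNat ≤ ∑ _r ∈ range 17, 1 :=
          Finset.sum_le_sum fun r _ => Bool.toNat_le _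
      _ = 17 := by simp
  have hapop : a * pop c 17 ≤ 2 ^ 30 * 17 := Nat.mul_le_mul ha.le hpop
  have hKa : K1 + a * 18 < 2 ^ 39 := by
    norm_num at ha hL hapop hK1 ⊢
    omega
  obtain ⟨hp1, hp2⟩ := pcn_spec a K1 18 (by norm_num at hKa ⊢; omega)
  have hThl : ∀ i, L (pcn a K1 18) i < 2 ^ 39 := by
    intro i
    by_cases hi : i < 2 ^ 18
    · have h1 := hp2 i.testBit
      rw [idx_testBit 18 i hi] at h1
      rw [h1]
      have h2 : ∑ r ∈ range 18, (i.testBit r).toNat ≤ ∑ _r ∈ range 18, 1 :=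
        Finset.sum_le_sum fun r _ => Bool.toNat_le _
      rw [Finset.sum_const, card_range, smul_eq_mul, mul_one] at h2
      have h3 := Nat.mul_le_mul_left a h2
      omega
    · rw [L_eq_zero_of_lt _ _ _ hp1 (not_lt.mp hi)]
      norm_num
  have hG := fun g hg => valG_spec fA fB h c g (hok g hg) F hF
  have hlsum : (gs.map fun g : Grp => g.ex.length + 1).sum = 21 := by
    rw [← hlen, allR, List.length_flatMap]
    congr 1
  obtain ⟨hs1, hs2⟩ := sumR_spec (valG fA fB c) (fun g => g.ex.length + 1) (2 ^ 18) gs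
    (by rw [hlsum]; norm_num) (fun g hg => (hG g hg).2.1) (fun g hg => (hG g hg).1)
  rw [hlsum] at hs2
  have hmain := cmp_spec 18 _ _ hc hs1 hThl
    (fun i => lt_of_le_of_lt (hs2 i).2 (by norm_num)) (idx 18 fun k => F (k + 17))
  rw [(hs2 _).1, hp2] at hmain
  have hm2 : (((gs.map fun g => L (valG fA fB c g) (idx 18 fun k => F (k + 17))).sum : ℕ) : ℤ) ≤
      ((K1 + a * ∑ r ∈ range 18, (F (r + 17)).toNat : ℕ) : ℤ) := by exact_mod_cast hmain
  have e1 : ∀ ms : List Grp, (∀ g ∈ ms, g ∈ gs) →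
      (((ms.map fun g => L (valG fA fB c g) (idx 18 fun k => F (k + 17))).sum : ℕ) : ℤ) =
      2 ^ 32 * ((allR ms).length : ℤ) + ((allR ms).map (gr fA fB F)).sum := by
    intro ms
    induction ms with
    | nil => intro _; simp [allR]
    | cons g ms ih =>
      intro hms
      have h1 := ih fun g hg => hms g (List.mem_cons_of_mem _ hg)
      have hgm := hms g List.mem_cons_self
      have h2 := (hG g hgm).2.2 (fun r hr => hv r (by
        rw [allR, List.mem_flatMap]
        exact ⟨g, hgm, hr⟩))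
      have e2 : allR (g :: ms) = (g.r :: g.ex) ++ allR ms := rfl
      rw [List.map_cons, List.sum_cons, Nat.cast_add, h1, h2, e2, List.map_append,
        List.sum_append, List.length_append]
      push_cast
      ring
  have hK2 : (K1 : ℤ) = (a : ℤ) * (pop c 17 : ℤ) + 21 * 2 ^ 32 - (Lo : ℤ) := by
    rw [hK1, Nat.cast_sub (by omega)]
    push_cast
    ring
  have hsplit : (∑ i ∈ range 35, (F i).toNat) = pop c 17 + ∑ r ∈ range 18, (F (r + 17)).toNat := by
    have h35 : (35 : ℕ) = 17 + 18 := by norm_num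
    have e3 : ∑ i ∈ range 17, (F i).toNat = ∑ i ∈ range 17, (c.testBit i).toNat :=
      Finset.sum_congr rfl fun i hi => by rw [hF i (Finset.mem_range.mp hi)]
    have e4 : ∑ i ∈ range 18, (F (17 + i)).toNat = ∑ i ∈ range 18, (F (i + 17)).toNat :=
      Finset.sum_congr rfl fun i _ => by rw [add_comm]
    rw [h35, Finset.sum_range_add, pop_eq, e3, e4]
  rw [e1 gs (fun _ h => h), hlen] at hm2
  rw [hsplit]
  push_cast at hm2 ⊢
  rw [hK2] at hm2
  linarith

end Pool.Agent.Lib.MP_afdd4d_co
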