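import Pool.Agent.Lib.MP_afdd4d_co.Avg

/-!
# Averaging with lists of permutations; counting ordered edges
-/

namespace Pool.Agent.Lib.MP_afdd4d_co

open Finset

section lists
variable {V : Type*} [Fintype V] [DecidableEq V] {m : ℕ}

theorem sum_inj_list (F : (Fin m → V) → ℝ) (l : List (Equiv.Perm (Fin m))) :
    ∑ t ∈ inj V m, (l.map fun ρ : Equiv.Perm (Fin m) => F (t ∘ ρ)).sum = (l.length : ℝ) * ∑ t ∈ inj V m, F t := by
  induction l with
  | nil => simp
  | cons ρ l ih =>
    simp only [List.map_cons, List.sum_cons, List.length_cons]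
    rw [Finset.sum_add_distrib, ih, sum_inj_perm]
    push_cast
    ring

theorem inj_ge (K : (Fin m → V) → ℝ) (C : ℝ) (hK : 0 ≤ ∑ t, K t) (hC : ∀ t, K t ≤ C) :
    -(C * ((Fintype.card V : ℝ) ^ m - ((Fintype.card V).descFactorial m : ℝ))) ≤
      ∑ t ∈ inj V m, K t := by
  classical
  have hcard : (((univ : Finset (Fin m → V)) \ inj V m).card : ℝ) =
      (Fintype.card V : ℝ) ^ m - ((Fintype.card V).descFactorial m : ℝ) := by
    rw [Finset.card_sdiff_of_subset (Finset.subset_univ _), card_inj, Finset.card_univ,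
      Fintype.card_fun, Fintype.card_fin, Nat.cast_sub, Nat.cast_pow]
    exact Nat.descFactorial_le_pow _ _
  have hs := Finset.sum_sdiff (Finset.subset_univ (inj V m)) (f := K)
  have hb : ∑ t ∈ (univ : Finset (Fin m → V)) \ inj V m, K t ≤
      C * ((Fintype.card V : ℝ) ^ m - ((Fintype.card V).descFactorial m : ℝ)) := by
    calc ∑ t ∈ (univ : Finset (Fin m → V)) \ inj V m, K t
        ≤ ∑ t ∈ (univ : Finset (Fin m → V)) \ inj V m, C :=
          Finset.sum_le_sum fun t _ => hC t
      _ = C * ((Fintype.card V : ℝ) ^ m - ((Fintype.card V).descFactorial m : ℝ)) := by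
          rw [Finset.sum_const, nsmul_eq_mul, hcard, mul_comm]
  linarith

/-- Averaging with a list of families `(K, perms)`: `K` has nonnegative total sum and is bounded
above by `C`. -/
theorem avg_list (Fam : List (((Fin m → V) → ℝ) × List (Equiv.Perm (Fin m))))
    (D : (Fin m → V) → ℝ) (lD : List (Equiv.Perm (Fin m))) (a L C : ℝ)
    (hK : ∀ q ∈ Fam, 0 ≤ ∑ t, q.1 t) (hC : ∀ q ∈ Fam, ∀ t, q.1 t ≤ C)
    (hloc : ∀ t, Function.Injective t →
      L + (Fam.map fun q => (q.2.map fun ρ : Equiv.Perm (Fin m) => q.1 (t ∘ ρ)).sum).sum ≤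
        a * (lD.map fun σ : Equiv.Perm (Fin m) => D (t ∘ σ)).sum) :
    L * ((Fintype.card V).descFactorial m : ℝ) -
      ((Fam.map fun q => (q.2.length : ℝ)).sum * C) *
        ((Fintype.card V : ℝ) ^ m - ((Fintype.card V).descFactorial m : ℝ))
      ≤ (a * (lD.length : ℝ)) * ∑ t ∈ inj V m, D t := by
  have h1 : ∑ t ∈ inj V m, (L + (Fam.map fun q => (q.2.map fun ρ : Equiv.Perm (Fin m) => q.1 (t ∘ ρ)).sum).sum) ≤
      ∑ t ∈ inj V m, a * (lD.map fun σ : Equiv.Perm (Fin m) => D (t ∘ σ)).sum :=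
    Finset.sum_le_sum fun t ht => hloc t (mem_inj.mp ht)
  rw [← Finset.mul_sum, sum_inj_list, Finset.sum_add_distrib, Finset.sum_const, nsmul_eq_mul,
    card_inj] at h1
  have h2 : ∀ Fam' : List (((Fin m → V) → ℝ) × List (Equiv.Perm (Fin m))),
      (∀ q ∈ Fam', 0 ≤ ∑ t, q.1 t) → (∀ q ∈ Fam', ∀ t, q.1 t ≤ C) →
      -((Fam'.map fun q => (q.2.length : ℝ)).sum * C) *
        ((Fintype.card V : ℝ) ^ m - ((Fintype.card V).descFactorial m : ℝ)) ≤
      ∑ t ∈ inj V m, (Fam'.map fun q => (q.2.map fun ρ : Equiv.Perm (Fin m) => q.1 (t ∘ ρ)).sum).sum := by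
    intro Fam'
    induction Fam' with
    | nil => intro _ _; simp
    | cons q Fam' ih =>
      intro hK' hC'
      have ih' := ih (fun r hr => hK' r (List.mem_cons_of_mem _ hr))
        (fun r hr => hC' r (List.mem_cons_of_mem _ hr))
      simp only [List.map_cons, List.sum_cons]
      rw [Finset.sum_add_distrib, sum_inj_list]
      have h3 := inj_ge q.1 C (hK' q List.mem_cons_self) (hC' q List.mem_cons_self)
      have h4 := mul_le_mul_of_nonneg_left h3 (Nat.cast_nonneg (α := ℝ) q.2.length)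
      nlinarith [h4, ih']
  have h5 := h2 Fam hK hC
  nlinarith [h1, h5]

end lists

section count
variable {V : Type*} [Fintype V] [DecidableEq V]

/-- Forgetting coordinates. -/
theorem sum_inj_le_pow (r k : ℕ) (D : (Fin r → V) → ℝ) (hD : ∀ a, 0 ≤ D a) :
    ∑ t ∈ inj V (r + k), D (fun i => t (Fin.castAdd k i)) ≤
      (Fintype.card V : ℝ) ^ k * ∑ a ∈ inj V r, D a := by
  classical
  have h1 : ∑ t ∈ inj V (r + k), D (fun i => t (Fin.castAdd k i)) ≤
      ∑ t : Fin (r + k) → V, if Function.Injective (fun i => t (Fin.castAdd k i)) then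
        D (fun i => t (Fin.castAdd k i)) else 0 := by
    rw [← Finset.sum_filter]
    refine Finset.sum_le_sum_of_subset_of_nonneg ?_ fun t _ _ => hD _
    intro t ht
    rw [Finset.mem_filter]
    exact ⟨Finset.mem_univ _, (mem_inj.mp ht).comp (Fin.castAdd_injective r k)⟩
  refine le_trans h1 (le_of_eq ?_)
  rw [← (Fin.appendEquiv r k).sum_comp, Fintype.sum_prod_type]
  simp only [Fin.appendEquiv_apply, Fin.append_left, Finset.sum_const, Finset.card_univ,
    Fintype.card_fun, Fintype.card_fin, nsmul_eq_mul]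
  rw [← Finset.mul_sum, ← Finset.sum_filter]
  push_cast
  rfl

theorem card_orders_le (s : Finset V) (r : ℕ) (hs : s.card = r) :
    (univ.filter fun a : Fin r → V => Function.Injective a ∧ ∀ i, a i ∈ s).card ≤
      r.factorial := by
  classical
  have h1 : (univ.filter fun a : Fin r → V => Function.Injective a ∧ ∀ i, a i ∈ s) ⊆
      (inj s r).image fun b i => (b i : V) := by
    intro a ha
    rw [Finset.mem_filter] at ha
    rw [Finset.mem_image]
    refine ⟨fun i => ⟨a i, ha.2.2 i⟩, mem_inj.mpr ?_, rfl⟩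
    intro i j hij
    exact ha.2.1 (congrArg Subtype.val hij)
  calc _ ≤ ((inj s r).image fun b i => (b i : V)).card := Finset.card_le_card h1
    _ ≤ (inj s r).card := Finset.card_image_le
    _ = r.factorial := by rw [card_inj, Fintype.card_coe, hs, Nat.descFactorial_self]

/-- Each edge is counted by at most `r!` ordered tuples. -/
theorem sum_inj_le_edges (r : ℕ) (G : Finset (Finset V)) (hG : ∀ s ∈ G, s.card = r)
    (D : (Fin r → V) → ℝ) (hD1 : ∀ a, D a ≤ 1)
    (hD : ∀ a, Function.Injective a → univ.image a ∉ G → D a ≤ 0) :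
    ∑ a ∈ inj V r, D a ≤ (r.factorial : ℝ) * (G.card : ℝ) := by
  classical
  have h1 : ∑ a ∈ inj V r, D a ≤ ∑ a ∈ inj V r, if univ.image a ∈ G then (1 : ℝ) else 0 := by
    refine Finset.sum_le_sum fun a ha => ?_
    split_ifs with h
    · exact hD1 a
    · exact hD a (mem_inj.mp ha) h
  refine le_trans h1 ?_
  rw [← Finset.sum_filter, Finset.sum_const, nsmul_eq_mul, mul_one]
  have h2 : ((inj V r).filter fun a => univ.image a ∈ G) ⊆
      G.biUnion fun s => univ.filter fun a : Fin r → V => Function.Injective a ∧ ∀ i, a i ∈ s := by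
    intro a ha
    rw [Finset.mem_filter] at ha
    rw [Finset.mem_biUnion]
    refine ⟨_, ha.2, ?_⟩
    rw [Finset.mem_filter]
    exact ⟨Finset.mem_univ _, mem_inj.mp ha.1,
      fun i => Finset.mem_image_of_mem _ (Finset.mem_univ _)⟩
  have h3 : ((inj V r).filter fun a => univ.image a ∈ G).card ≤ G.card * r.factorial := by
    calc _ ≤ _ := Finset.card_le_card h2
      _ ≤ ∑ s ∈ G, (univ.filter fun a : Fin r → V =>
            Function.Injective a ∧ ∀ i, a i ∈ s).card := Finset.card_biUnion_le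
      _ ≤ ∑ _s ∈ G, r.factorial := Finset.sum_le_sum fun s hs => card_orders_le s r (hG s hs)
      _ = G.card * r.factorial := by rw [Finset.sum_const, smul_eq_mul]
  have h4 : ((((inj V r).filter fun a => univ.image a ∈ G).card : ℕ) : ℝ) ≤
      ((G.card * r.factorial : ℕ) : ℝ) := by exact_mod_cast h3
  push_cast at h4
  linarith

end count

end Pool.Agent.Lib.MP_afdd4d_co
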