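import Pool.Agent.Lib.MP_afdd4d_co.Data

/-!
# Data: adjacent exchanges of labels, base graphs, permutations used in the reduction
-/

namespace Pool.Agent.Lib.MP_afdd4d_co

/-- For the exchange of the labels `s` and `s + 1`: its action on labels, its action on pairs of labels,
and a program. -/
def invD : List (List ℕ × List ℕ × List (ℕ × ℕ)) := [
  ([1, 0, 2, 3, 4], [7, 8, 2, 9, 4, 5, 6, 0, 1, 3], [(0, 7), (1, 8), (3, 9)]),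
  ([0, 2, 1, 3, 4], [0, 2, 1, 4, 3, 5, 7, 6, 8, 9], [(1, 2), (3, 4), (6, 7)]),
  ([0, 1, 3, 2, 4], [1, 0, 2, 3, 5, 4, 6, 8, 7, 9], [(0, 1), (4, 5), (7, 8)]),
  ([0, 1, 2, 4, 3], [0, 3, 4, 1, 2, 5, 6, 7, 9, 8], [(1, 3), (2, 4), (8, 9)])]

/-- Permutations of the vertices `0, …, 6` that fix `0`, with their action on the pairs of
`1, …, 6` in colex order. -/
def redD : List (List ℕ × List ℕ) := [
  ([0, 2, 1, 3, 4, 5, 6], [0, 2, 1, 4, 3, 5, 7, 6, 8, 9, 11, 10, 12, 13, 14]),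
  ([0, 1, 3, 2, 4, 5, 6], [1, 0, 2, 3, 5, 4, 6, 8, 7, 9, 10, 12, 11, 13, 14]),
  ([0, 1, 2, 4, 3, 5, 6], [0, 3, 4, 1, 2, 5, 6, 7, 9, 8, 10, 11, 13, 12, 14]),
  ([0, 1, 2, 3, 5, 4, 6], [0, 1, 2, 6, 7, 8, 3, 4, 5, 9, 10, 11, 12, 14, 13]),
  ([0, 1, 2, 3, 4, 6, 5], [0, 1, 2, 3, 4, 5, 10, 11, 12, 13, 6, 7, 8, 9, 14]),
  ([0, 3, 4, 1, 2, 6, 5], [5, 1, 3, 2, 4, 0, 12, 13, 10, 11, 8, 9, 6, 7, 14]),
  ([0, 3, 1, 5, 2, 6, 4], [1, 8, 6, 2, 0, 7, 12, 10, 14, 11, 5, 3, 9, 4, 13]),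
  ([0, 2, 1, 5, 6, 3, 4], [0, 7, 6, 11, 10, 14, 2, 1, 8, 12, 4, 3, 9, 13, 5]),
  ([0, 1, 3, 2, 4, 6, 5], [1, 0, 2, 3, 5, 4, 10, 12, 11, 13, 6, 8, 7, 9, 14]),
  ([0, 2, 1, 3, 4, 6, 5], [0, 2, 1, 4, 3, 5, 11, 10, 12, 13, 7, 6, 8, 9, 14]),
  ([0, 1, 2, 4, 3, 6, 5], [0, 3, 4, 1, 2, 5, 10, 11, 13, 12, 6, 7, 9, 8, 14]),
  ([0, 1, 4, 5, 2, 3, 6], [3, 6, 9, 0, 4, 7, 1, 5, 8, 2, 10, 13, 14, 11, 12]),
  ([0, 2, 1, 3, 5, 4, 6], [0, 2, 1, 7, 6, 8, 4, 3, 5, 9, 11, 10, 12, 14, 13]),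
  ([0, 1, 3, 2, 5, 4, 6], [1, 0, 2, 6, 8, 7, 3, 5, 4, 9, 10, 12, 11, 14, 13]),
  ([0, 4, 6, 5, 1, 3, 2], [13, 9, 14, 3, 10, 6, 5, 12, 8, 1, 4, 11, 7, 0, 2])]

/-- The base graphs. -/
def classes : List ℕ := [
  1099, 1100, 1101, 1103, 1108, 1109, 1110, 1111, 1118, 1119, 1140, 1141,
  1143, 1151, 1182, 1183, 1184, 1185, 1187, 1191, 1194, 1195, 1196, 1197,
  1198, 1199, 1214, 1215, 1246, 1247, 1259, 1260, 1261, 1263, 1268, 1269,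
  1270, 1271, 1278, 1279, 1456, 1457, 1459, 1460, 1461, 1463, 1465, 1467,
  1468, 1469, 1471, 1531, 1532, 1533, 1535, 1972, 1973, 1975, 1983, 2047,
  3294, 3295, 3306, 3307, 3308, 3309, 3310, 3311, 3326, 3327, 3440, 3441,
  3443, 3447, 3448, 3449, 3451, 3452, 3453, 3455, 3576, 3577, 3578, 3579,
  3582, 3583, 3873, 3875, 3879, 3885, 3887, 3903, 3947, 3948, 3949, 3950,
  3951, 3958, 3959, 3966, 3967, 4094, 4095, 7672, 7673, 7675, 7679, 7902,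
  7903, 7915, 7916, 7917, 7919, 7934, 7935, 8185, 8187, 8191, 16350, 16351,
  16383, 32767]

/-- The vertices of the rows: five labels, then the two others. -/
def geo : List (List ℕ) := [
  [0, 6, 5, 3, 4, 1, 2],
  [2, 6, 5, 4, 3, 0, 1],
  [1, 6, 5, 3, 4, 0, 2],
  [0, 5, 6, 4, 2, 1, 3],
  [1, 5, 6, 4, 2, 0, 3],
  [0, 5, 6, 3, 2, 1, 4],
  [1, 5, 6, 3, 2, 0, 4],
  [0, 6, 4, 3, 2, 1, 5],
  [1, 6, 4, 3, 2, 0, 5],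
  [0, 5, 4, 3, 2, 1, 6],
  [1, 5, 4, 3, 2, 0, 6],
  [0, 6, 5, 4, 1, 2, 3],
  [0, 6, 5, 3, 1, 2, 4],
  [0, 6, 3, 4, 1, 2, 5],
  [0, 5, 3, 4, 1, 2, 6],
  [0, 5, 6, 1, 2, 4, 3],
  [0, 6, 4, 2, 1, 3, 5],
  [0, 5, 4, 2, 1, 3, 6],
  [0, 6, 3, 2, 1, 4, 5],
  [0, 5, 3, 2, 1, 4, 6],
  [0, 4, 3, 2, 1, 6, 5]]

/-- The complements of the quadruples. -/
def tripD : List (List ℕ) := [
  [0, 1, 2], [0, 1, 3], [0, 2, 3], [0, 1, 4], [0, 2, 4],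
  [0, 3, 4], [0, 1, 5], [0, 2, 5], [0, 3, 5], [0, 4, 5],
  [0, 1, 6], [0, 2, 6], [0, 3, 6], [0, 4, 6], [0, 5, 6],
  [1, 2, 3], [1, 2, 4], [4, 5, 6], [2, 5, 6], [2, 3, 5],
  [1, 5, 6], [1, 3, 5], [1, 2, 5], [3, 4, 6], [2, 4, 6],
  [2, 3, 4], [1, 4, 6], [1, 3, 4], [1, 4, 5], [3, 4, 5],
  [2, 4, 5], [3, 5, 6], [1, 2, 6], [2, 3, 6], [1, 3, 6]]

/-- The check of a base graph. -/
def okc (c : ℕ) : Bool := chkF famA famB groups 21295620 229767897 c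

theorem four (c : ℕ) (h0 : okc c = true) (h1 : okc (c + 32768) = true)
    (h2 : okc (c + 65536) = true) (h3 : okc (c + 98304) = true) :
    ∀ w < 4, okc (c + 32768 * w) = true := by
  intro w hw
  interval_cases w
  · exact h0
  · exact h1
  · exact h2
  · exact h3

end Pool.Agent.Lib.MP_afdd4d_co
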