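import Pool.Agent.Lib.MP_afdd4d_co.Data2

/-!
# The families are good and invariant
-/

namespace Pool.Agent.Lib.MP_afdd4d_co

open Finset

/-! ### Good families -/

def goodV (V : ℕ) : Bool := Nat.beq (Nat.land V (cstF 16383 10)) V

theorem goodV_spec (V : ℕ) (h : goodV V = true) : V < 2 ^ (40 * 1024) ∧ ∀ i, L V i < 2 ^ 14 := by
  have h1 : V &&& cst 16383 10 = V := by
    have h2 := Nat.eq_of_beq_eq_true h
    rw [cstF_eq] at h2
    exact h2
  have hc : (16383 : ℕ) < 2 ^ 40 := by norm_num
  have hl : ∀ i, L V i = L V i &&& L (cst 16383 10) i := by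
    intro i
    rw [← L_and, h1]
  constructor
  · apply lt_of_L_eq_zero
    intro i hi
    rw [hl, cst_lane _ _ hc, if_neg (by norm_num; exact hi), Nat.and_zero]
  · intro i
    rw [hl, cst_lane _ _ hc]
    split_ifs
    · calc L V i &&& 16383 ≤ 16383 := Nat.and_le_right
        _ < 2 ^ 14 := by norm_num
    · rw [Nat.and_zero]
      norm_num

def goodL (l : List ℕ) : Bool := Nat.ble (lenF l) 64 && l.all goodV

theorem goodL_spec (l : List ℕ) (h : goodL l = true) : Good l := by
  rw [goodL, Bool.and_eq_true, List.all_eq_true] at h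
  refine ⟨?_, fun V hV => goodV_spec V (h.2 V hV)⟩
  have := Nat.le_of_ble_eq_true h.1
  rwa [lenF_eq] at this

def nonempty (l : List ℕ) : Bool := !l.isEmpty

/-! ### Invariance -/

/-- A canonical representative of a vector and its negative. -/
def canon (V : ℕ) : ℕ :=
  bif Nat.ble V (Nat.sub (cstF 16384 10) V) then V else Nat.sub (cstF 16384 10) V

/-- The product of two coordinates. -/
def qf (c c' V : ℕ) : ℤ := ((L V c : ℤ) - 8192) * ((L V c' : ℤ) - 8192)

theorem gram_eq_qf (l : List ℕ) (c c' : ℕ) : gram l c c' = (l.map (qf c c')).sum := rfl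

theorem L_neg (V : ℕ) (hV : V < 2 ^ (40 * 1024) ∧ ∀ i, L V i < 2 ^ 14) (c : ℕ) (hc : c < 1024) :
    L (cst 16384 10 - V) c = 16384 - L V c := by
  have hk : (16384 : ℕ) < 2 ^ 40 := by norm_num
  have hle : ∀ i, L V i ≤ L (cst 16384 10) i := by
    intro i
    rw [cst_lane _ _ hk]
    split_ifs with h
    · have := hV.2 i
      norm_num at this
      omega
    · rw [L_eq_zero_of_lt _ _ _ hV.1 (by norm_num at h; omega)]
  rw [L_sub _ _ hle, cst_lane _ _ hk, if_pos (by norm_num; exact hc)]

theorem qf_canon (V : ℕ) (hV : V < 2 ^ (40 * 1024) ∧ ∀ i, L V i < 2 ^ 14) (c c' : ℕ)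
    (hc : c < 1024) (hc' : c' < 1024) : qf c c' (canon V) = qf c c' V := by
  unfold canon
  rw [cstF_eq]
  cases Nat.ble V (Nat.sub (cst 16384 10) V)
  · rw [cond_false]
    have e1 : Nat.sub (cst 16384 10) V = cst 16384 10 - V := rfl
    have h1 := hV.2 c
    have h2 := hV.2 c'
    norm_num at h1 h2
    rw [e1, qf, qf, L_neg V hV c hc, L_neg V hV c' hc', Nat.cast_sub (by omega),
      Nat.cast_sub (by omega)]
    push_cast
    ring
  · rfl

/-- The check of invariance for one pattern. -/
def invP (fA fB : List (List ℕ)) (sg : List ℕ) (pr : List (ℕ × ℕ)) (p : ℕ) : Bool :=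
  ((fam fA fB (bts p sg)).map canon).isPerm
    ((fam fA fB p).map fun V => canon (runF pr 10 V))

def okI (fA fB : List (List ℕ)) (d : List ℕ × List ℕ × List (ℕ × ℕ)) : Bool :=
  okp 10 d.2.2 && (decide (nd 10 d.2.2 = 10) && (decide (d.1.length = 5) &&
    (decide (d.2.1.length = 10) && (d.1.all (fun i => decide (i < 5)) &&
    (decide ((List.range 10).map (fun r => d.2.1.getD (pm 10 d.2.2 r) 0) = List.range 10) &&
    (List.range 32).all (fun p => invP fA fB d.1 d.2.2 p))))))

theorem gram_inv (fA fB : List (List ℕ)) (hgood : GoodF fA fB) (sg ss : List ℕ)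
    (pr : List (ℕ × ℕ)) (h : okI fA fB (sg, ss, pr) = true)
    (β γ γ' : ℕ → Bool) :
    gram (fam fA fB (bt β sg)) (bt γ ss) (bt γ' ss) =
      gram (fam fA fB (bt β (List.range 5))) (bt γ (List.range 10))
        (bt γ' (List.range 10)) := by
  simp only [okI, Bool.and_eq_true, decide_eq_true_eq, List.all_eq_true] at h
  obtain ⟨h1, h2, h3, h4, h5, h6, h8⟩ := h
  set p := bt β (List.range 5) with hp
  have hplt : p < 32 := by
    have := bt_lt β (List.range 5)
    rw [List.length_range] at this
    exact this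
  have hpb : ∀ i ∈ sg, p.testBit i = β i := by
    intro i hi
    rw [hp, ← idx_eq_bt, testBit_idx]
    have := h5 i hi
    simp [this]
  have hp' : bts p sg = bt β sg := by
    rw [bts_eq]
    exact bt_congr _ _ _ hpb
  have hperm := h8 p (List.mem_range.mpr hplt)
  rw [invP, List.isPerm_iff, hp'] at hperm
  have hG' := good_fam fA fB hgood (bt β sg)
  have hG := good_fam fA fB hgood p
  have hc : ∀ δ : ℕ → Bool, bt δ ss < 1024 := by
    intro δ
    have := bt_lt δ ss
    rw [h4] at this
    exact this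
  have hrun : ∀ V ∈ fam fA fB p, ∀ δ : ℕ → Bool,
      L (run 10 pr V) (bt δ ss) = L V (bt δ (List.range 10)) := by
    intro V hV δ
    obtain ⟨_, h11⟩ := run_spec pr 10 V h1 (hG.2 V hV).1
    rw [h2] at h11
    have hss : (List.range 10).map (fun r => ss.getD r 0) = ss := by
      apply List.ext_getElem
      · rw [h4, List.length_map, List.length_range]
      · intro i hi1 hi2
        rw [List.getElem_map, List.getElem_range, List.getD_eq_getElem _ _ hi2]
    have e1 : bt δ ss = idx 10 (δ ∘ fun r => ss.getD r 0) := by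
      rw [idx_eq_bt, ← bt_map, hss]
    have e2 : idx 10 ((δ ∘ fun r => ss.getD r 0) ∘ pm 10 pr) = bt δ (List.range 10) := by
      rw [idx_eq_bt, Function.comp_assoc, ← bt_map]
      have e3 : (List.range 10).map ((fun r => ss.getD r 0) ∘ pm 10 pr) = List.range 10 := h6
      rw [e3]
    rw [e1, h11, e2]
  have hrunG : ∀ V ∈ fam fA fB p, run 10 pr V < 2 ^ (40 * 1024) ∧
      ∀ i, L (run 10 pr V) i < 2 ^ 14 := by
    intro V hV
    obtain ⟨h10, h11⟩ := run_spec pr 10 V h1 (hG.2 V hV).1
    rw [h2] at h10 h11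
    refine ⟨h10, fun i => ?_⟩
    by_cases hi : i < 2 ^ 10
    · have h12 := h11 i.testBit
      rw [idx_testBit 10 i hi] at h12
      rw [h12]
      exact (hG.2 V hV).2 _
    · rw [L_eq_zero_of_lt _ _ _ h10 (not_lt.mp hi)]
      norm_num
  rw [gram_eq_qf, gram_eq_qf]
  have e1 : (fam fA fB (bt β sg)).map (qf (bt γ ss) (bt γ' ss)) =
      ((fam fA fB (bt β sg)).map canon).map (qf (bt γ ss) (bt γ' ss)) := by
    rw [List.map_map]
    apply List.map_congr_left
    intro V hV
    rw [Function.comp_apply, qf_canon V (hG'.2 V hV) _ _ (hc γ) (hc γ')]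
  rw [e1, (hperm.map _).sum_eq, List.map_map]
  congr 1
  apply List.map_congr_left
  intro V hV
  rw [Function.comp_apply, runF_eq, qf_canon _ (hrunG V hV) _ _ (hc γ) (hc γ'), qf, qf,
    hrun V hV, hrun V hV]

/-! ### The concrete families -/

theorem goodF : GoodF famA famB := by
  refine ⟨rfl, rfl, ?_, ?_, ?_⟩
  · have h : famA.all goodL = true := by decide +kernel
    rw [List.all_eq_true] at h
    exact fun l hl => goodL_spec l (h l hl)
  · have h : famB.all goodL = true := by decide +kernel
    rw [List.all_eq_true] at h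
    exact fun l hl => goodL_spec l (h l hl)
  · have h : ∀ p < 32, p ≠ 0 → (fam famA famB p).isEmpty = false := by decide +kernel
    intro p hp hp0 h0
    have h1 := h p hp hp0
    rw [h0] at h1
    exact Bool.noConfusion h1

theorem invD_ok : invD.all (okI famA famB) = true := by decide +kernel

end Pool.Agent.Lib.MP_afdd4d_co
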