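import Pool.Agent.Lib.MP_afdd4d_co.Check

/-!
# A version of the check that the kernel evaluates quickly

The functions below are the functions of the preceding files, written with recursors and with the
operations of `Nat` that the kernel evaluates by machine arithmetic.
-/

namespace Pool.Agent.Lib.MP_afdd4d_co

/-- Evaluate a number before it is used. -/
def force {α : Type} (n : ℕ) (k : ℕ → α) : α :=
  @Nat.rec (fun _ => α) (k 0) (fun m _ => k (Nat.succ m)) n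

theorem force_eq {α : Type} (n : ℕ) (k : ℕ → α) : force n k = k n := by cases n <;> rfl

def mskF (p q n : ℕ) : ℕ := @Nat.rec (fun _ => ℕ) 1099511627775
  (fun k ih => @Bool.rec (fun _ => ℕ)
      (@Bool.rec (fun _ => ℕ) (Nat.add ih (Nat.shiftLeft ih (Nat.mul 40 (Nat.pow 2 k)))) ih
        (Nat.beq k q))
      (Nat.shiftLeft ih (Nat.mul 40 (Nat.pow 2 k))) (Nat.beq k p)) n

theorem mskF_eq (p q n : ℕ) : mskF p q n = msk p q n := by
  induction n with
  | zero => rfl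
  | succ k ih =>
    rw [msk, ← ih]
    have e1 : mskF p q (k + 1) = @Bool.rec (fun _ => ℕ)
      (@Bool.rec (fun _ => ℕ) (Nat.add (mskF p q k)
        (Nat.shiftLeft (mskF p q k) (Nat.mul 40 (Nat.pow 2 k)))) (mskF p q k) (Nat.beq k q))
      (Nat.shiftLeft (mskF p q k) (Nat.mul 40 (Nat.pow 2 k))) (Nat.beq k p) := rfl
    rw [e1]
    cases Nat.beq k p <;> cases Nat.beq k q <;> rfl

def mskzF (u n : ℕ) : ℕ := @Nat.rec (fun _ => ℕ) 1099511627775
  (fun k ih => @Bool.rec (fun _ => ℕ)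
      (Nat.add ih (Nat.shiftLeft ih (Nat.mul 40 (Nat.pow 2 k)))) ih (Nat.beq k u)) n

theorem mskzF_eq (u n : ℕ) : mskzF u n = mskz u n := by
  induction n with
  | zero => rfl
  | succ k ih =>
    rw [mskz, ← ih]
    have e1 : mskzF u (k + 1) = @Bool.rec (fun _ => ℕ) (Nat.add (mskzF u k)
        (Nat.shiftLeft (mskzF u k) (Nat.mul 40 (Nat.pow 2 k)))) (mskzF u k) (Nat.beq k u) := rfl
    rw [e1]
    cases Nat.beq k u <;> rfl

def swpG (A t d : ℕ) : ℕ := Nat.xor (Nat.xor A t) (Nat.shiftLeft t d)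

def swpH (A M d : ℕ) : ℕ := swpG A (Nat.land (Nat.xor A (Nat.shiftRight A d)) M) d

def swpF (n p q A : ℕ) : ℕ :=
  swpH A (mskF p q n) (Nat.mul 40 (Nat.sub (Nat.pow 2 q) (Nat.pow 2 p)))

theorem swpF_eq (n p q A : ℕ) : swpF n p q A = swp n p q A := by
  rw [swpF, mskF_eq]
  rfl

def dupF (n A : ℕ) : ℕ := Nat.add A (Nat.shiftLeft A (Nat.mul 40 (Nat.pow 2 n)))

theorem dupF_eq (n A : ℕ) : dupF n A = dup n A := rfl

def ins3F (Z d : ℕ) : ℕ := Nat.add Z (Nat.shiftLeft Z d)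

def ins2F (A A0 d : ℕ) : ℕ := Nat.add A0 (Nat.shiftLeft (Nat.xor A A0) d)

def insF (n u A : ℕ) : ℕ := @Bool.rec (fun _ => ℕ)
  (ins3F (ins2F A (Nat.land A (mskzF u n)) (Nat.mul 40 (Nat.sub (Nat.pow 2 n) (Nat.pow 2 u))))
    (Nat.mul 40 (Nat.pow 2 u))) (dupF n A) (Nat.beq u n)

theorem insF_eq (n u A : ℕ) : insF n u A = ins n u A := by
  rw [insF, mskzF_eq, ins]
  cases Nat.beq u n <;> rfl

def runF (l : List (ℕ × ℕ)) : ℕ → ℕ → ℕ :=
  @List.rec (ℕ × ℕ) (fun _ => ℕ → ℕ → ℕ) (fun _ A => A)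
    (fun I _ ih n A => @Prod.rec ℕ ℕ (fun _ => ℕ)
      (fun p q => @Bool.rec (fun _ => ℕ) (ih n (swpF n p q A)) (ih (Nat.succ n) (insF n p A))
        (Nat.beq q 0)) I) l

theorem runF_eq (l : List (ℕ × ℕ)) : ∀ n A : ℕ, runF l n A = run n l A := by
  induction l with
  | nil => intro n A; rfl
  | cons I l ih =>
    intro n A
    obtain ⟨p, q⟩ := I
    have e1 : runF ((p, q) :: l) n A = @Bool.rec (fun _ => ℕ) (runF l n (swpF n p q A))
        (runF l (Nat.succ n) (insF n p A)) (Nat.beq q 0) := rfl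
    rw [e1, ih, ih, swpF_eq, insF_eq, run]
    cases Nat.beq q 0 <;> rfl

/-- A program applied to the members of a list. -/
def mapF (pr : List (ℕ × ℕ)) (l : List ℕ) : List ℕ :=
  @List.rec ℕ (fun _ => List ℕ) [] (fun V _ ih => List.cons (runF pr 10 V) ih) l

def cstF (c n : ℕ) : ℕ := @Nat.rec (fun _ => ℕ) c (fun k ih => dupF k ih) n

theorem cstF_eq (c n : ℕ) : cstF c n = cst c n := by
  induction n with
  | zero => rfl
  | succ k ih => rw [cst, ← ih]; rfl

def pcnF (a K n : ℕ) : ℕ := @Nat.rec (fun _ => ℕ) K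
  (fun k ih => Nat.add ih (Nat.shiftLeft (Nat.add ih (cstF a k)) (Nat.mul 40 (Nat.pow 2 k)))) n

theorem pcnF_eq (a K n : ℕ) : pcnF a K n = pcn a K n := by
  induction n with
  | zero => rfl
  | succ k ih => rw [pcn, ← ih, ← cstF_eq]; rfl

def cmpF (n Th S : ℕ) : Bool :=
  Nat.beq (Nat.land (Nat.sub (Nat.add Th (cstF 549755813888 n)) S) (cstF 549755813888 n))
    (cstF 549755813888 n)

theorem cmpF_eq (n Th S : ℕ) : cmpF n Th S = cmp n Th S := by
  rw [cmpF, cmp, cstF_eq]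
  rfl

def strfF (x s k : ℕ) : ℕ := @Nat.rec (fun _ => ℕ) 0
  (fun k ih => Nat.add ih (Nat.shiftLeft x (Nat.mul 40 (Nat.mul s k)))) k

theorem strfF_eq (x s k : ℕ) : strfF x s k = strf (fun _ => x) s k := by
  induction k with
  | zero => rfl
  | succ k ih => rw [strf, ← ih]; rfl

def sprF (s m Y : ℕ) : ℕ :=
  Nat.land (Nat.mul Y (strfF 1 (Nat.sub s 1) m)) (strfF 1099511627775 s m)

theorem sprF_eq (s m Y : ℕ) : sprF s m Y = spr s m Y := by
  rw [sprF, strfF_eq, strfF_eq]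
  rfl

def outerF (s m A B : ℕ) : ℕ := Nat.mul A (sprF s m B)

theorem outerF_eq (s m A B : ℕ) : outerF s m A B = outer s m A B := by
  rw [outerF, sprF_eq]
  rfl

def slF (s V f : ℕ) : ℕ :=
  Nat.mod (Nat.shiftRight V (Nat.mul 40 (Nat.mul s f))) (Nat.pow 2 (Nat.mul 40 s))

theorem slF_eq (s V f : ℕ) : slF s V f = sl s V f := rfl

def lsumF (g : ℕ → ℕ) (l : List ℕ) : ℕ :=
  @List.rec ℕ (fun _ => ℕ) 0 (fun V _ ih => Nat.add (g V) ih) l

theorem lsumF_eq (g : ℕ → ℕ) (l : List ℕ) : lsumF g l = lsum g l := by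
  induction l with
  | nil => rfl
  | cons V l ih => rw [lsum, ← ih]; rfl

def lenF (l : List ℕ) : ℕ := @List.rec ℕ (fun _ => ℕ) 0 (fun _ _ ih => Nat.succ ih) l

theorem lenF_eq (l : List ℕ) : lenF l = l.length := by
  induction l with
  | nil => rfl
  | cons V l ih => rw [List.length_cons, ← ih]; rfl

def blk0F (kx ky : ℕ) (l : List ℕ) (fx fy : ℕ) : ℕ :=
  Nat.sub (Nat.add (lsumF (fun V => outerF (Nat.pow 2 kx) (Nat.pow 2 ky)
      (slF (Nat.pow 2 kx) V fx) (slF (Nat.pow 2 ky) V fy)) l)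
      (cstF (Nat.add 4294967296 (Nat.mul 67108864 (lenF l))) (Nat.add kx ky)))
    (Nat.add (outerF (Nat.pow 2 kx) (Nat.pow 2 ky) (lsumF (fun V => slF (Nat.pow 2 kx) V fx) l)
        (cstF 8192 ky))
      (outerF (Nat.pow 2 kx) (Nat.pow 2 ky) (cstF 8192 kx)
        (lsumF (fun V => slF (Nat.pow 2 ky) V fy) l)))

theorem blk0F_eq (kx ky : ℕ) (l : List ℕ) (fx fy : ℕ) :
    blk0F kx ky l fx fy = blk0 kx ky l fx fy := by
  have e0 : ∀ k, Nat.pow 2 k = 2 ^ k := fun _ => rfl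
  have e1 : (fun V => outerF (2 ^ kx) (2 ^ ky) (slF (2 ^ kx) V fx) (slF (2 ^ ky) V fy)) =
      fun V => outer (2 ^ kx) (2 ^ ky) (sl (2 ^ kx) V fx) (sl (2 ^ ky) V fy) := by
    funext V; rw [outerF_eq, slF_eq, slF_eq]
  have e2 : (fun V => slF (2 ^ kx) V fx) = fun V => sl (2 ^ kx) V fx := by
    funext V; rw [slF_eq]
  have e3 : (fun V => slF (2 ^ ky) V fy) = fun V => sl (2 ^ ky) V fy := by
    funext V; rw [slF_eq]
  have e4 : Nat.add 4294967296 (Nat.mul 67108864 l.length) = 2 ^ 32 + 8192 * 8192 * l.length := by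
    have : Nat.add 4294967296 (Nat.mul 67108864 l.length) = 4294967296 + 67108864 * l.length := rfl
    rw [this]; norm_num
  rw [blk0F, e0, e0, e1, e2, e3, lenF_eq, e4]
  simp only [outerF_eq, lsumF_eq, cstF_eq]
  rfl

def blkF (kx ky : ℕ) (l : List ℕ) (fx fy : ℕ) : ℕ :=
  @List.rec ℕ (fun _ => ℕ) 0 (fun V r _ => blk0F kx ky (List.cons V r) fx fy) l

theorem blkF_eq (kx ky : ℕ) (l : List ℕ) (fx fy : ℕ) :
    blkF kx ky l fx fy = blk kx ky l fx fy := by
  cases l with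
  | nil => rfl
  | cons V r =>
    have : blkF kx ky (V :: r) fx fy = blk0F kx ky (V :: r) fx fy := rfl
    rw [this, blk0F_eq]; rfl

def catF (A N B : ℕ) : ℕ := Nat.add A (Nat.shiftLeft B (Nat.mul 40 N))

theorem catF_eq (A N B : ℕ) : catF A N B = cat A N B := rfl

def tabF (kx ky fx fy : ℕ) (ls : List (List ℕ)) : ℕ :=
  @List.rec (List ℕ) (fun _ => ℕ) 0
    (fun l _ ih => catF (blkF kx ky l fx fy) (Nat.pow 2 (Nat.add kx ky)) ih) ls

theorem tabF_eq (kx ky fx fy : ℕ) (ls : List (List ℕ)) :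
    tabF kx ky fx fy ls = tab kx ky fx fy ls := by
  induction ls with
  | nil => rfl
  | cons l ls ih =>
    have e1 : tabF kx ky fx fy (l :: ls) =
        catF (blkF kx ky l fx fy) (Nat.pow 2 (Nat.add kx ky)) (tabF kx ky fx fy ls) := rfl
    rw [e1, ih, blkF_eq, tab, catF_eq]
    rfl

def LF (V c : ℕ) : ℕ := Nat.mod (Nat.shiftRight V (Nat.mul 40 c)) 1099511627776

theorem LF_eq (V c : ℕ) : LF V c = L V c := by
  rw [L_eq_shr]
  rfl

def row0F (l : List ℕ) (c : ℕ) : ℕ :=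
  Nat.sub (Nat.add (lsumF (fun V => Nat.mul (LF V c) V) l)
      (cstF (Nat.add 4294967296 (Nat.mul 67108864 (lenF l))) 10))
    (Nat.add (Nat.mul 8192 (lsumF (fun V => V) l))
      (cstF (Nat.mul 8192 (lsumF (fun V => LF V c) l)) 10))

theorem row0F_eq (l : List ℕ) (c : ℕ) : row0F l c = row0 l c := by
  have e1 : (fun V => Nat.mul (LF V c) V) = fun V => L V c * V := by
    funext V; rw [LF_eq]; rfl
  have e2 : (fun V => LF V c) = fun V => L V c := by funext V; rw [LF_eq]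
  have e4 : Nat.add 4294967296 (Nat.mul 67108864 l.length) = 2 ^ 32 + 8192 * 8192 * l.length := by
    have : Nat.add 4294967296 (Nat.mul 67108864 l.length) = 4294967296 + 67108864 * l.length := rfl
    rw [this]; norm_num
  rw [row0F, e1, e2, lenF_eq, e4]
  simp only [lsumF_eq, cstF_eq]
  rfl

def rowF (l : List ℕ) (c : ℕ) : ℕ :=
  @List.rec ℕ (fun _ => ℕ) 0 (fun V r _ => row0F (List.cons V r) c) l

theorem rowF_eq (l : List ℕ) (c : ℕ) : rowF l c = row l c := by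
  cases l with
  | nil => rfl
  | cons V r =>
    have : rowF (V :: r) c = row0F (V :: r) c := rfl
    rw [this, row0F_eq]; rfl

def btsF (c : ℕ) (l : List ℕ) : ℕ := @List.rec ℕ (fun _ => ℕ) 0
  (fun i _ ih => Nat.add (Nat.mod (Nat.div c (Nat.pow 2 i)) 2) (Nat.mul 2 ih)) l

theorem btsF_eq (c : ℕ) (l : List ℕ) : btsF c l = bts c l := by
  induction l with
  | nil => rfl
  | cons i l ih => rw [bts, ← ih]; rfl

def nthF (l : List (List ℕ)) : ℕ → List ℕ :=
  @List.rec (List ℕ) (fun _ => ℕ → List ℕ) (fun _ => [])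
    (fun a _ ih i => @Nat.rec (fun _ => List ℕ) a (fun m _ => ih m) i) l

theorem nthF_eq (l : List (List ℕ)) : ∀ i : ℕ, nthF l i = l.getD i [] := by
  induction l with
  | nil => intro i; rw [List.getD_nil]; rfl
  | cons a l ih =>
    intro i
    cases i with
    | zero => rfl
    | succ m => rw [List.getD_cons_succ, ← ih]; rfl

def famF (fA fB : List (List ℕ)) (p : ℕ) : List ℕ :=
  nthF (@Bool.rec (fun _ => List (List ℕ)) fB fA (Nat.beq (Nat.mod p 2) 0)) (Nat.div p 2)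

theorem famF_eq (fA fB : List (List ℕ)) (p : ℕ) : famF fA fB p = fam fA fB p := by
  rw [famF, nthF_eq, fam]
  have e1 : Nat.mod p 2 = p % 2 := rfl
  have e2 : Nat.div p 2 = p / 2 := rfl
  rw [e1, e2]
  cases Nat.beq (p % 2) 0 <;> rfl

def sumRF {α : Type} (g : α → ℕ) (l : List α) : ℕ :=
  @List.rec α (fun _ => ℕ) 0 (fun V _ ih => Nat.add (g V) ih) l

theorem sumRF_eq {α : Type} (g : α → ℕ) (l : List α) : sumRF g l = sumR g l := by
  induction l with
  | nil => rfl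
  | cons V l ih => rw [sumR, ← ih]; rfl

def valBF (fA fB : List (List ℕ)) (c : ℕ) (r : Row) : ℕ :=
  runF r.pr r.kx (slF (Nat.pow 2 r.kx) (rowF (famF fA fB (btsF c r.p)) (btsF c r.y))
    (btsF c (r.x.drop r.kx)))

theorem valBF_eq (fA fB : List (List ℕ)) (c : ℕ) (r : Row) :
    valBF fA fB c r = valB fA fB c r := by
  rw [valBF, runF_eq, slF_eq, rowF_eq, famF_eq, btsF_eq, btsF_eq, btsF_eq]
  rfl

def valTF (fA fB : List (List ℕ)) (c : ℕ) (r : Row) : ℕ :=
  force (btsF c (r.x.drop r.kx)) fun fx => force (btsF c (r.y.drop r.ky)) fun fy =>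
    tabF r.kx r.ky fx fy (sel r.t (btsF c (r.p.drop (r.t + 1)))
      (@Bool.rec (fun _ => List (List ℕ)) fB fA
        (Nat.beq (Nat.mod (Nat.div c (Nat.pow 2 (r.p.headD 0))) 2) 0)))

theorem valTF_eq (fA fB : List (List ℕ)) (c : ℕ) (r : Row) :
    valTF fA fB c r = valT fA fB c r := by
  rw [valTF, force_eq, force_eq, tabF_eq, btsF_eq, btsF_eq, btsF_eq, valT]
  have e1 : Nat.mod (Nat.div c (Nat.pow 2 (r.p.headD 0))) 2 = c / 2 ^ (r.p.headD 0) % 2 := rfl
  rw [e1]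
  cases Nat.beq (c / 2 ^ (r.p.headD 0) % 2) 0 <;> rfl

def valGF (fA fB : List (List ℕ)) (c : ℕ) (g : Grp) : ℕ :=
  runF g.r.pr (g.r.kx + g.r.ky + g.r.t)
    (Nat.add (valTF fA fB c g.r) (sumRF (valBF fA fB c) g.ex))

theorem valGF_eq (fA fB : List (List ℕ)) (c : ℕ) (g : Grp) :
    valGF fA fB c g = valG fA fB c g := by
  have e1 : valBF fA fB c = valB fA fB c := by funext r; exact valBF_eq _ _ _ _
  rw [valGF, runF_eq, valTF_eq, sumRF_eq, e1]
  rfl

def popF (c n : ℕ) : ℕ := @Nat.rec (fun _ => ℕ) 0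
  (fun k ih => Nat.add ih (Nat.mod (Nat.div c (Nat.pow 2 k)) 2)) n

theorem popF_eq (c n : ℕ) : popF c n = pop c n := by
  induction n with
  | zero => rfl
  | succ k ih => rw [pop, ← ih]; rfl

/-- The fast version of the check. -/
def chkF (fA fB : List (List ℕ)) (gs : List Grp) (a Lo c : ℕ) : Bool :=
  cmpF 18 (pcnF a (Nat.sub (Nat.add (Nat.mul a (popF c 17)) 90194313216) Lo) 18)
    (sumRF (valGF fA fB c) gs)

theorem chkF_eq (fA fB : List (List ℕ)) (gs : List Grp) (a Lo c : ℕ) :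
    chkF fA fB gs a Lo c = chk fA fB gs a Lo c := by
  have e1 : valGF fA fB c = valG fA fB c := by funext g; exact valGF_eq _ _ _ _
  have e2 : Nat.sub (Nat.add (Nat.mul a (pop c 17)) 90194313216) Lo =
      a * pop c 17 + 21 * 2 ^ 32 - Lo := by
    have : Nat.sub (Nat.add (Nat.mul a (pop c 17)) 90194313216) Lo =
      a * pop c 17 + 90194313216 - Lo := rfl
    rw [this]
    norm_num
  rw [chkF, cmpF_eq, pcnF_eq, sumRF_eq, popF_eq, e1, e2]
  rfl

end Pool.Agent.Lib.MP_afdd4d_co
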