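import Pool.Agent.Lib.MP_afdd4d_co.Count

/-!
# From a local inequality on seven-tuples to an upper bound for the Turan density of K_5^4
-/

namespace Pool.Agent.Lib.MP_afdd4d_co

open Finset

section pot
variable {V : Type*} [Fintype V] {m : ℕ}

/-- A difference of a function and of its translate by a permutation of the coordinates has total
sum zero; such potentials may be used as members of the family in `avg_list`. -/
theorem sum_sub_perm (φ : (Fin m → V) → ℝ) (σ : Equiv.Perm (Fin m)) :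
    ∑ t, (φ t - φ (t ∘ σ)) = 0 := by
  rw [Finset.sum_sub_distrib, sub_eq_zero]
  exact ((Equiv.arrowCongr σ.symm (Equiv.refl V)).sum_comp φ).symm

end pot

section main

/-- The indicator of a non-edge. -/
noncomputable def D4 {n : ℕ} (H : Finset (Finset (Fin n))) (a : Fin 4 → Fin n) : ℝ :=
  if univ.image a ∉ H then 1 else 0

theorem D4_nonneg {n : ℕ} (H : Finset (Finset (Fin n))) (a : Fin 4 → Fin n) : 0 ≤ D4 H a := by
  unfold D4; split_ifs <;> norm_num

theorem D4_le_one {n : ℕ} (H : Finset (Finset (Fin n))) (a : Fin 4 → Fin n) : D4 H a ≤ 1 := by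
  unfold D4; split_ifs <;> norm_num

/-- From the local inequality to the bound. `M` bounds the total number of permutations used by the
family, `C` bounds the members of the family, and `lD` is the list of permutations used for
the non-edge indicator. -/
theorem skeleton (L a C M lam : ℝ) (lD : List (Equiv.Perm (Fin 7))) (ha : 0 < a) (hC : 0 ≤ C)
    (hlD : 0 < lD.length) (hlam : lam * (a * (lD.length : ℝ)) ≤ L)
    (h : ∀ (n : ℕ) (H : Finset (Finset (Fin n))), (∀ e ∈ H, e.card = 4) →
      (∀ S : Finset (Fin n), S.card = 5 → ∃ e ∈ S.powersetCard 4, e ∉ H) →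
      ∃ Fam : List (((Fin 7 → Fin n) → ℝ) × List (Equiv.Perm (Fin 7))),
        (Fam.map fun q => (q.2.length : ℝ)).sum ≤ M ∧
        (∀ q ∈ Fam, 0 ≤ ∑ t, q.1 t) ∧ (∀ q ∈ Fam, ∀ t, q.1 t ≤ C) ∧
        ∀ t, Function.Injective t →
          L + (Fam.map fun q => (q.2.map fun ρ : Equiv.Perm (Fin 7) => q.1 (t ∘ ρ)).sum).sum ≤
            a * (lD.map fun σ : Equiv.Perm (Fin 7) =>
              D4 H (fun i => (t ∘ σ) (Fin.castAdd 3 i))).sum) :
    ∀ ε : ℝ, 0 < ε → ∃ N : ℕ, ∀ n : ℕ, N ≤ n → ∀ H : Finset (Finset (Fin n)),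
      (∀ e ∈ H, e.card = 4) →
      (∀ S : Finset (Fin n), S.card = 5 → ∃ e ∈ S.powersetCard 4, e ∉ H) →
      (H.card : ℝ) ≤ (1 - lam + ε) * ((n.choose 4 : ℕ) : ℝ) := by
  intro ε hε
  have hA : 0 < a * (lD.length : ℝ) := mul_pos ha (by exact_mod_cast hlD)
  obtain ⟨N, hN⟩ := density_bound 7 4 (by norm_num) (a * (lD.length : ℝ)) L (M * C) lam hA hlam ε hε
  refine ⟨N, fun n hn H h4 hfree => ?_⟩
  obtain ⟨Fam, hM, hK, hCb, hloc⟩ := h n H h4 hfree
  have hav := avg_list Fam (fun t => D4 H (fun i => t (Fin.castAdd 3 i))) lD a L C hK hCb hloc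
  rw [Fintype.card_fin] at hav
  classical
  -- the non-edges
  set G : Finset (Finset (Fin n)) := (univ.powersetCard 4) \ H with hGdef
  have hG : ∀ s ∈ G, s.card = 4 := by
    intro s hs
    rw [hGdef, Finset.mem_sdiff, Finset.mem_powersetCard] at hs
    exact hs.1.2
  have hHsub : H ⊆ univ.powersetCard 4 := by
    intro e he
    rw [Finset.mem_powersetCard]
    exact ⟨Finset.subset_univ _, h4 e he⟩
  have hcard : (G.card : ℝ) = ((n.choose 4 : ℕ) : ℝ) - (H.card : ℝ) := by
    have h1 := Finset.card_sdiff_add_card_eq_card hHsub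
    rw [Finset.card_powersetCard, Finset.card_univ, Fintype.card_fin] at h1
    have h2 : ((G.card + H.card : ℕ) : ℝ) = ((n.choose 4 : ℕ) : ℝ) := by exact_mod_cast h1
    push_cast at h2
    linarith
  have hdesc : 0 ≤ (n : ℝ) ^ 7 - (n.descFactorial 7 : ℝ) := by
    have : (n.descFactorial 7 : ℝ) ≤ (n : ℝ) ^ 7 := by
      exact_mod_cast Nat.descFactorial_le_pow n 7
    linarith
  have hS : ∑ t ∈ inj (Fin n) 7, D4 H (fun i => t (Fin.castAdd 3 i)) ≤
      (n : ℝ) ^ (7 - 4) * (((4 : ℕ).factorial : ℝ) * (G.card : ℝ)) := by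
    have h1 := sum_inj_le_pow (V := Fin n) 4 3 (D4 H) (D4_nonneg H)
    rw [Fintype.card_fin] at h1
    refine le_trans h1 ?_
    refine mul_le_mul_of_nonneg_left ?_ (by positivity)
    refine sum_inj_le_edges 4 G hG (D4 H) (D4_le_one H) ?_
    intro b hb hbG
    unfold D4
    have hc : (univ.image b).card = 4 := by
      rw [Finset.card_image_of_injective _ hb, Finset.card_univ, Fintype.card_fin]
    have hin : univ.image b ∈ H := by
      by_contra hno
      apply hbG
      rw [hGdef, Finset.mem_sdiff, Finset.mem_powersetCard]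
      exact ⟨⟨Finset.subset_univ _, hc⟩, hno⟩
    rw [if_neg (not_not.mpr hin)]
  have hmain := hN n hn (G.card : ℝ)
    (∑ t ∈ inj (Fin n) 7, D4 H (fun i => t (Fin.castAdd 3 i))) (Nat.cast_nonneg _) hS (by
      refine le_trans ?_ hav
      have h1 : ((Fam.map fun q => (q.2.length : ℝ)).sum * C) *
          ((n : ℝ) ^ 7 - (n.descFactorial 7 : ℝ)) ≤
          (M * C) * ((n : ℝ) ^ 7 - (n.descFactorial 7 : ℝ)) :=
        mul_le_mul_of_nonneg_right (mul_le_mul_of_nonneg_right hM hC) hdesc
      linarith)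
  rw [hcard] at hmain
  have hch : (0 : ℝ) ≤ ((n.choose 4 : ℕ) : ℝ) := Nat.cast_nonneg _
  nlinarith [hmain]

end main

end Pool.Agent.Lib.MP_afdd4d_co
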