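import Pool.Agent.Lib.MP_afdd4d_co.Local
import Pool.Agent.Lib.MP_afdd4d_co.Skeleton

/-!
# From the local inequality to the density bound
-/

namespace Pool.Agent.Lib.MP_afdd4d_co

open Finset

theorem list_range_sum {M : Type*} [AddCommMonoid M] (f : ℕ → M) (n : ℕ) :
    ((List.range n).map f).sum = ∑ k ∈ range n, f k := by
  induction n with
  | zero => rfl
  | succ n ih =>
    rw [List.range_succ, List.map_append, List.sum_append, ih, Finset.sum_range_succ,
      List.map_singleton, List.sum_singleton]

theorem sum_getElem? (l : List ℕ) (g : ℕ → ℝ) : ∀ m : ℕ, l.length ≤ m →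
    ∑ k ∈ range m, (match l[k]? with | some V => g V | none => 0) = (l.map g).sum := by
  induction l with
  | nil => intro m _; simp
  | cons a l ih =>
    intro m hm
    obtain ⟨m', rfl⟩ : ∃ m', m = m' + 1 := ⟨m - 1, by simp at hm; omega⟩
    rw [Finset.sum_range_succ']
    have h1 : ∀ k ∈ range m', (match (a :: l)[k + 1]? with | some V => g V | none => 0) =
        (match l[k]? with | some V => g V | none => 0) := by
      intro k _
      rw [List.getElem?_cons_succ]
    rw [Finset.sum_congr rfl h1, ih m' (by simp at hm; omega), List.map_cons, List.sum_cons,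
      List.getElem?_cons_zero]
    ring

section fin
variable {n : ℕ} (H : Finset (Finset (Fin n))) (fA fB : List (List ℕ))

/-- The flag functions. -/
noncomputable def hk (k : ℕ) (s : Fin 5 → Fin n) (u : Fin n) : ℝ :=
  match (fam fA fB (bt (pat H s) (List.range 5)))[k]? with
  | some V => (L V (bt (lk H s u) (List.range 10)) : ℝ) - 8192
  | none => 0

noncomputable def KK (k : ℕ) (t : Fin 7 → Fin n) : ℝ :=
  hk H fA fB k (fun i => t (Fin.castAdd 2 i)) (t 5) *
    hk H fA fB k (fun i => t (Fin.castAdd 2 i)) (t 6)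

theorem hk_abs (hgood : GoodF fA fB) (k : ℕ) (s : Fin 5 → Fin n) (u : Fin n) :
    |hk H fA fB k s u| ≤ 8192 := by
  have hG := good_fam fA fB hgood (bt (pat H s) (List.range 5))
  unfold hk
  cases h : (fam fA fB (bt (pat H s) (List.range 5)))[k]? with
  | none => simp
  | some V =>
    have hV := List.mem_of_getElem? h
    have h1 := (hG.2 V hV).2 (bt (lk H s u) (List.range 10))
    have h2 : (L V (bt (lk H s u) (List.range 10)) : ℝ) ≤ 16384 := by
      have h4 : L V (bt (lk H s u) (List.range 10)) ≤ 16384 := by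
        norm_num at h1
        omega
      exact_mod_cast h4
    have h3 : (0 : ℝ) ≤ (L V (bt (lk H s u) (List.range 10)) : ℝ) := Nat.cast_nonneg _
    simp only
    rw [abs_le]
    constructor
    · linarith
    · linarith

theorem KK_le (hgood : GoodF fA fB) (k : ℕ) (t : Fin 7 → Fin n) :
    KK H fA fB k t ≤ 8192 * 8192 := by
  unfold KK
  refine le_trans (le_abs_self _) ?_
  rw [abs_mul]
  exact mul_le_mul (hk_abs H fA fB hgood _ _ _) (hk_abs H fA fB hgood _ _ _) (abs_nonneg _)
    (by norm_num)

theorem KK_nonneg (k : ℕ) : 0 ≤ ∑ t : Fin 7 → Fin n, KK H fA fB k t := by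
  have h := square_nonneg (V := Fin n) 5 1 (fun s u => hk H fA fB k s (u 0))
  exact h

theorem KK_sum (hgood : GoodF fA fB) (t : Fin 7 → Fin n) (ρ : Fin 7 → Fin 7) :
    ∑ k ∈ range 64, KK H fA fB k (t ∘ ρ) = (val H fA fB t ρ : ℝ) := by
  have hG := good_fam fA fB hgood (bt (pat H fun i : Fin 5 => t (ρ (Fin.castAdd 2 i)))
    (List.range 5))
  have h1 : ∀ k ∈ range 64, KK H fA fB k (t ∘ ρ) =
      (match (fam fA fB (bt (pat H fun i : Fin 5 => t (ρ (Fin.castAdd 2 i)))
        (List.range 5)))[k]? with
      | some V => ((L V (bt (lk H (fun i : Fin 5 => t (ρ (Fin.castAdd 2 i))) (t (ρ 5)))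
          (List.range 10)) : ℝ) - 8192) *
          ((L V (bt (lk H (fun i : Fin 5 => t (ρ (Fin.castAdd 2 i))) (t (ρ 6)))
          (List.range 10)) : ℝ) - 8192)
      | none => 0) := by
    intro k _
    unfold KK hk
    simp only [Function.comp_apply]
    cases (fam fA fB (bt (pat H fun i : Fin 5 => t (ρ (Fin.castAdd 2 i)))
        (List.range 5)))[k]? with
    | none => simp
    | some V => rfl
  rw [Finset.sum_congr rfl h1]
  have h2 := sum_getElem? (fam fA fB (bt (pat H fun i : Fin 5 => t (ρ (Fin.castAdd 2 i)))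
    (List.range 5))) (fun V => ((L V (bt (lk H (fun i : Fin 5 => t (ρ (Fin.castAdd 2 i)))
      (t (ρ 5))) (List.range 10)) : ℝ) - 8192) *
      ((L V (bt (lk H (fun i : Fin 5 => t (ρ (Fin.castAdd 2 i))) (t (ρ 6)))
      (List.range 10)) : ℝ) - 8192)) 64 hG.1
  rw [h2, val, Gm, gram]
  have h3 : ∀ (l : List ℕ) (c c' : ℕ),
      (l.map fun V => ((L V c : ℝ) - 8192) * ((L V c' : ℝ) - 8192)).sum =
      (((l.map fun V => ((L V c : ℤ) - 8192) * ((L V c' : ℤ) - 8192)).sum : ℤ) : ℝ) := by
    intro l c c'
    induction l with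
    | nil => simp
    | cons a l ih =>
      rw [List.map_cons, List.sum_cons, List.map_cons, List.sum_cons, ih]
      push_cast
      ring
  exact h3 _ _ _

end fin

/-! ### Lists of permutations -/

open Classical in
/-- The list as a permutation. -/
noncomputable def mkP (l : List ℕ) : Equiv.Perm (Fin 7) :=
  if h : Function.Bijective (gf l) then Equiv.ofBijective (gf l) h else 1

theorem mkP_apply (l : List ℕ) (h : Function.Injective (gf l)) (i : Fin 7) :
    mkP l i = gf l i := by
  have hb : Function.Bijective (gf l) := Finite.injective_iff_bijective.mp h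
  rw [mkP, dif_pos hb]
  rfl

/-- A quadruple followed by its complement. -/
def quadL (i : ℕ) : List ℕ :=
  ((List.range 7).filter fun z => decide (z ∉ tripD.getD i [])) ++ tripD.getD i []

theorem quadL_inj : ∀ i < 35, Function.Injective (gf (quadL i)) := by decide +kernel

theorem quadL_image : ∀ i < 35,
    univ.image (fun j : Fin 4 => gf (quadL i) (Fin.castAdd 3 j)) = quadF i := by
  decide +kernel

theorem geo_length : geo.length = 21 := rfl

theorem sum_map_sum (f : ℕ → List ℕ → ℝ) (m : ℕ) (l : List (List ℕ)) :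
    ∑ k ∈ range m, (l.map (f k)).sum = (l.map fun x => ∑ k ∈ range m, f k x).sum := by
  induction l with
  | nil => simp
  | cons a l ih =>
    rw [List.map_cons, List.sum_cons, ← ih, ← Finset.sum_add_distrib]
    refine Finset.sum_congr rfl fun k _ => ?_
    rw [List.map_cons, List.sum_cons]

theorem final (fA fB : List (List ℕ)) (hgood : GoodF fA fB)
    (hI : ∀ d ∈ invD, okI fA fB d = true) (a Lo : ℕ) (ha0 : 0 < a) (ha : a < 2 ^ 30)
    (hL : Lo ≤ 21 * 2 ^ 32)
    (hc : ∀ c ∈ classes, ∀ w < 4, chkF fA fB groups a Lo (c + 32768 * w) = true)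
    (lam : ℝ) (hlam : lam * ((a : ℝ) * 35) ≤ (Lo : ℝ)) :
    ∀ ε : ℝ, 0 < ε → ∃ N : ℕ, ∀ n : ℕ, N ≤ n → ∀ H : Finset (Finset (Fin n)),
      (∀ e ∈ H, e.card = 4) →
      (∀ S : Finset (Fin n), S.card = 5 → ∃ e ∈ S.powersetCard 4, e ∉ H) →
      (H.card : ℝ) ≤ (1 - lam + ε) * ((n.choose 4 : ℕ) : ℝ) := by
  have hlen : ((List.range 35).map fun i => mkP (quadL i)).length = 35 := by
    rw [List.length_map, List.length_range]
  refine skeleton (Lo : ℝ) (a : ℝ) (8192 * 8192) (64 * 21) lam
    ((List.range 35).map fun i => mkP (quadL i)) (by exact_mod_cast ha0) (by norm_num)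
    (by rw [hlen]; norm_num) (by rw [hlen]; exact_mod_cast hlam) ?_
  intro n H _ h5
  refine ⟨(List.range 64).map fun k => (KK H fA fB k, geo.map mkP), ?_, ?_, ?_, ?_⟩
  · rw [List.map_map, list_range_sum]
    simp only [Function.comp_apply, List.length_map, geo_length]
    rw [Finset.sum_const, card_range, nsmul_eq_mul]
    norm_num
  · intro q hq
    rw [List.mem_map] at hq
    obtain ⟨k, _, rfl⟩ := hq
    exact KK_nonneg H fA fB k
  · intro q hq t
    rw [List.mem_map] at hq
    obtain ⟨k, _, rfl⟩ := hq
    exact KK_le H fA fB hgood k t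
  · intro t ht
    have h1 := local_ineq H fA fB hgood hI a Lo ha hL hc h5 _ t ht rfl
    have e1 : (((List.range 64).map fun k => (KK H fA fB k, geo.map mkP)).map fun q =>
        (q.2.map fun ρ : Equiv.Perm (Fin 7) => q.1 (t ∘ ρ)).sum).sum = (PP H fA fB t : ℝ) := by
      rw [List.map_map, list_range_sum]
      simp only [Function.comp_apply, List.map_map]
      rw [sum_map_sum (fun k l => ((fun ρ : Equiv.Perm (Fin 7) => KK H fA fB k (t ∘ ρ)) ∘ mkP) l)
        64 geo]
      have e2 : (geo.map fun l => ∑ k ∈ range 64,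
          ((fun ρ : Equiv.Perm (Fin 7) => KK H fA fB k (t ∘ ρ)) ∘ mkP) l) =
          geo.map fun l => (val H fA fB t (gf l) : ℝ) := by
        apply List.map_congr_left
        intro l hl
        rw [← KK_sum H fA fB hgood t (gf l)]
        refine Finset.sum_congr rfl fun k _ => ?_
        have e3 : (mkP l : Fin 7 → Fin 7) = gf l := by
          funext i
          exact mkP_apply l (geo_inj l hl) i
        simp only [Function.comp_apply]
        rw [e3]
      rw [e2, PP]
      have e4 : ∀ L : List (List ℕ), (L.map fun l => (val H fA fB t (gf l) : ℝ)).sum =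
          (((L.map fun l => val H fA fB t (gf l)).sum : ℤ) : ℝ) := by
        intro L
        induction L with
        | nil => simp
        | cons a L ih =>
          rw [List.map_cons, List.sum_cons, List.map_cons, List.sum_cons, ih]
          push_cast
          ring
      exact e4 geo
    have e5 : (((List.range 35).map fun i => mkP (quadL i)).map fun σ : Equiv.Perm (Fin 7) =>
        D4 H (fun i => (t ∘ σ) (Fin.castAdd 3 i))).sum = (NN H t : ℝ) := by
      rw [List.map_map, list_range_sum, NN_eq]
      push_cast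
      refine Finset.sum_congr rfl fun i hi => ?_
      have hi' := Finset.mem_range.mp hi
      have e6 : univ.image (fun j : Fin 4 => (t ∘ mkP (quadL i)) (Fin.castAdd 3 j)) =
          (quadF i).image t := by
        rw [← quadL_image i hi', Finset.image_image]
        congr 1
        funext j
        simp only [Function.comp_apply]
        rw [mkP_apply _ (quadL_inj i hi')]
      rw [Function.comp_apply, D4, e6, FF, E]
      by_cases hh : (quadF i).image t ∉ H
      · rw [if_pos hh, decide_eq_true hh]
        simp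
      · rw [if_neg hh, decide_eq_false hh]
        simp
    rw [e1, e5]
    have h2 : (((Lo : ℤ) + PP H fA fB t : ℤ) : ℝ) ≤ (((a : ℤ) * (NN H t : ℤ) : ℤ) : ℝ) := by
      exact_mod_cast h1
    push_cast at h2
    exact h2

end Pool.Agent.Lib.MP_afdd4d_co
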