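import Pool.Agent.Lib.MP_afdd4d_co.Avg

/-!
# The lower bound: a 4-graph without `K_5^4` of density `11/16`

The vertices are divided into two halves `A` and `B`, and `f` is a sign matrix on `A × B`. The edges are
the quadruples with an odd number of vertices in `A` and the quadruples with two vertices in `A` for
which the product of the four signs is `-1`.
-/

namespace Pool.Agent.Lib.MP_afdd4d_co

open Finset

section construction
variable {V : Type*} [Fintype V] [DecidableEq V]

/-- The product of the signs. -/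
def sgn (f : V × V → ℤˣ) (p q : Finset V) : ℤˣ := ∏ x ∈ p ×ˢ q, f x

theorem sum_sgn_zero (p q : Finset V) (hp : p.Nonempty) (hq : q.Nonempty) :
    ∑ f : V × V → ℤˣ, ((sgn f p q : ℤˣ) : ℤ) = 0 := by
  obtain ⟨x, hx⟩ := hp
  obtain ⟨y, hy⟩ := hq
  have hxy : (x, y) ∈ p ×ˢ q := Finset.mk_mem_product hx hy
  let e : (V × V → ℤˣ) ≃ (V × V → ℤˣ) := Equiv.mulRight (Function.update 1 (x, y) (-1))
  have h1 : ∀ f : V × V → ℤˣ, ((sgn (e f) p q : ℤˣ) : ℤ) = - ((sgn f p q : ℤˣ) : ℤ) := by
    intro f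
    have h2 : sgn (e f) p q = sgn f p q * ∏ z ∈ p ×ˢ q, (Function.update (1 : V × V → ℤˣ) (x, y) (-1)) z := by
      unfold sgn
      rw [← Finset.prod_mul_distrib]
      rfl
    have h3 : ∏ z ∈ p ×ˢ q, (Function.update (1 : V × V → ℤˣ) (x, y) (-1)) z = -1 := by
      rw [Finset.prod_eq_single (x, y)]
      · simp
      · intro b _ hb
        rw [Function.update_of_ne hb]
        rfl
      · intro h
        exact absurd hxy h
    rw [h2, h3]
    simp
  have h4 := e.sum_comp (fun f => ((sgn f p q : ℤˣ) : ℤ))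
  simp only [h1] at h4
  rw [Finset.sum_neg_distrib] at h4
  linarith

theorem exists_sign (A B : Finset V) : ∃ f : V × V → ℤˣ,
    2 * (((A.powersetCard 2) ×ˢ (B.powersetCard 2)).filter fun z => sgn f z.1 z.2 = 1).card ≤
      ((A.powersetCard 2) ×ˢ (B.powersetCard 2)).card := by
  set P := (A.powersetCard 2) ×ˢ (B.powersetCard 2) with hP
  have h0 : ∑ f : V × V → ℤˣ, ∑ z ∈ P, ((sgn f z.1 z.2 : ℤˣ) : ℤ) = 0 := by
    rw [Finset.sum_comm]
    refine Finset.sum_eq_zero fun z hz => ?_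
    rw [hP, Finset.mem_product, Finset.mem_powersetCard, Finset.mem_powersetCard] at hz
    refine sum_sgn_zero _ _ ?_ ?_
    · rw [← Finset.card_pos]; omega
    · rw [← Finset.card_pos]; omega
  have h1 : ∃ f ∈ (univ : Finset (V × V → ℤˣ)), ∑ z ∈ P, ((sgn f z.1 z.2 : ℤˣ) : ℤ) ≤ 0 :=
    Finset.exists_le_of_sum_le Finset.univ_nonempty (by
      rw [h0, Finset.sum_const_zero])
  obtain ⟨f, _, hf⟩ := h1
  refine ⟨f, ?_⟩
  have h2 : ∑ z ∈ P, ((sgn f z.1 z.2 : ℤˣ) : ℤ) =
      2 * ((P.filter fun z => sgn f z.1 z.2 = 1).card : ℤ) - (P.card : ℤ) := by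
    have h3 : ∀ z ∈ P, ((sgn f z.1 z.2 : ℤˣ) : ℤ) = 2 * (if sgn f z.1 z.2 = 1 then 1 else 0) - 1 := by
      intro z _
      rcases Int.units_eq_one_or (sgn f z.1 z.2) with h | h
      · rw [h, if_pos rfl]; norm_num
      · rw [h, if_neg (by decide)]; norm_num
    rw [Finset.sum_congr rfl h3, Finset.sum_sub_distrib, ← Finset.mul_sum, Finset.card_filter]
    push_cast
    simp
  have h4 : (2 * ((P.filter fun z => sgn f z.1 z.2 = 1).card : ℤ)) ≤ (P.card : ℤ) := by linarith
  exact_mod_cast h4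

/-- The hypergraph. -/
def GH (f : V × V → ℤˣ) (A : Finset V) : Finset (Finset V) :=
  (univ.powersetCard 4).filter fun e => Odd (e ∩ A).card ∨
    ((e ∩ A).card = 2 ∧ sgn f (e ∩ A) (e \ A) = -1)

theorem mem_GH (f : V × V → ℤˣ) (A e : Finset V) : e ∈ GH f A ↔ e.card = 4 ∧
    (Odd (e ∩ A).card ∨ ((e ∩ A).card = 2 ∧ sgn f (e ∩ A) (e \ A) = -1)) := by
  unfold GH
  rw [Finset.mem_filter, Finset.mem_powersetCard]
  simp

omit [Fintype V] in
theorem card_inter_sdiff (e A : Finset V) : (e ∩ A).card + (e \ A).card = e.card :=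
  Finset.card_inter_add_card_sdiff e A

theorem GH_free (f : V × V → ℤˣ) (A S : Finset V) (hS : S.card = 5) :
    ∃ e ∈ S.powersetCard 4, e ∉ GH f A := by
  classical
  by_contra hcon
  push Not at hcon
  have hkey : ∀ e ⊆ S, e.card = 4 → (Odd (e ∩ A).card ∨
      ((e ∩ A).card = 2 ∧ sgn f (e ∩ A) (e \ A) = -1)) := by
    intro e he h4
    have := hcon e (by rw [Finset.mem_powersetCard]; exact ⟨he, h4⟩)
    rw [mem_GH] at this
    exact this.2
  set P := S ∩ A with hPdef
  set Q := S \ A with hQdef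
  have hPQ : P.card + Q.card = 5 := by rw [← hS]; exact card_inter_sdiff S A
  have hera : ∀ x ∈ P, (S.erase x) ∩ A = P.erase x ∧ (S.erase x) \ A = Q := by
    intro x hx
    have hxA : x ∈ A := (Finset.mem_inter.mp hx).2
    constructor
    · ext z
      simp only [hPdef, Finset.mem_inter, Finset.mem_erase]
      tauto
    · ext z
      simp only [hQdef, Finset.mem_sdiff, Finset.mem_erase]
      constructor
      · rintro ⟨⟨_, h1⟩, h2⟩
        exact ⟨h1, h2⟩
      · rintro ⟨h1, h2⟩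
        exact ⟨⟨fun h => h2 (h ▸ hxA), h1⟩, h2⟩
  have herb : ∀ x ∈ Q, (S.erase x) ∩ A = P ∧ (S.erase x) \ A = Q.erase x := by
    intro x hx
    have hxA : x ∉ A := (Finset.mem_sdiff.mp hx).2
    constructor
    · ext z
      simp only [hPdef, Finset.mem_inter, Finset.mem_erase]
      constructor
      · rintro ⟨⟨_, h1⟩, h2⟩
        exact ⟨h1, h2⟩
      · rintro ⟨h1, h2⟩
        exact ⟨⟨fun h => hxA (h ▸ h2), h1⟩, h2⟩
    · ext z
      simp only [hQdef, Finset.mem_sdiff, Finset.mem_erase]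
      tauto
  have hPS : P ⊆ S := Finset.inter_subset_left
  have hQS : Q ⊆ S := Finset.sdiff_subset
  have hcard : ∀ x ∈ S, (S.erase x).card = 4 := by
    intro x hx
    rw [Finset.card_erase_of_mem hx, hS]
  have hP5 : P.card ≤ 5 := by omega
  interval_cases hP : P.card
  · -- no vertex in A
    obtain ⟨x, hx⟩ : Q.Nonempty := by rw [← Finset.card_pos]; omega
    have h := hkey (S.erase x) (Finset.erase_subset _ _) (hcard x (hQS hx))
    rw [(herb x hx).1, hP] at h
    rcases h with h | h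
    · exact absurd h (by decide)
    · exact absurd h.1 (by decide)
  · -- one vertex in A
    obtain ⟨x, hx⟩ : P.Nonempty := by rw [← Finset.card_pos]; omega
    have h := hkey (S.erase x) (Finset.erase_subset _ _) (hcard x (hPS hx))
    rw [(hera x hx).1, Finset.card_erase_of_mem hx, hP] at h
    rcases h with h | h
    · exact absurd h (by decide)
    · exact absurd h.1 (by decide)
  · -- two in A, three in B
    have hQ3 : Q.card = 3 := by omega
    have h1 : ∀ x ∈ Q, sgn f P (Q.erase x) = -1 := by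
      intro x hx
      have h := hkey (S.erase x) (Finset.erase_subset _ _) (hcard x (hQS hx))
      rw [(herb x hx).1, (herb x hx).2, hP] at h
      rcases h with h | h
      · exact absurd h (by decide)
      · exact h.2
    obtain ⟨x, y, z, hxy, hxz, hyz, hQe⟩ := Finset.card_eq_three.mp hQ3
    have hx : x ∈ Q := by rw [hQe]; simp
    have hy : y ∈ Q := by rw [hQe]; simp
    have hz : z ∈ Q := by rw [hQe]; simp
    have hs : ∀ q : Finset V, sgn f P q = ∏ b ∈ q, ∏ a ∈ P, f (a, b) := by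
      intro q
      rw [sgn, Finset.prod_product_right]
    have e1 : Q.erase x = {y, z} := by
      rw [hQe]; ext w; simp only [Finset.mem_erase, Finset.mem_insert, Finset.mem_singleton]
      constructor
      · rintro ⟨h1, h2 | h2 | h2⟩
        · exact absurd h2 h1
        · exact Or.inl h2
        · exact Or.inr h2
      · rintro (h | h)
        · exact ⟨h ▸ hxy.symm, Or.inr (Or.inl h)⟩
        · exact ⟨h ▸ hxz.symm, Or.inr (Or.inr h)⟩
    have e2 : Q.erase y = {x, z} := by
      rw [hQe]; ext w; simp only [Finset.mem_erase, Finset.mem_insert, Finset.mem_singleton]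
      constructor
      · rintro ⟨h1, h2 | h2 | h2⟩
        · exact Or.inl h2
        · exact absurd h2 h1
        · exact Or.inr h2
      · rintro (h | h)
        · exact ⟨h ▸ hxy, Or.inl h⟩
        · exact ⟨h ▸ hyz.symm, Or.inr (Or.inr h)⟩
    have e3 : Q.erase z = {x, y} := by
      rw [hQe]; ext w; simp only [Finset.mem_erase, Finset.mem_insert, Finset.mem_singleton]
      constructor
      · rintro ⟨h1, h2 | h2 | h2⟩
        · exact Or.inl h2
        · exact Or.inr h2
        · exact absurd h2 h1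
      · rintro (h | h)
        · exact ⟨h ▸ hxz, Or.inl h⟩
        · exact ⟨h ▸ hyz, Or.inr (Or.inl h)⟩
    have g1 := h1 x hx
    have g2 := h1 y hy
    have g3 := h1 z hz
    rw [e1, hs, Finset.prod_pair hyz] at g1
    rw [e2, hs, Finset.prod_pair hxz] at g2
    rw [e3, hs, Finset.prod_pair hxy] at g3
    set a := ∏ w ∈ P, f (w, x)
    set b := ∏ w ∈ P, f (w, y)
    set c := ∏ w ∈ P, f (w, z)
    rcases Int.units_eq_one_or a with ha | ha <;> rcases Int.units_eq_one_or b with hb | hb <;>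
      rcases Int.units_eq_one_or c with hc | hc <;> rw [hb, hc] at g1 <;> rw [ha, hc] at g2 <;>
      rw [ha, hb] at g3 <;> revert g1 g2 g3 <;> decide
  · -- three in A, two in B
    have hQ2 : Q.card = 2 := by omega
    have h1 : ∀ x ∈ P, sgn f (P.erase x) Q = -1 := by
      intro x hx
      have h := hkey (S.erase x) (Finset.erase_subset _ _) (hcard x (hPS hx))
      rw [(hera x hx).1, (hera x hx).2, Finset.card_erase_of_mem hx, hP] at h
      rcases h with h | h
      · exact absurd h (by decide)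
      · exact h.2
    obtain ⟨x, y, z, hxy, hxz, hyz, hQe⟩ := Finset.card_eq_three.mp hP
    have hx : x ∈ P := by rw [hQe]; simp
    have hy : y ∈ P := by rw [hQe]; simp
    have hz : z ∈ P := by rw [hQe]; simp
    have hs : ∀ p : Finset V, sgn f p Q = ∏ a ∈ p, ∏ b ∈ Q, f (a, b) := by
      intro q
      rw [sgn, Finset.prod_product]
    have e1 : P.erase x = {y, z} := by
      rw [hQe]; ext w; simp only [Finset.mem_erase, Finset.mem_insert, Finset.mem_singleton]
      constructor
      · rintro ⟨h1, h2 | h2 | h2⟩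
        · exact absurd h2 h1
        · exact Or.inl h2
        · exact Or.inr h2
      · rintro (h | h)
        · exact ⟨h ▸ hxy.symm, Or.inr (Or.inl h)⟩
        · exact ⟨h ▸ hxz.symm, Or.inr (Or.inr h)⟩
    have e2 : P.erase y = {x, z} := by
      rw [hQe]; ext w; simp only [Finset.mem_erase, Finset.mem_insert, Finset.mem_singleton]
      constructor
      · rintro ⟨h1, h2 | h2 | h2⟩
        · exact Or.inl h2
        · exact absurd h2 h1
        · exact Or.inr h2
      · rintro (h | h)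
        · exact ⟨h ▸ hxy, Or.inl h⟩
        · exact ⟨h ▸ hyz.symm, Or.inr (Or.inr h)⟩
    have e3 : P.erase z = {x, y} := by
      rw [hQe]; ext w; simp only [Finset.mem_erase, Finset.mem_insert, Finset.mem_singleton]
      constructor
      · rintro ⟨h1, h2 | h2 | h2⟩
        · exact Or.inl h2
        · exact Or.inr h2
        · exact absurd h2 h1
      · rintro (h | h)
        · exact ⟨h ▸ hxz, Or.inl h⟩
        · exact ⟨h ▸ hyz, Or.inr (Or.inl h)⟩
    have g1 := h1 x hx
    have g2 := h1 y hy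
    have g3 := h1 z hz
    rw [e1, hs, Finset.prod_pair hyz] at g1
    rw [e2, hs, Finset.prod_pair hxz] at g2
    rw [e3, hs, Finset.prod_pair hxy] at g3
    set a := ∏ w ∈ Q, f (x, w)
    set b := ∏ w ∈ Q, f (y, w)
    set c := ∏ w ∈ Q, f (z, w)
    rcases Int.units_eq_one_or a with ha | ha <;> rcases Int.units_eq_one_or b with hb | hb <;>
      rcases Int.units_eq_one_or c with hc | hc <;> rw [hb, hc] at g1 <;> rw [ha, hc] at g2 <;>
      rw [ha, hb] at g3 <;> revert g1 g2 g3 <;> decide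
  · -- four in A
    obtain ⟨x, hx⟩ : Q.Nonempty := by rw [← Finset.card_pos]; omega
    have h := hkey (S.erase x) (Finset.erase_subset _ _) (hcard x (hQS hx))
    rw [(herb x hx).1, hP] at h
    rcases h with h | h
    · exact absurd h (by decide)
    · exact absurd h.1 (by decide)
  · -- five in A
    obtain ⟨x, hx⟩ : P.Nonempty := by rw [← Finset.card_pos]; omega
    have h := hkey (S.erase x) (Finset.erase_subset _ _) (hcard x (hPS hx))
    rw [(hera x hx).1, Finset.card_erase_of_mem hx, hP] at h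
    rcases h with h | h
    · exact absurd h (by decide)
    · exact absurd h.1 (by decide)

/-- The number of non-edges. -/
theorem GH_compl (f : V × V → ℤˣ) (A : Finset V) :
    ((univ.powersetCard 4) \ GH f A).card ≤ (A.card.choose 4) + (Aᶜ.card.choose 4) +
      (((A.powersetCard 2) ×ˢ (Aᶜ.powersetCard 2)).filter fun z => sgn f z.1 z.2 = 1).card := by
  classical
  set P := ((A.powersetCard 2) ×ˢ (Aᶜ.powersetCard 2)).filter fun z => sgn f z.1 z.2 = 1 with hP
  have h1 : (univ.powersetCard 4) \ GH f A ⊆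
      (A.powersetCard 4 ∪ Aᶜ.powersetCard 4) ∪ P.image fun z => z.1 ∪ z.2 := by
    intro e he
    rw [Finset.mem_sdiff, Finset.mem_powersetCard] at he
    obtain ⟨⟨_, h4⟩, h5⟩ := he
    rw [mem_GH] at h5
    have h6 : ¬ (Odd (e ∩ A).card ∨ ((e ∩ A).card = 2 ∧ sgn f (e ∩ A) (e \ A) = -1)) :=
      fun h => h5 ⟨h4, h⟩
    push Not at h6
    obtain ⟨h7, h8⟩ := h6
    have h9 := card_inter_sdiff e A
    have hle : (e ∩ A).card ≤ 4 := by omega
    rw [Finset.mem_union, Finset.mem_union]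
    interval_cases hk : (e ∩ A).card
    · left; right
      rw [Finset.mem_powersetCard]
      refine ⟨fun x hx => ?_, h4⟩
      rw [Finset.mem_compl]
      intro hxA
      have : x ∈ e ∩ A := Finset.mem_inter.mpr ⟨hx, hxA⟩
      rw [Finset.card_eq_zero.mp hk] at this
      exact absurd this (Finset.notMem_empty x)
    · exact absurd (by decide : Odd 1) h7
    · right
      rw [Finset.mem_image]
      refine ⟨(e ∩ A, e \ A), ?_, ?_⟩
      · rw [hP, Finset.mem_filter, Finset.mem_product, Finset.mem_powersetCard,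
          Finset.mem_powersetCard]
        refine ⟨⟨⟨Finset.inter_subset_right, hk⟩, ⟨fun x hx => ?_, by change (e \ A).card = 2; omega⟩⟩, ?_⟩
        · rw [Finset.mem_compl]
          exact (Finset.mem_sdiff.mp hx).2
        · rcases Int.units_eq_one_or (sgn f (e ∩ A) (e \ A)) with h | h
          · exact h
          · exact absurd h (h8 rfl)
      · change (e ∩ A) ∪ (e \ A) = e
        ext x
        simp only [Finset.mem_union, Finset.mem_inter, Finset.mem_sdiff]
        tauto
    · exact absurd (by decide : Odd 3) h7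
    · left; left
      rw [Finset.mem_powersetCard]
      refine ⟨?_, h4⟩
      have h10 : e ∩ A = e := Finset.eq_of_subset_of_card_le Finset.inter_subset_left (by omega)
      rw [← h10]
      exact Finset.inter_subset_right
  refine le_trans (Finset.card_le_card h1) ?_
  refine le_trans (Finset.card_union_le _ _) ?_
  refine Nat.add_le_add ?_ Finset.card_image_le
  refine le_trans (Finset.card_union_le _ _) ?_
  rw [Finset.card_powersetCard, Finset.card_powersetCard]

end construction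

theorem choose4_le (a : ℕ) : (a.choose 4 : ℝ) ≤ (a : ℝ) ^ 4 / 24 := by
  have h := Nat.choose_le_pow_div (α := ℝ) 4 a
  have e : ((4 : ℕ).factorial : ℝ) = 24 := by norm_num [Nat.factorial]
  rwa [e] at h

theorem choose2_le (a : ℕ) : (a.choose 2 : ℝ) ≤ (a : ℝ) ^ 2 / 2 := by
  have h := Nat.choose_le_pow_div (α := ℝ) 2 a
  have e : ((2 : ℕ).factorial : ℝ) = 2 := by norm_num [Nat.factorial]
  rwa [e] at h

theorem lower_card (n : ℕ) : ∃ H : Finset (Finset (Fin n)), (∀ e ∈ H, e.card = 4) ∧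
    (∀ S : Finset (Fin n), S.card = 5 → ∃ e ∈ S.powersetCard 4, e ∉ H) ∧
    ((n.choose 4 : ℕ) : ℝ) - 5 / 16 * (((n : ℝ) + 1) ^ 4 / 24) ≤ (H.card : ℝ) := by
  classical
  set A : Finset (Fin n) := univ.filter fun x => (x : ℕ) < n / 2 with hA
  have hAc : A.card = n / 2 := by
    have : A.card = (Finset.range (n / 2)).card := by
      refine Finset.card_bij (fun x _ => (x : ℕ)) ?_ ?_ ?_
      · intro x hx
        rw [hA, Finset.mem_filter] at hx
        exact Finset.mem_range.mpr hx.2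
      · intro x _ y _ h
        exact Fin.ext h
      · intro k hk
        have hk' := Finset.mem_range.mp hk
        refine ⟨⟨k, by omega⟩, ?_, rfl⟩
        rw [hA, Finset.mem_filter]
        exact ⟨Finset.mem_univ _, hk'⟩
    rw [this, Finset.card_range]
  have hBc : Aᶜ.card = n - n / 2 := by
    rw [Finset.card_compl, hAc, Fintype.card_fin]
  obtain ⟨f, hf⟩ := exists_sign A Aᶜ
  refine ⟨GH f A, fun e he => ((mem_GH f A e).mp he).1, fun S hS => GH_free f A S hS, ?_⟩
  have h1 := GH_compl f A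
  rw [Finset.card_product, Finset.card_powersetCard, Finset.card_powersetCard] at hf
  set c := (((A.powersetCard 2) ×ˢ (Aᶜ.powersetCard 2)).filter fun z => sgn f z.1 z.2 = 1).card
  have hsub : GH f A ⊆ univ.powersetCard 4 := Finset.filter_subset _ _
  have h2 := Finset.card_sdiff_add_card_eq_card hsub
  rw [Finset.card_powersetCard, Finset.card_univ, Fintype.card_fin] at h2
  rw [hAc, hBc] at h1 hf
  have h3 : (((univ.powersetCard 4) \ GH f A).card : ℝ) + ((GH f A).card : ℝ) = ((n.choose 4 : ℕ) : ℝ) := by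
    exact_mod_cast h2
  have h4 : (((univ.powersetCard 4) \ GH f A).card : ℝ) ≤ ((n / 2).choose 4 : ℕ) +
      ((n - n / 2).choose 4 : ℕ) + (c : ℝ) := by exact_mod_cast h1
  have h5 : 2 * (c : ℝ) ≤ ((n / 2).choose 2 : ℕ) * ((n - n / 2).choose 2 : ℕ) := by
    exact_mod_cast hf
  have ha : ((n / 2 : ℕ) : ℝ) ≤ ((n : ℝ) + 1) / 2 := by
    have : 2 * (n / 2) ≤ n + 1 := by omega
    have h : 2 * ((n / 2 : ℕ) : ℝ) ≤ (n : ℝ) + 1 := by exact_mod_cast this
    linarith
  have hb : ((n - n / 2 : ℕ) : ℝ) ≤ ((n : ℝ) + 1) / 2 := by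
    have : 2 * (n - n / 2) ≤ n + 1 := by omega
    have h : 2 * ((n - n / 2 : ℕ) : ℝ) ≤ (n : ℝ) + 1 := by exact_mod_cast this
    linarith
  have ha0 : (0 : ℝ) ≤ ((n / 2 : ℕ) : ℝ) := Nat.cast_nonneg _
  have hb0 : (0 : ℝ) ≤ ((n - n / 2 : ℕ) : ℝ) := Nat.cast_nonneg _
  set x : ℝ := ((n : ℝ) + 1) / 2 with hx
  have hx0 : 0 ≤ x := by positivity
  have g1 : (((n / 2).choose 4 : ℕ) : ℝ) ≤ x ^ 4 / 24 :=
    le_trans (choose4_le _) (div_le_div_of_nonneg_right (pow_le_pow_left₀ ha0 ha 4) (by norm_num))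
  have g2 : (((n - n / 2).choose 4 : ℕ) : ℝ) ≤ x ^ 4 / 24 :=
    le_trans (choose4_le _) (div_le_div_of_nonneg_right (pow_le_pow_left₀ hb0 hb 4) (by norm_num))
  have g3 : (((n / 2).choose 2 : ℕ) : ℝ) ≤ x ^ 2 / 2 :=
    le_trans (choose2_le _) (div_le_div_of_nonneg_right (pow_le_pow_left₀ ha0 ha 2) (by norm_num))
  have g4 : (((n - n / 2).choose 2 : ℕ) : ℝ) ≤ x ^ 2 / 2 :=
    le_trans (choose2_le _) (div_le_div_of_nonneg_right (pow_le_pow_left₀ hb0 hb 2) (by norm_num))
  have g5 : (((n / 2).choose 2 : ℕ) : ℝ) * (((n - n / 2).choose 2 : ℕ) : ℝ) ≤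
      (x ^ 2 / 2) * (x ^ 2 / 2) := mul_le_mul g3 g4 (Nat.cast_nonneg _) (by positivity)
  have e1 : ((n : ℝ) + 1) ^ 4 = 16 * x ^ 4 := by rw [hx]; ring
  rw [e1]
  nlinarith [h3, h4, h5, g1, g2, g5]

/-- For all large `n` there are 4-graphs without `K_5^4` with at least `(11/16 - ε) (n choose 4)` edges. -/
theorem lower : ∀ ε : ℝ, 0 < ε → ∃ N : ℕ, ∀ n : ℕ, N ≤ n → ∃ H : Finset (Finset (Fin n)),
    (∀ e ∈ H, e.card = 4) ∧
    (∀ S : Finset (Fin n), S.card = 5 → ∃ e ∈ S.powersetCard 4, e ∉ H) ∧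
    ((11 / 16 : ℝ) - ε) * ((n.choose 4 : ℕ) : ℝ) ≤ (H.card : ℝ) := by
  intro ε hε
  have h1 : Filter.Tendsto (fun n : ℕ => (1 + 1 / (n : ℝ)) ^ 4) Filter.atTop (nhds 1) := by
    have h0 : Filter.Tendsto (fun n : ℕ => (1 : ℝ) / (n : ℝ)) Filter.atTop (nhds 0) :=
      tendsto_one_div_atTop_nhds_zero_nat
    have h1 := ((tendsto_const_nhds (x := (1 : ℝ))).add h0).pow 4
    simpa using h1
  have h2 := tendsto_desc 4
  have h3 : Filter.Tendsto (fun n : ℕ => (5 / 16 : ℝ) * (1 + 1 / (n : ℝ)) ^ 4 -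
      (5 / 16 + ε) * ((n.descFactorial 4 : ℝ) / (n : ℝ) ^ 4)) Filter.atTop
      (nhds ((5 / 16 : ℝ) * 1 - (5 / 16 + ε) * 1)) := (h1.const_mul _).sub (h2.const_mul _)
  have h4 := h3.eventually (gt_mem_nhds (show (5 / 16 : ℝ) * 1 - (5 / 16 + ε) * 1 < 0 by linarith))
  obtain ⟨N, hN⟩ := Filter.eventually_atTop.mp h4
  refine ⟨max N 1, fun n hn => ?_⟩
  have hn1 : 1 ≤ n := le_trans (le_max_right _ _) hn
  have hn0 : (0 : ℝ) < n := by exact_mod_cast hn1
  have h5 := hN n (le_trans (le_max_left _ _) hn)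
  obtain ⟨H, hH1, hH2, hH3⟩ := lower_card n
  refine ⟨H, hH1, hH2, le_trans ?_ hH3⟩
  have h6 : (n.descFactorial 4 : ℝ) = 24 * ((n.choose 4 : ℕ) : ℝ) := by
    rw [Nat.descFactorial_eq_factorial_mul_choose]
    push_cast
    norm_num [Nat.factorial]
  have h7 : (5 / 16 : ℝ) * ((n : ℝ) + 1) ^ 4 ≤ (5 / 16 + ε) * (24 * ((n.choose 4 : ℕ) : ℝ)) := by
    rw [← h6]
    have h8 : (5 / 16 : ℝ) * (1 + 1 / (n : ℝ)) ^ 4 ≤
        (5 / 16 + ε) * ((n.descFactorial 4 : ℝ) / (n : ℝ) ^ 4) := by linarith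
    have h9 := mul_le_mul_of_nonneg_right h8 (pow_pos hn0 4).le
    have e1 : (5 / 16 : ℝ) * (1 + 1 / (n : ℝ)) ^ 4 * (n : ℝ) ^ 4 = (5 / 16 : ℝ) * ((n : ℝ) + 1) ^ 4 := by
      rw [mul_assoc, ← mul_pow]
      congr 2
      field_simp
    have e2 : (5 / 16 + ε) * ((n.descFactorial 4 : ℝ) / (n : ℝ) ^ 4) * (n : ℝ) ^ 4 =
        (5 / 16 + ε) * (n.descFactorial 4 : ℝ) := by
      field_simp
    rwa [e1, e2] at h9
  linarith

end Pool.Agent.Lib.MP_afdd4d_co
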