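import Mathlib

/-!
# Lanes of natural numbers

A natural number is read as an array of lanes of 40 bits. Additions, shifts, bitwise operations act on
all lanes at once.
-/

namespace Pool.Agent.Lib.MP_afdd4d_co

/-- The `i`-th lane of `A`. -/
def L (A i : ℕ) : ℕ := A / 2 ^ (40 * i) % 2 ^ 40

theorem L_lt (A i : ℕ) : L A i < 2 ^ 40 := Nat.mod_lt _ (by norm_num)

theorem mod_succ_lane (A i : ℕ) :
    A % 2 ^ (40 * (i + 1)) = A % 2 ^ (40 * i) + 2 ^ (40 * i) * L A i := by
  rw [mul_add, mul_one, pow_add, Nat.mod_mul]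
  rfl

theorem L_zero_left (i : ℕ) : L 0 i = 0 := by
  unfold L
  rw [Nat.zero_div, Nat.zero_mod]

theorem mod_add_lt (A B : ℕ) (h : ∀ i, L A i + L B i < 2 ^ 40) (i : ℕ) :
    A % 2 ^ (40 * i) + B % 2 ^ (40 * i) < 2 ^ (40 * i) := by
  induction i with
  | zero => simp [Nat.mod_one]
  | succ i ih =>
    rw [mod_succ_lane, mod_succ_lane, mul_add, mul_one, pow_add]
    have h1 := h i
    have h2 : 2 ^ (40 * i) * (L A i + L B i + 1) ≤ 2 ^ (40 * i) * 2 ^ 40 :=
      Nat.mul_le_mul_left _ h1
    nlinarith [ih, h2]

theorem L_add (A B : ℕ) (h : ∀ i, L A i + L B i < 2 ^ 40) (i : ℕ) :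
    L (A + B) i = L A i + L B i := by
  have h1 := mod_add_lt A B h i
  have h2 : (A + B) / 2 ^ (40 * i) = A / 2 ^ (40 * i) + B / 2 ^ (40 * i) := by
    rw [Nat.add_div (Nat.pos_of_ne_zero (by positivity)), if_neg (by omega), add_zero]
  unfold L at *
  rw [h2, Nat.add_mod]
  exact Nat.mod_eq_of_lt (h i)

theorem L_ext (A B : ℕ) (h : ∀ i, L A i = L B i) : A = B := by
  have h1 : ∀ i, A % 2 ^ (40 * i) = B % 2 ^ (40 * i) := by
    intro i
    induction i with
    | zero => simp [Nat.mod_one]
    | succ i ih => rw [mod_succ_lane, mod_succ_lane, ih, h i]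
  have h2 : A < 2 ^ (40 * (A + B)) := by
    calc A ≤ A + B := Nat.le_add_right _ _
      _ < 2 ^ (A + B) := Nat.lt_two_pow_self
      _ ≤ 2 ^ (40 * (A + B)) := Nat.pow_le_pow_right (by norm_num) (by omega)
  have h3 : B < 2 ^ (40 * (A + B)) := by
    calc B ≤ A + B := Nat.le_add_left _ _
      _ < 2 ^ (A + B) := Nat.lt_two_pow_self
      _ ≤ 2 ^ (40 * (A + B)) := Nat.pow_le_pow_right (by norm_num) (by omega)
  have h4 := h1 (A + B)
  rwa [Nat.mod_eq_of_lt h2, Nat.mod_eq_of_lt h3] at h4

theorem L_shl (A d i : ℕ) : L (A <<< (40 * d)) i = if i < d then 0 else L A (i - d) := by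
  unfold L
  rw [Nat.shiftLeft_eq]
  split_ifs with h
  · obtain ⟨k, rfl⟩ : ∃ k, d = i + (k + 1) := ⟨d - i - 1, by omega⟩
    have h1 : A * 2 ^ (40 * (i + (k + 1))) = (A * 2 ^ (40 * k) * 2 ^ 40) * 2 ^ (40 * i) := by
      have h2 : 40 * (i + (k + 1)) = 40 * k + 40 + 40 * i := by ring
      rw [h2, pow_add, pow_add, ← mul_assoc, ← mul_assoc]
    rw [h1, Nat.mul_div_cancel _ (Nat.pos_of_ne_zero (by positivity))]
    exact Nat.mul_mod_left _ _
  · obtain ⟨k, rfl⟩ : ∃ k, i = k + d := ⟨i - d, by omega⟩
    rw [Nat.add_sub_cancel, mul_add, pow_add, mul_comm (2 ^ (40 * k)), mul_comm A,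
      Nat.mul_div_mul_left _ _ (Nat.pos_of_ne_zero (by positivity))]

theorem L_shr (A d i : ℕ) : L (A >>> (40 * d)) i = L A (i + d) := by
  unfold L
  rw [Nat.shiftRight_eq_div_pow, Nat.div_div_eq_div_mul, ← pow_add]
  congr 3
  ring

theorem L_eq_shr (A i : ℕ) : L A i = (A >>> (40 * i)) % 2 ^ 40 := by
  rw [Nat.shiftRight_eq_div_pow]; rfl

theorem L_and (A B i : ℕ) : L (A &&& B) i = L A i &&& L B i := by
  simp only [L_eq_shr]
  rw [Nat.shiftRight_and_distrib, Nat.and_mod_two_pow]

theorem L_xor (A B i : ℕ) : L (A ^^^ B) i = L A i ^^^ L B i := by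
  simp only [L_eq_shr]
  rw [Nat.shiftRight_xor_distrib, Nat.xor_mod_two_pow]

theorem and_full (x : ℕ) (h : x < 2 ^ 40) : x &&& (2 ^ 40 - 1) = x := by
  rw [Nat.and_two_pow_sub_one_eq_mod]
  exact Nat.mod_eq_of_lt h

theorem L_eq_zero_of_lt (A N i : ℕ) (h : A < 2 ^ (40 * N)) (hi : N ≤ i) : L A i = 0 := by
  unfold L
  rw [Nat.div_eq_of_lt, Nat.zero_mod]
  exact lt_of_lt_of_le h (Nat.pow_le_pow_right (by norm_num) (by omega))

theorem lt_of_L_eq_zero (A N : ℕ) (h : ∀ i, N ≤ i → L A i = 0) : A < 2 ^ (40 * N) := by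
  have h1 : A % 2 ^ (40 * N) = A := by
    apply L_ext
    intro i
    by_cases hi : i < N
    · unfold L
      rw [← Nat.mod_mul_right_div_self, ← Nat.mod_mul_right_div_self, ← pow_add]
      rw [Nat.mod_mod_of_dvd]
      exact pow_dvd_pow _ (by omega)
    · rw [h i (by omega)]
      exact L_eq_zero_of_lt _ N _ (Nat.mod_lt _ (Nat.pos_of_ne_zero (by positivity))) (by omega)
  rw [← h1]
  exact Nat.mod_lt _ (Nat.pos_of_ne_zero (by positivity))

/-- Concatenation. -/
theorem L_cat (A B N i : ℕ) (hA : A < 2 ^ (40 * N)) :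
    L (A + B <<< (40 * N)) i = if i < N then L A i else L B (i - N) := by
  have h0 : ∀ j, L A j + L (B <<< (40 * N)) j < 2 ^ 40 := by
    intro j
    rw [L_shl]
    split_ifs with h
    · rw [add_zero]; exact L_lt _ _
    · rw [L_eq_zero_of_lt A N j hA (by omega), zero_add]; exact L_lt _ _
  rw [L_add _ _ h0, L_shl]
  split_ifs with h
  · rw [add_zero]
  · rw [L_eq_zero_of_lt A N i hA (by omega), zero_add]

/-- Subtraction lane by lane. -/
theorem L_sub (A B : ℕ) (h : ∀ i, L B i ≤ L A i) :
    ∀ i, L (A - B) i = L A i - L B i := by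
  -- construct the difference
  have key : ∀ N A B : ℕ, A < 2 ^ (40 * N) → (∀ i, L B i ≤ L A i) →
      ∃ C, ∀ i, L C i = L A i - L B i := by
    intro N
    induction N with
    | zero =>
      intro A B hA _
      refine ⟨0, fun i => ?_⟩
      rw [L_zero_left, L_eq_zero_of_lt A 0 i hA (Nat.zero_le _), Nat.zero_sub]
    | succ N ih =>
      intro A B hA hAB
      have hA' : A % 2 ^ (40 * N) < 2 ^ (40 * N) := Nat.mod_lt _ (Nat.pos_of_ne_zero (by positivity))
      have hm : ∀ (X : ℕ) (i : ℕ), L (X % 2 ^ (40 * N)) i = if i < N then L X i else 0 := by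
        intro X i
        split_ifs with hi
        · unfold L
          rw [← Nat.mod_mul_right_div_self, ← Nat.mod_mul_right_div_self, ← pow_add]
          rw [Nat.mod_mod_of_dvd]
          exact pow_dvd_pow _ (by omega)
        · exact L_eq_zero_of_lt _ N _ (Nat.mod_lt _ (Nat.pos_of_ne_zero (by positivity)))
            (by omega)
      obtain ⟨C, hC⟩ := ih (A % 2 ^ (40 * N)) (B % 2 ^ (40 * N)) hA' (by
        intro i
        rw [hm, hm]
        split_ifs with hi
        · exact hAB i
        · exact le_rfl)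
      have hClt : C < 2 ^ (40 * N) := by
        apply lt_of_L_eq_zero
        intro i hi
        rw [hC, hm, if_neg (by omega), Nat.zero_sub]
      refine ⟨C + (L A N - L B N) <<< (40 * N), fun i => ?_⟩
      rw [L_cat _ _ _ _ hClt]
      split_ifs with hi
      · rw [hC, hm, hm, if_pos hi, if_pos hi]
      · rcases Nat.eq_or_lt_of_le (not_lt.mp hi) with h1 | h1
        · subst h1
          rw [Nat.sub_self]
          unfold L
          rw [mul_zero, pow_zero, Nat.div_one]
          exact Nat.mod_eq_of_lt (lt_of_le_of_lt (Nat.sub_le _ _) (Nat.mod_lt _ (by norm_num)))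
        · rw [L_eq_zero_of_lt A (N + 1) i hA (by omega), Nat.zero_sub]
          apply L_eq_zero_of_lt _ 1
          · calc L A N - L B N ≤ L A N := Nat.sub_le _ _
              _ < 2 ^ 40 := L_lt _ _
              _ = 2 ^ (40 * 1) := by norm_num
          · omega
  obtain ⟨N, hN⟩ : ∃ N, A < 2 ^ (40 * N) := ⟨A, by
    calc A < 2 ^ A := Nat.lt_two_pow_self
      _ ≤ 2 ^ (40 * A) := Nat.pow_le_pow_right (by norm_num) (by omega)⟩
  obtain ⟨C, hC⟩ := key N A B hN h
  have hsum : C + B = A := by
    apply L_ext
    intro i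
    have h0 : ∀ j, L C j + L B j < 2 ^ 40 := by
      intro j
      rw [hC, Nat.sub_add_cancel (h j)]
      exact L_lt _ _
    rw [L_add _ _ h0, hC, Nat.sub_add_cancel (h i)]
  intro i
  rw [← hC]
  congr 1
  omega

theorem L_small (x : ℕ) (hx : x < 2 ^ 40) (i : ℕ) : L x i = if i = 0 then x else 0 := by
  split_ifs with h
  · subst h
    unfold L
    rw [mul_zero, pow_zero, Nat.div_one]
    exact Nat.mod_eq_of_lt hx
  · exact L_eq_zero_of_lt _ 1 _ (by simpa using hx) (by omega)

theorem L_smul (c A : ℕ) (h : ∀ i, c * L A i < 2 ^ 40) (i : ℕ) : L (c * A) i = c * L A i := by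
  induction c generalizing i with
  | zero => simp [L_zero_left]
  | succ c ih =>
    have h1 : ∀ j, c * L A j < 2 ^ 40 := fun j =>
      lt_of_le_of_lt (Nat.mul_le_mul_right _ (Nat.le_succ c)) (h j)
    rw [Nat.succ_mul, Nat.succ_mul]
    rw [L_add _ _ (fun j => by rw [ih h1 j, ← Nat.succ_mul]; exact h j), ih h1 i]

theorem L_mod (X N i : ℕ) : L (X % 2 ^ (40 * N)) i = if i < N then L X i else 0 := by
  split_ifs with hi
  · unfold L
    rw [← Nat.mod_mul_right_div_self, ← Nat.mod_mul_right_div_self, ← pow_add]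
    rw [Nat.mod_mod_of_dvd]
    exact pow_dvd_pow _ (by omega)
  · exact L_eq_zero_of_lt _ N _ (Nat.mod_lt _ (Nat.pos_of_ne_zero (by positivity))) (by omega)

/-! ### Indices as sequences of bits -/

/-- The number with bits `b 0, …, b (n-1)`. -/
def idx : ℕ → (ℕ → Bool) → ℕ
  | 0, _ => 0
  | n + 1, b => idx n b + 2 ^ n * (b n).toNat

theorem idx_lt (n : ℕ) (b : ℕ → Bool) : idx n b < 2 ^ n := by
  induction n with
  | zero => simp [idx]
  | succ n ih =>
    rw [idx, pow_succ]
    have : (b n).toNat ≤ 1 := Bool.toNat_le _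
    nlinarith

theorem testBit_idx (n : ℕ) (b : ℕ → Bool) (r : ℕ) :
    (idx n b).testBit r = (decide (r < n) && b r) := by
  induction n with
  | zero => simp [idx]
  | succ n ih =>
    rw [idx, add_comm, Nat.testBit_two_pow_mul_add _ (idx_lt n b)]
    split_ifs with h
    · rw [ih]
      have : r < n + 1 := by omega
      simp [h, this]
    · rcases Nat.eq_or_lt_of_le (not_lt.mp h) with h1 | h1
      · subst h1
        cases b n <;> simp
      · have h2 : ¬ r < n + 1 := by omega
        have h3 : (b n).toNat.testBit (r - n) = false := by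
          apply Nat.testBit_lt_two_pow
          calc (b n).toNat ≤ 1 := Bool.toNat_le _
            _ < 2 ^ (r - n) := Nat.one_lt_two_pow (by omega)
        simp [h2, h3]

theorem idx_testBit (n x : ℕ) (hx : x < 2 ^ n) : idx n x.testBit = x := by
  apply Nat.eq_of_testBit_eq
  intro r
  rw [testBit_idx]
  by_cases h : r < n
  · simp [h]
  · have : x.testBit r = false :=
      Nat.testBit_lt_two_pow (lt_of_lt_of_le hx (Nat.pow_le_pow_right (by norm_num) (by omega)))
    simp [this]

theorem idx_congr (n : ℕ) (b b' : ℕ → Bool) (h : ∀ r < n, b r = b' r) : idx n b = idx n b' := by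
  induction n with
  | zero => rfl
  | succ n ih =>
    rw [idx, idx, ih fun r hr => h r (by omega), h n (by omega)]

theorem idx_inj (n : ℕ) (b b' : ℕ → Bool) (h : idx n b = idx n b') : ∀ r < n, b r = b' r := by
  intro r hr
  have h1 := congrArg (fun x => Nat.testBit x r) h
  simp only [testBit_idx, hr, decide_true, Bool.true_and] at h1
  exact h1

/-! ### Masks, exchange of two index bits, duplication -/

/-- All bits set in the lanes whose index has bit `p` equal to one and bit `q` equal to zero. -/
def msk (p q : ℕ) : ℕ → ℕ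
  | 0 => 2 ^ 40 - 1
  | k + 1 => bif Nat.beq k p then (msk p q k) <<< (40 * 2 ^ k)
      else bif Nat.beq k q then msk p q k
      else msk p q k + (msk p q k) <<< (40 * 2 ^ k)

theorem msk_spec (p q : ℕ) (hpq : p ≠ q) (n : ℕ) :
    msk p q n < 2 ^ (40 * 2 ^ n) ∧
    ∀ b, L (msk p q n) (idx n b) =
      if (p < n → b p = true) ∧ (q < n → b q = false) then 2 ^ 40 - 1 else 0 := by
  induction n with
  | zero =>
    refine ⟨by simp [msk], fun b => ?_⟩
    simp only [idx, msk, Nat.not_lt_zero, false_imp_iff, and_self, if_true]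
    rw [L_small _ (by norm_num)]
    simp
  | succ n ih =>
    obtain ⟨h1, h2⟩ := ih
    have hz : ∀ i, L 0 i = 0 := L_zero_left
    have hpow : (40 * 2 ^ (n + 1)) = 40 * (2 ^ n + 2 ^ n) := by rw [pow_succ]; ring
    rw [msk]
    by_cases hp : n = p
    · have e1 : Nat.beq n p = true := by rw [hp]; exact Nat.beq_refl p
      rw [e1]
      simp only [cond_true]
      constructor
      · apply lt_of_L_eq_zero
        intro i hi
        rw [L_shl]
        have : 2 ^ (n + 1) = 2 ^ n + 2 ^ n := by rw [pow_succ]; ring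
        rw [if_neg (by omega)]
        exact L_eq_zero_of_lt _ _ _ h1 (by omega)
      · intro b
        rw [idx, L_shl]
        have hlt := idx_lt n b
        have hqn : ¬ q = n := by omega
        cases hb : b n
        · rw [Bool.toNat_false, mul_zero, add_zero, if_pos hlt]
          rw [if_neg]
          rintro ⟨h3, _⟩
          have := h3 (by omega)
          rw [← hp, hb] at this
          exact Bool.noConfusion this
        · rw [Bool.toNat_true, mul_one, if_neg (by omega), Nat.add_sub_cancel, h2]
          congr 1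
          apply propext
          constructor
          · rintro ⟨_, h4⟩
            refine ⟨fun _ => by rw [← hp]; exact hb, fun h5 => h4 (by omega)⟩
          · rintro ⟨_, h4⟩
            exact ⟨fun h5 => by omega, fun h5 => h4 (by omega)⟩
    · have e1 : Nat.beq n p = false := by
        rw [Bool.eq_false_iff]
        intro h
        exact hp (Nat.eq_of_beq_eq_true h)
      rw [e1]
      simp only [cond_false]
      by_cases hq : n = q
      · have e2 : Nat.beq n q = true := by rw [hq]; exact Nat.beq_refl q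
        rw [e2]
        simp only [cond_true]
        constructor
        · exact lt_of_lt_of_le h1 (Nat.pow_le_pow_right (by norm_num) (by rw [hpow]; omega))
        · intro b
          rw [idx]
          have hlt := idx_lt n b
          cases hb : b n
          · rw [Bool.toNat_false, mul_zero, add_zero, h2]
            congr 1
            apply propext
            constructor
            · rintro ⟨h3, _⟩
              exact ⟨fun h5 => h3 (by omega), fun _ => by rw [← hq]; exact hb⟩
            · rintro ⟨h3, _⟩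
              exact ⟨fun h5 => h3 (by omega), fun h5 => by omega⟩
          · rw [Bool.toNat_true, mul_one, L_eq_zero_of_lt _ _ _ h1 (by omega)]
            rw [if_neg]
            rintro ⟨_, h3⟩
            have := h3 (by omega)
            rw [← hq, hb] at this
            exact Bool.noConfusion this
      · have e2 : Nat.beq n q = false := by
          rw [Bool.eq_false_iff]
          intro h
          exact hq (Nat.eq_of_beq_eq_true h)
        rw [e2]
        simp only [cond_false]
        constructor
        · apply lt_of_L_eq_zero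
          intro i hi
          rw [L_cat _ _ _ _ h1]
          have : 2 ^ (n + 1) = 2 ^ n + 2 ^ n := by rw [pow_succ]; ring
          rw [if_neg (by omega)]
          exact L_eq_zero_of_lt _ _ _ h1 (by omega)
        · intro b
          rw [idx, L_cat _ _ _ _ h1]
          have hlt := idx_lt n b
          have hc : ((p < n → b p = true) ∧ (q < n → b q = false)) ↔
              ((p < n + 1 → b p = true) ∧ (q < n + 1 → b q = false)) := by
            constructor
            · rintro ⟨h3, h4⟩
              exact ⟨fun h5 => h3 (by omega), fun h5 => h4 (by omega)⟩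
            · rintro ⟨h3, h4⟩
              exact ⟨fun h5 => h3 (by omega), fun h5 => h4 (by omega)⟩
          cases hb : b n
          · rw [Bool.toNat_false, mul_zero, add_zero, if_pos hlt, h2, if_congr hc rfl rfl]
          · rw [Bool.toNat_true, mul_one, if_neg (by omega), Nat.add_sub_cancel, h2,
              if_congr hc rfl rfl]

end Pool.Agent.Lib.MP_afdd4d_co
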