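import Pool.Agent.Lib.MP_afdd4d_co.Lane

/-!
# Lanes, part 2: exchange of two index bits, duplication, programs, comparison
-/

namespace Pool.Agent.Lib.MP_afdd4d_co

open Finset

theorem idx_eq_sum (n : ℕ) (b : ℕ → Bool) : idx n b = ∑ r ∈ range n, 2 ^ r * (b r).toNat := by
  induction n with
  | zero => simp [idx]
  | succ n ih => rw [idx, ih, Finset.sum_range_succ]

theorem idx_swap (n p q : ℕ) (hpq : p < q) (hq : q < n) (b : ℕ → Bool) :
    idx n (b ∘ Equiv.swap p q) + 2 ^ p * (b p).toNat + 2 ^ q * (b q).toNat =
      idx n b + 2 ^ p * (b q).toNat + 2 ^ q * (b p).toNat := by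
  have hp : p ∈ range n := Finset.mem_range.mpr (by omega)
  have hq' : q ∈ (range n).erase p := Finset.mem_erase.mpr ⟨by omega, Finset.mem_range.mpr hq⟩
  rw [idx_eq_sum, idx_eq_sum, ← Finset.add_sum_erase _ _ hp, ← Finset.add_sum_erase _ _ hq',
    ← Finset.add_sum_erase (range n) (fun r => 2 ^ r * (b r).toNat) hp,
    ← Finset.add_sum_erase ((range n).erase p) (fun r => 2 ^ r * (b r).toNat) hq']
  have h1 : ∑ x ∈ ((range n).erase p).erase q, 2 ^ x * ((b ∘ Equiv.swap p q) x).toNat =
      ∑ x ∈ ((range n).erase p).erase q, 2 ^ x * (b x).toNat := by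
    refine Finset.sum_congr rfl fun x hx => ?_
    rw [Finset.mem_erase, Finset.mem_erase] at hx
    rw [Function.comp_apply, Equiv.swap_apply_of_ne_of_ne hx.2.1 hx.1]
  rw [h1]
  simp only [Function.comp_apply, Equiv.swap_apply_left, Equiv.swap_apply_right]
  ring

/-- Second half of the exchange. -/
def swp3 (A t d : ℕ) : ℕ := (A ^^^ t) ^^^ (t <<< d)

/-- Exchange of the bits `p < q` of the lane index in an array with `2 ^ n` lanes. -/
def swp (n p q A : ℕ) : ℕ :=
  swp3 A ((A ^^^ (A >>> (40 * (2 ^ q - 2 ^ p)))) &&& msk p q n) (40 * (2 ^ q - 2 ^ p))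

theorem swp_spec (n p q A : ℕ) (hpq : p < q) (hq : q < n) (hA : A < 2 ^ (40 * 2 ^ n)) :
    swp n p q A < 2 ^ (40 * 2 ^ n) ∧
    ∀ b, L (swp n p q A) (idx n b) = L A (idx n (b ∘ Equiv.swap p q)) := by
  obtain ⟨hm1, hm2⟩ := msk_spec p q (by omega) n
  have hp : p < n := by omega
  have h2pq : 2 ^ p < 2 ^ q := Nat.pow_lt_pow_right (by norm_num) hpq
  set D := 2 ^ q - 2 ^ p with hD
  set t := (A ^^^ (A >>> (40 * D))) &&& msk p q n with ht
  have hmask : ∀ m, m < 2 ^ n → L (msk p q n) m ≠ 0 →
      m.testBit p = true ∧ m.testBit q = false := by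
    intro m hm hne
    have h1 := hm2 m.testBit
    rw [idx_testBit n m hm] at h1
    by_contra hcon
    apply hne
    rw [h1, if_neg]
    rintro ⟨h3, h4⟩
    exact hcon ⟨h3 hp, h4 hq⟩
  have ht_lane : ∀ m, L t m = (L A m ^^^ L A (m + D)) &&& L (msk p q n) m := by
    intro m
    rw [ht, L_and, L_xor, L_shr]
  have ht_zero : ∀ m, L (msk p q n) m = 0 → L t m = 0 := by
    intro m hm
    rw [ht_lane, hm, Nat.and_zero]
  -- if the mask is nonzero at m then m + D is the exchanged index
  have hshift : ∀ m, L (msk p q n) m ≠ 0 → m < 2 ^ n ∧ m.testBit p = true ∧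
      m.testBit q = false ∧ m + D = idx n (m.testBit ∘ Equiv.swap p q) := by
    intro m hne
    have hm : m < 2 ^ n := by
      by_contra hcon
      exact hne (L_eq_zero_of_lt _ _ _ hm1 (not_lt.mp hcon))
    obtain ⟨h1, h2⟩ := hmask m hm hne
    refine ⟨hm, h1, h2, ?_⟩
    have h3 := idx_swap n p q hpq hq m.testBit
    rw [idx_testBit n m hm, h1, h2] at h3
    simp only [Bool.toNat_true, Bool.toNat_false, mul_one, mul_zero, add_zero] at h3
    omega
  have hres : ∀ i, L (swp n p q A) i =
      (L A i ^^^ L t i) ^^^ (if i < D then 0 else L t (i - D)) := by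
    intro i
    rw [swp, swp3, L_xor, L_xor, L_shl]
  constructor
  · apply lt_of_L_eq_zero
    intro i hi
    rw [hres, L_eq_zero_of_lt A _ i hA hi, ht_zero i (L_eq_zero_of_lt _ _ _ hm1 hi)]
    have : (if i < D then 0 else L t (i - D)) = 0 := by
      split_ifs with h
      · rfl
      · by_contra hne
        have hne2 : L (msk p q n) (i - D) ≠ 0 := fun h0 => hne (ht_zero _ h0)
        obtain ⟨_, _, _, h4⟩ := hshift _ hne2
        rw [Nat.sub_add_cancel (by omega)] at h4
        have := idx_lt n ((i - D).testBit ∘ Equiv.swap p q)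
        omega
    rw [this]
    rfl
  · intro b
    have hlt := idx_lt n b
    have hbit : ∀ r, r < n → (idx n b).testBit r = b r := by
      intro r hr
      rw [testBit_idx]
      simp [hr]
    have hsw := idx_swap n p q hpq hq b
    have hmb := hm2 b
    rw [hres]
    -- the shifted term
    have hshift_b : ∀ _ : D ≤ idx n b, L (msk p q n) (idx n b - D) ≠ 0 →
        b p = false ∧ b q = true := by
      intro hle hne
      obtain ⟨h1, h2, h3, h4⟩ := hshift _ hne
      rw [Nat.sub_add_cancel hle] at h4
      have h5 := idx_inj n _ _ h4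
      constructor
      · rw [h5 p hp, Function.comp_apply, Equiv.swap_apply_left]; exact h3
      · rw [h5 q hq, Function.comp_apply, Equiv.swap_apply_right]; exact h2
    by_cases hbp : b p = true
    · by_cases hbq : b q = true
      · -- both one
        have hcomp : idx n (b ∘ Equiv.swap p q) = idx n b := by
          rw [hbp, hbq] at hsw; omega
        have h0 : L t (idx n b) = 0 := by
          apply ht_zero
          rw [hmb, if_neg]
          rintro ⟨_, h4⟩
          rw [h4 hq] at hbq
          exact Bool.noConfusion hbq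
        have h1 : (if idx n b < D then 0 else L t (idx n b - D)) = 0 := by
          split_ifs with h
          · rfl
          · by_contra hne
            have := (hshift_b (by omega) (fun h0 => hne (ht_zero _ h0))).1
            rw [hbp] at this
            exact Bool.noConfusion this
        rw [hcomp, h0, h1, Nat.xor_zero, Nat.xor_zero]
      · -- p one, q zero
        have hbq' : b q = false := by simpa using hbq
        have hcomp : idx n b + D = idx n (b ∘ Equiv.swap p q) := by
          rw [hbp, hbq'] at hsw
          simp only [Bool.toNat_true, Bool.toNat_false, mul_one, mul_zero, add_zero] at hsw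
          omega
        have h0 : L t (idx n b) = L A (idx n b) ^^^ L A (idx n b + D) := by
          rw [ht_lane, hmb, if_pos ⟨fun _ => hbp, fun _ => hbq'⟩]
          exact and_full _ (Nat.xor_lt_two_pow (L_lt _ _) (L_lt _ _))
        have h1 : (if idx n b < D then 0 else L t (idx n b - D)) = 0 := by
          split_ifs with h
          · rfl
          · by_contra hne
            have := (hshift_b (by omega) (fun h0 => hne (ht_zero _ h0))).1
            rw [hbp] at this
            exact Bool.noConfusion this
        rw [h0, h1, ← Nat.xor_assoc, Nat.xor_self, Nat.zero_xor, Nat.xor_zero, hcomp]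
    · have hbp' : b p = false := by simpa using hbp
      have h0 : L t (idx n b) = 0 := by
        apply ht_zero
        rw [hmb, if_neg]
        rintro ⟨h3, _⟩
        exact hbp (h3 hp)
      by_cases hbq : b q = true
      · -- p zero, q one
        rw [hbp', hbq] at hsw
        simp only [Bool.toNat_true, Bool.toNat_false, mul_one, mul_zero, add_zero] at hsw
        have hle : D ≤ idx n b := by omega
        have hcomp : idx n (b ∘ Equiv.swap p q) = idx n b - D := by omega
        have hmb' := hm2 (b ∘ Equiv.swap p q)
        rw [hcomp, if_pos] at hmb'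
        · have h1 : L t (idx n b - D) = L A (idx n b - D) ^^^ L A (idx n b) := by
            rw [ht_lane, hmb', Nat.sub_add_cancel hle]
            exact and_full _ (Nat.xor_lt_two_pow (L_lt _ _) (L_lt _ _))
          rw [h0, if_neg (by omega), h1, Nat.xor_zero, Nat.xor_comm (L A (idx n b - D)),
            ← Nat.xor_assoc, Nat.xor_self, Nat.zero_xor, hcomp]
        · refine ⟨fun _ => ?_, fun _ => ?_⟩
          · rw [Function.comp_apply, Equiv.swap_apply_left]; exact hbq
          · rw [Function.comp_apply, Equiv.swap_apply_right]; exact hbp'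
      · have hbq' : b q = false := by simpa using hbq
        have hcomp : idx n (b ∘ Equiv.swap p q) = idx n b := by
          rw [hbp', hbq'] at hsw; omega
        have h1 : (if idx n b < D then 0 else L t (idx n b - D)) = 0 := by
          split_ifs with h
          · rfl
          · by_contra hne
            have := (hshift_b (by omega) (fun h0 => hne (ht_zero _ h0))).2
            rw [hbq'] at this
            exact Bool.noConfusion this
        rw [hcomp, h0, h1, Nat.xor_zero, Nat.xor_zero]

/-- Two copies of an array of `2 ^ n` lanes. -/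
def dup (n A : ℕ) : ℕ := A + A <<< (40 * 2 ^ n)

theorem dup_spec (n A : ℕ) (hA : A < 2 ^ (40 * 2 ^ n)) :
    dup n A < 2 ^ (40 * 2 ^ (n + 1)) ∧
    ∀ b, L (dup n A) (idx (n + 1) b) = L A (idx n b) := by
  have h2 : 2 ^ (n + 1) = 2 ^ n + 2 ^ n := by rw [pow_succ]; ring
  constructor
  · apply lt_of_L_eq_zero
    intro i hi
    rw [dup, L_cat _ _ _ _ hA, if_neg (by omega)]
    exact L_eq_zero_of_lt _ _ _ hA (by omega)
  · intro b
    have hlt := idx_lt n b
    rw [dup, idx, L_cat _ _ _ _ hA]
    cases b n
    · rw [Bool.toNat_false, mul_zero, add_zero, if_pos hlt]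
    · rw [Bool.toNat_true, mul_one, if_neg (by omega), Nat.add_sub_cancel]

/-! ### Insertion of an index bit -/

/-- All bits set in the lanes whose index has bit `u` equal to zero. -/
def mskz (u : ℕ) : ℕ → ℕ
  | 0 => 2 ^ 40 - 1
  | k + 1 => bif Nat.beq k u then mskz u k else mskz u k + (mskz u k) <<< (40 * 2 ^ k)

theorem mskz_spec (u n : ℕ) :
    mskz u n < 2 ^ (40 * 2 ^ n) ∧
    ∀ b, L (mskz u n) (idx n b) = if (u < n → b u = false) then 2 ^ 40 - 1 else 0 := by
  induction n with
  | zero =>
    refine ⟨by simp [mskz], fun b => ?_⟩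
    simp only [idx, mskz, Nat.not_lt_zero, false_imp_iff, if_true]
    rw [L_small _ (by norm_num)]
    simp
  | succ n ih =>
    obtain ⟨h1, h2⟩ := ih
    have hpow : (40 * 2 ^ (n + 1)) = 40 * (2 ^ n + 2 ^ n) := by rw [pow_succ]; ring
    rw [mskz]
    by_cases hu : n = u
    · have e1 : Nat.beq n u = true := by rw [hu]; exact Nat.beq_refl u
      rw [e1]
      simp only [cond_true]
      constructor
      · exact lt_of_lt_of_le h1 (Nat.pow_le_pow_right (by norm_num) (by rw [hpow]; omega))
      · intro b
        rw [idx]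
        have hlt := idx_lt n b
        cases hb : b n
        · rw [Bool.toNat_false, mul_zero, add_zero, h2]
          congr 1
          apply propext
          constructor
          · intro _ _
            rw [← hu]; exact hb
          · intro _ h5
            omega
        · rw [Bool.toNat_true, mul_one, L_eq_zero_of_lt _ _ _ h1 (by omega)]
          rw [if_neg]
          intro h3
          have := h3 (by omega)
          rw [← hu, hb] at this
          exact Bool.noConfusion this
    · have e2 : Nat.beq n u = false := by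
        rw [Bool.eq_false_iff]
        intro h
        exact hu (Nat.eq_of_beq_eq_true h)
      rw [e2]
      simp only [cond_false]
      constructor
      · apply lt_of_L_eq_zero
        intro i hi
        rw [L_cat _ _ _ _ h1]
        have : 2 ^ (n + 1) = 2 ^ n + 2 ^ n := by rw [pow_succ]; ring
        rw [if_neg (by omega)]
        exact L_eq_zero_of_lt _ _ _ h1 (by omega)
      · intro b
        rw [idx, L_cat _ _ _ _ h1]
        have hlt := idx_lt n b
        have hc : (u < n → b u = false) ↔ (u < n + 1 → b u = false) := by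
          constructor
          · intro h3 h5
            exact h3 (by omega)
          · intro h3 h5
            exact h3 (by omega)
        cases hb : b n
        · rw [Bool.toNat_false, mul_zero, add_zero, if_pos hlt, h2, if_congr hc rfl rfl]
        · rw [Bool.toNat_true, mul_one, if_neg (by omega), Nat.add_sub_cancel, h2,
            if_congr hc rfl rfl]

/-- Third part of the insertion. -/
def ins3 (Z d : ℕ) : ℕ := Z + Z <<< d

/-- Second part of the insertion. -/
def ins2 (A A0 d : ℕ) : ℕ := A0 + (A ^^^ A0) <<< d

/-- The array with `2 ^ (n+1)` lanes in which bit `n` of the index plays the role of bit `u`, and bit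
`u` plays no role. -/
def ins (n u A : ℕ) : ℕ :=
  bif Nat.beq u n then dup n A
  else ins3 (ins2 A (A &&& mskz u n) (40 * (2 ^ n - 2 ^ u))) (40 * 2 ^ u)

theorem testBit_add_pow (m u : ℕ) (h : m.testBit u = false) : (m + 2 ^ u).testBit u = true := by
  rw [Nat.testBit_eq_decide_div_mod_eq] at h ⊢
  rw [decide_eq_false_iff_not] at h
  rw [decide_eq_true_eq, Nat.add_div_right _ (Nat.two_pow_pos u)]
  omega

theorem testBit_add_pow' (m u : ℕ) (h : m.testBit u = true) : (m + 2 ^ u).testBit u = false := by
  rw [Nat.testBit_eq_decide_div_mod_eq] at h ⊢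
  rw [decide_eq_true_eq] at h
  rw [decide_eq_false_iff_not, Nat.add_div_right _ (Nat.two_pow_pos u)]
  omega

theorem ins_spec (n u A : ℕ) (hu : u ≤ n) (hA : A < 2 ^ (40 * 2 ^ n)) :
    ins n u A < 2 ^ (40 * 2 ^ (n + 1)) ∧
    ∀ b, L (ins n u A) (idx (n + 1) b) = L A (idx n (b ∘ Equiv.swap u n)) := by
  rcases Nat.eq_or_lt_of_le hu with hun | hun
  · have e1 : Nat.beq u n = true := by rw [hun]; exact Nat.beq_refl n
    rw [ins, e1, cond_true, hun, Equiv.swap_self]
    exact dup_spec n A hA
  · have e1 : Nat.beq u n = false := by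
      rw [Bool.eq_false_iff]
      intro h
      exact absurd (Nat.eq_of_beq_eq_true h) (by omega)
    rw [ins, e1, cond_false]
    obtain ⟨hm1, hm2⟩ := mskz_spec u n
    set A0 := A &&& mskz u n with hA0
    have h2pow : 2 ^ u < 2 ^ n := Nat.pow_lt_pow_right (by norm_num) hun
    have h2n : 2 ^ (n + 1) = 2 ^ n + 2 ^ n := by rw [pow_succ]; ring
    set D := 2 ^ n - 2 ^ u with hD
    have hD' : D + 2 ^ u = 2 ^ n := by rw [hD]; omega
    -- lanes of A0 and of A xor A0
    have hl0 : ∀ m, L A0 m = if m.testBit u = true then 0 else L A m := by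
      intro m
      by_cases hm : m < 2 ^ n
      · rw [hA0, L_and]
        have h1 := hm2 m.testBit
        rw [idx_testBit n m hm] at h1
        rw [h1]
        cases hb : m.testBit u
        · rw [if_pos (fun _ => rfl), and_full _ (L_lt _ _)]
          simp
        · rw [if_neg (fun h => Bool.noConfusion (h hun)), Nat.and_zero]
          simp
      · rw [hA0, L_and, L_eq_zero_of_lt _ _ _ hm1 (not_lt.mp hm), Nat.and_zero,
          L_eq_zero_of_lt _ _ _ hA (not_lt.mp hm)]
        simp
    have hl1 : ∀ m, L (A ^^^ A0) m = if m.testBit u = true then L A m else 0 := by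
      intro m
      rw [L_xor, hl0]
      split_ifs
      · exact Nat.xor_zero _
      · exact Nat.xor_self _
    have h0z : ∀ m, 2 ^ n ≤ m → L A0 m = 0 := by
      intro m hm
      rw [hl0, L_eq_zero_of_lt _ _ _ hA hm]
      simp
    have h1z : ∀ m, 2 ^ n ≤ m → L (A ^^^ A0) m = 0 := by
      intro m hm
      rw [hl1, L_eq_zero_of_lt _ _ _ hA hm]
      simp
    have hpowle : ∀ m, m.testBit u = true → 2 ^ u ≤ m := by
      intro m hm
      by_contra hcon
      rw [Nat.testBit_lt_two_pow (not_le.mp hcon)] at hm
      exact Bool.noConfusion hm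
    -- lanes of Z
    set Z := ins2 A A0 (40 * D) with hZ
    have hadd : ∀ i, L A0 i + L ((A ^^^ A0) <<< (40 * D)) i < 2 ^ 40 := by
      intro i
      rw [L_shl]
      split_ifs with h3
      · rw [add_zero]; exact L_lt _ _
      · by_cases h4 : i < 2 ^ n
        · have h5 : L (A ^^^ A0) (i - D) = 0 := by
            rw [hl1, if_neg]
            intro h6
            have := hpowle _ h6
            omega
          rw [h5, add_zero]; exact L_lt _ _
        · rw [h0z i (not_lt.mp h4), zero_add]; exact L_lt _ _
    have hZl : ∀ i, L Z i = L A0 i + if i < D then 0 else L (A ^^^ A0) (i - D) := by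
      intro i
      rw [hZ, ins2, L_add _ _ hadd, L_shl]
    have hZu : ∀ m, m.testBit u = true → L Z m = 0 := by
      intro m hm
      rw [hZl, hl0, if_pos hm, zero_add]
      split_ifs with h3
      · rfl
      · rw [hl1, if_neg]
        intro h4
        -- m - D has bit u, m = (m - D) + D, D = 2^n - 2^u
        have h6 : (m - D) + D = m := Nat.sub_add_cancel (not_lt.mp h3)
        have h7 : (m - D) + 2 ^ n = m + 2 ^ u := by
          rw [← hD', ← add_assoc, h6]
        have h8 := testBit_add_pow' m u hm
        rw [← h7, Nat.testBit_eq_decide_div_mod_eq] at h8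
        rw [Nat.testBit_eq_decide_div_mod_eq] at h4
        rw [decide_eq_true_eq] at h4
        rw [decide_eq_false_iff_not] at h8
        obtain ⟨k, hk⟩ : ∃ k, n = u + (k + 1) := ⟨n - u - 1, by omega⟩
        have h9 : 2 ^ n = 2 ^ u * (2 * 2 ^ k) := by rw [hk, pow_add, pow_succ]; ring
        rw [h9, Nat.add_mul_div_left _ _ (Nat.two_pow_pos u)] at h8
        omega
    have hZz : ∀ m, 2 ^ (n + 1) ≤ m → L Z m = 0 := by
      intro m hm
      rw [hZl, h0z m (by omega), zero_add]
      split_ifs with h3
      · rfl
      · apply h1z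
        have := Nat.two_pow_pos u
        omega
    -- lanes of the result
    have hadd2 : ∀ i, L Z i + L (Z <<< (40 * 2 ^ u)) i < 2 ^ 40 := by
      intro i
      rw [L_shl]
      split_ifs with h3
      · rw [add_zero]; exact L_lt _ _
      · cases hb : i.testBit u
        · have h4 : L Z (i - 2 ^ u) = 0 := by
            apply hZu
            by_contra h5
            rw [Bool.not_eq_true] at h5
            have h6 := testBit_add_pow _ _ h5
            rw [Nat.sub_add_cancel (by omega), hb] at h6
            exact Bool.noConfusion h6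
          rw [h4, add_zero]; exact L_lt _ _
        · rw [hZu i hb, zero_add]; exact L_lt _ _
    have hRl : ∀ i, L (ins3 Z (40 * 2 ^ u)) i =
        L Z i + if i < 2 ^ u then 0 else L Z (i - 2 ^ u) := by
      intro i
      rw [ins3, L_add _ _ hadd2, L_shl]
    constructor
    · apply lt_of_L_eq_zero
      intro i hi
      rw [hRl, hZz i hi, zero_add]
      split_ifs with h3
      · rfl
      · by_cases h4 : 2 ^ (n + 1) ≤ i - 2 ^ u
        · exact hZz _ h4
        · apply hZu
          -- i ≥ 2^(n+1), i - 2^u < 2^(n+1)
          rw [Nat.testBit_eq_decide_div_mod_eq, decide_eq_true_eq]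
          obtain ⟨k, hk⟩ : ∃ k, n = u + k := ⟨n - u, by omega⟩
          have h9 : 2 ^ (n + 1) = 2 ^ u * (2 * 2 ^ k) := by rw [hk, pow_succ, pow_add]; ring
          have h10 : (i - 2 ^ u) / 2 ^ u = 2 * 2 ^ k - 1 := by
            rw [Nat.div_eq_iff (Nat.two_pow_pos u)]
            have h11 : 1 ≤ 2 ^ k := Nat.one_le_two_pow
            have h12 : (2 * 2 ^ k - 1) * 2 ^ u = 2 ^ (n + 1) - 2 ^ u := by
              rw [h9, Nat.sub_mul, one_mul, mul_comm (2 ^ u)]
            have h13 : (2 * 2 ^ k - 1 + 1) * 2 ^ u = 2 ^ (n + 1) := by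
              rw [h9, Nat.sub_add_cancel (by omega), mul_comm]
            constructor
            · omega
            · rw [add_mul, one_mul] at h13
              omega
          rw [h10]
          have h11 : 1 ≤ 2 ^ k := Nat.one_le_two_pow
          omega
    · intro b
      have hlt := idx_lt n b
      -- idx n (b ∘ swap u n) in terms of b
      have hsw : idx n (b ∘ Equiv.swap u n) + 2 ^ u * (b u).toNat =
          idx n b + 2 ^ u * (b n).toNat := by
        have hp : u ∈ range n := Finset.mem_range.mpr hun
        rw [idx_eq_sum, idx_eq_sum, ← Finset.add_sum_erase _ _ hp,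
          ← Finset.add_sum_erase (range n) (fun r => 2 ^ r * (b r).toNat) hp]
        have h1 : ∑ x ∈ (range n).erase u, 2 ^ x * ((b ∘ Equiv.swap u n) x).toNat =
            ∑ x ∈ (range n).erase u, 2 ^ x * (b x).toNat := by
          refine Finset.sum_congr rfl fun x hx => ?_
          rw [Finset.mem_erase, Finset.mem_range] at hx
          rw [Function.comp_apply, Equiv.swap_apply_of_ne_of_ne hx.1 (by omega)]
        rw [h1]
        simp only [Function.comp_apply, Equiv.swap_apply_left]
        ring
      have hbu : (idx (n + 1) b).testBit u = b u := by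
        rw [testBit_idx]
        have : u < n + 1 := by omega
        simp [this]
      -- value of Z at an index with bit u zero
      have hZ0 : ∀ b' : ℕ → Bool, b' u = false → (∀ r ≤ n, r ≠ u → b' r = b r) →
          L Z (idx (n + 1) b') = L A (idx n (b ∘ Equiv.swap u n)) := by
        intro b' hb' hbb
        have hlt' := idx_lt n b'
        have hbit : (idx (n + 1) b').testBit u = false := by
          rw [testBit_idx, hb']; simp
        have hsum : idx n b' + 2 ^ u * (b u).toNat = idx n b := by
          have hp : u ∈ range n := Finset.mem_range.mpr hun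
          rw [idx_eq_sum, idx_eq_sum, ← Finset.add_sum_erase _ _ hp,
            ← Finset.add_sum_erase (range n) (fun r => 2 ^ r * (b r).toNat) hp]
          have h1 : ∑ x ∈ (range n).erase u, 2 ^ x * (b' x).toNat =
              ∑ x ∈ (range n).erase u, 2 ^ x * (b x).toNat := by
            refine Finset.sum_congr rfl fun x hx => ?_
            rw [Finset.mem_erase, Finset.mem_range] at hx
            rw [hbb x (by omega) hx.1]
          rw [h1, hb', Bool.toNat_false]
          ring
        have hn : b' n = b n := hbb n le_rfl (by omega)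
        rw [hZl, hl0, hbit, if_neg (by simp)]
        cases hbn : b n
        · have e2 : idx (n + 1) b' = idx n b' := by
            rw [idx, hn, hbn, Bool.toNat_false, mul_zero, add_zero]
          have e3 : idx n (b ∘ Equiv.swap u n) = idx n b' := by
            rw [hbn] at hsw
            simp only [Bool.toNat_false, mul_zero, add_zero] at hsw
            omega
          rw [e2, e3]
          have e4 : (if idx n b' < D then 0 else L (A ^^^ A0) (idx n b' - D)) = 0 := by
            split_ifs with h3
            · rfl
            · rw [hl1, if_neg]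
              intro h4
              have := hpowle _ h4
              omega
          rw [e4, add_zero]
        · have e2 : idx (n + 1) b' = idx n b' + 2 ^ n := by
            rw [idx, hn, hbn, Bool.toNat_true, mul_one]
          have e3 : idx n (b ∘ Equiv.swap u n) = idx n b' + 2 ^ u := by
            rw [hbn] at hsw
            simp only [Bool.toNat_true, mul_one] at hsw
            omega
          rw [e2, e3, L_eq_zero_of_lt A _ _ hA (by omega), zero_add, if_neg (by omega)]
          have e5 : idx n b' + 2 ^ n - D = idx n b' + 2 ^ u := by omega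
          rw [e5, hl1, if_pos]
          apply testBit_add_pow
          rw [testBit_idx, hb']; simp
      rw [hRl]
      cases hbuv : b u
      · rw [hZ0 b hbuv (fun _ _ _ => rfl)]
        have e6 : (if idx (n + 1) b < 2 ^ u then 0 else L Z (idx (n + 1) b - 2 ^ u)) = 0 := by
          split_ifs with h3
          · rfl
          · apply hZu
            by_contra h5
            rw [Bool.not_eq_true] at h5
            have h6 := testBit_add_pow _ _ h5
            rw [Nat.sub_add_cancel (by omega), hbu, hbuv] at h6
            exact Bool.noConfusion h6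
        rw [e6, add_zero]
      · have h3 : (idx (n + 1) b).testBit u = true := by rw [hbu, hbuv]
        have h4 := hpowle _ h3
        rw [hZu _ h3, zero_add, if_neg (by omega)]
        have h5 := hZ0 (fun r => if r = u then false else b r) (by simp)
          (fun r _ hr => by simp [hr])
        rw [← h5]
        congr 1
        -- idx (n+1) b - 2^u = idx (n+1) b'
        have h6 : idx (n + 1) (fun r => if r = u then false else b r) + 2 ^ u =
            idx (n + 1) b := by
          have hp : u ∈ range (n + 1) := Finset.mem_range.mpr (by omega)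
          rw [idx_eq_sum, idx_eq_sum, ← Finset.add_sum_erase _ _ hp,
            ← Finset.add_sum_erase (range (n + 1)) (fun r => 2 ^ r * (b r).toNat) hp]
          have h1 : ∑ x ∈ (range (n + 1)).erase u,
              2 ^ x * ((fun r => if r = u then false else b r) x).toNat =
              ∑ x ∈ (range (n + 1)).erase u, 2 ^ x * (b x).toNat := by
            refine Finset.sum_congr rfl fun x hx => ?_
            rw [Finset.mem_erase] at hx
            simp [hx.1]
          rw [h1, hbuv]
          simp
          ring
        omega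

/-! ### Programs: a pair `(p, q)` with `q ≠ 0` is an exchange, a pair `(u, 0)` an insertion -/

def run : ℕ → List (ℕ × ℕ) → ℕ → ℕ
  | _, [], A => A
  | n, I :: l, A => bif Nat.beq I.2 0 then run (n + 1) l (ins n I.1 A)
      else run n l (swp n I.1 I.2 A)

def nd : ℕ → List (ℕ × ℕ) → ℕ
  | n, [] => n
  | n, I :: l => bif Nat.beq I.2 0 then nd (n + 1) l else nd n l

def okp : ℕ → List (ℕ × ℕ) → Bool
  | _, [] => true
  | n, I :: l => bif Nat.beq I.2 0 then Nat.ble I.1 n && okp (n + 1) l
      else (Nat.ble (I.1 + 1) I.2 && Nat.ble (I.2 + 1) n) && okp n l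

def pm : ℕ → List (ℕ × ℕ) → ℕ → ℕ
  | _, [], r => r
  | n, I :: l, r => bif Nat.beq I.2 0 then pm (n + 1) l (Equiv.swap I.1 n r)
      else pm n l (Equiv.swap I.1 I.2 r)

theorem run_spec (l : List (ℕ × ℕ)) : ∀ (n A : ℕ), okp n l = true → A < 2 ^ (40 * 2 ^ n) →
    run n l A < 2 ^ (40 * 2 ^ (nd n l)) ∧
    ∀ b, L (run n l A) (idx (nd n l) b) = L A (idx n (b ∘ pm n l)) := by
  induction l with
  | nil =>
    intro n A _ hA
    exact ⟨hA, fun b => rfl⟩
  | cons I l ih =>
    intro n A hok hA
    by_cases hI : Nat.beq I.2 0 = true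
    · have e1 : run n (I :: l) A = run (n + 1) l (ins n I.1 A) := by
        rw [run, hI]; rfl
      have e2 : nd n (I :: l) = nd (n + 1) l := by
        rw [nd, hI]; rfl
      have e3 : pm n (I :: l) = pm (n + 1) l ∘ Equiv.swap I.1 n := by
        funext r
        rw [pm, hI]; rfl
      have e4 : (Nat.ble I.1 n && okp (n + 1) l) = true := by
        rw [okp, hI] at hok; exact hok
      rw [Bool.and_eq_true] at e4
      obtain ⟨h5, h6⟩ := e4
      obtain ⟨h1, h2⟩ := ins_spec n I.1 A (Nat.le_of_ble_eq_true h5) hA
      obtain ⟨h3, h4⟩ := ih (n + 1) (ins n I.1 A) h6 h1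
      rw [e1, e2, e3]
      exact ⟨h3, fun b => by rw [h4, h2]; rfl⟩
    · have hI' : Nat.beq I.2 0 = false := by rw [Bool.eq_false_iff]; exact hI
      have e1 : run n (I :: l) A = run n l (swp n I.1 I.2 A) := by
        rw [run, hI']; rfl
      have e2 : nd n (I :: l) = nd n l := by
        rw [nd, hI']; rfl
      have e3 : pm n (I :: l) = pm n l ∘ Equiv.swap I.1 I.2 := by
        funext r
        rw [pm, hI']; rfl
      have e4 : ((Nat.ble (I.1 + 1) I.2 && Nat.ble (I.2 + 1) n) && okp n l) = true := by
        rw [okp, hI'] at hok; exact hok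
      rw [Bool.and_eq_true, Bool.and_eq_true] at e4
      obtain ⟨⟨h5, h6⟩, h7⟩ := e4
      have h5' := Nat.le_of_ble_eq_true h5
      have h6' := Nat.le_of_ble_eq_true h6
      obtain ⟨h1, h2⟩ := swp_spec n I.1 I.2 A (by omega) (by omega) hA
      obtain ⟨h3, h4⟩ := ih n (swp n I.1 I.2 A) h7 h1
      rw [e1, e2, e3]
      exact ⟨h3, fun b => by rw [h4, h2]; rfl⟩

/-! ### Constant arrays, popcounts, comparison -/

def cst (c : ℕ) : ℕ → ℕ
  | 0 => c
  | n + 1 => dup n (cst c n)

theorem cst_spec (c n : ℕ) (hc : c < 2 ^ 40) :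
    cst c n < 2 ^ (40 * 2 ^ n) ∧ ∀ b, L (cst c n) (idx n b) = c := by
  induction n with
  | zero =>
    refine ⟨by simpa [cst] using hc, fun b => ?_⟩
    rw [cst, idx, L_small _ hc, if_pos rfl]
  | succ n ih =>
    obtain ⟨h1, h2⟩ := dup_spec n (cst c n) ih.1
    exact ⟨h1, fun b => by rw [cst, h2, ih.2]⟩

theorem cst_lane (c n : ℕ) (hc : c < 2 ^ 40) (i : ℕ) :
    L (cst c n) i = if i < 2 ^ n then c else 0 := by
  obtain ⟨h1, h2⟩ := cst_spec c n hc
  split_ifs with h
  · rw [← idx_testBit n i h]; exact h2 _
  · exact L_eq_zero_of_lt _ _ _ h1 (by omega)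

/-- Array with lanes `K + a * (number of ones of the index)`. -/
def pcn (a K : ℕ) : ℕ → ℕ
  | 0 => K
  | n + 1 => pcn a K n + (pcn a K n + cst a n) <<< (40 * 2 ^ n)

theorem pcn_spec (a K n : ℕ) (hb : K + a * n < 2 ^ 40) :
    pcn a K n < 2 ^ (40 * 2 ^ n) ∧
    ∀ b, L (pcn a K n) (idx n b) = K + a * ∑ r ∈ range n, (b r).toNat := by
  induction n with
  | zero =>
    have hK : K < 2 ^ 40 := by omega
    refine ⟨by simpa [pcn] using hK, fun b => ?_⟩
    rw [pcn, idx, L_small _ hK, if_pos rfl]
    simp
  | succ n ih =>
    have hb' : K + a * n < 2 ^ 40 := by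
      have : a * n ≤ a * (n + 1) := Nat.mul_le_mul_left _ (Nat.le_succ n)
      omega
    obtain ⟨h1, h2⟩ := ih hb'
    have ha : a < 2 ^ 40 := by
      have : a * 1 ≤ a * (n + 1) := Nat.mul_le_mul_left _ (by omega)
      omega
    obtain ⟨h3, h4⟩ := cst_spec a n ha
    have hle : ∀ i, L (pcn a K n) i ≤ K + a * n := by
      intro i
      by_cases hi : i < 2 ^ n
      · rw [← idx_testBit n i hi, h2]
        have : ∑ r ∈ range n, (i.testBit r).toNat ≤ ∑ _r ∈ range n, 1 :=
          Finset.sum_le_sum fun r _ => Bool.toNat_le _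
        rw [Finset.sum_const, card_range, smul_eq_mul, mul_one] at this
        have := Nat.mul_le_mul_left a this
        omega
      · rw [L_eq_zero_of_lt _ _ _ h1 (by omega)]
        exact Nat.zero_le _
    have hc : ∀ i, L (cst a n) i ≤ a := by
      intro i
      rw [cst_lane a n ha]
      split_ifs <;> omega
    have hadd : ∀ i, L (pcn a K n) i + L (cst a n) i < 2 ^ 40 := by
      intro i
      have := hle i
      have := hc i
      rw [mul_add, mul_one] at hb
      omega
    have h2n : 2 ^ (n + 1) = 2 ^ n + 2 ^ n := by rw [pow_succ]; ring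
    constructor
    · apply lt_of_L_eq_zero
      intro i hi
      rw [pcn, L_cat _ _ _ _ h1, if_neg (by omega), L_add _ _ hadd,
        L_eq_zero_of_lt _ _ _ h1 (by omega), L_eq_zero_of_lt _ _ _ h3 (by omega)]
    · intro b
      have hlt := idx_lt n b
      rw [pcn, idx, L_cat _ _ _ _ h1, Finset.sum_range_succ]
      cases b n
      · rw [Bool.toNat_false, mul_zero, add_zero, add_zero, if_pos hlt, h2]
      · rw [Bool.toNat_true, mul_one, if_neg (by omega), Nat.add_sub_cancel, L_add _ _ hadd, h2, h4]
        ring

/-- The comparison of two arrays of `2 ^ n` lanes. -/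
def cmp (n Th S : ℕ) : Bool := Nat.beq ((Th + cst (2 ^ 39) n - S) &&& cst (2 ^ 39) n) (cst (2 ^ 39) n)

theorem cmp_spec (n Th S : ℕ) (h : cmp n Th S = true)
    (hS : S < 2 ^ (40 * 2 ^ n)) (hT' : ∀ i, L Th i < 2 ^ 39) (hS' : ∀ i, L S i < 2 ^ 39) :
    ∀ i, L S i ≤ L Th i := by
  intro i
  have hc : (2 ^ 39 : ℕ) < 2 ^ 40 := by norm_num
  by_cases hi : i < 2 ^ n
  · have h1 := Nat.eq_of_beq_eq_true h
    have h2 := congrArg (fun X => L X i) h1
    simp only [L_and] at h2
    have hadd : ∀ j, L Th j + L (cst (2 ^ 39) n) j < 2 ^ 40 := by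
      intro j
      rw [cst_lane _ _ hc]
      have := hT' j
      split_ifs <;> omega
    have hsub : ∀ j, L S j ≤ L (Th + cst (2 ^ 39) n) j := by
      intro j
      rw [L_add _ _ hadd, cst_lane _ _ hc]
      have := hS' j
      split_ifs with hj
      · omega
      · rw [L_eq_zero_of_lt _ _ _ hS (by omega)]; exact Nat.zero_le _
    rw [L_sub _ _ hsub, L_add _ _ hadd, cst_lane _ _ hc, if_pos hi] at h2
    have h3 : (2 ^ 39 : ℕ) ≤ L Th i + 2 ^ 39 - L S i := by
      calc (2 ^ 39 : ℕ) = (L Th i + 2 ^ 39 - L S i) &&& 2 ^ 39 := h2.symm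
        _ ≤ _ := Nat.and_le_left
    have := hS' i
    omega
  · rw [L_eq_zero_of_lt _ _ _ hS (by omega)]
    exact Nat.zero_le _

end Pool.Agent.Lib.MP_afdd4d_co
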