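import Pool.Agent.Lib.MP_afdd4d_co.Lane2

/-!
# Lanes, part 3: outer products, sums over families of vectors
-/

namespace Pool.Agent.Lib.MP_afdd4d_co

open Finset

/-- The numbers `f 0, …, f (k-1)` placed at a distance of `s` lanes from each other. -/
def strf (f : ℕ → ℕ) (s : ℕ) : ℕ → ℕ
  | 0 => 0
  | k + 1 => strf f s k + (f k) <<< (40 * (s * k))

theorem strf_spec (f : ℕ → ℕ) (s : ℕ) (hs : 0 < s) (k : ℕ)
    (hf : ∀ j < k, f j < 2 ^ (40 * s)) :
    strf f s k < 2 ^ (40 * (s * k)) ∧
    ∀ i, L (strf f s k) i = if i < s * k then L (f (i / s)) (i % s) else 0 := by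
  induction k with
  | zero =>
    refine ⟨by simp [strf], fun i => ?_⟩
    rw [mul_zero, if_neg (Nat.not_lt_zero i)]
    exact L_zero_left i
  | succ k ih =>
    obtain ⟨h1, h2⟩ := ih fun j hj => hf j (by omega)
    have hfk := hf k (by omega)
    have hlane : ∀ i, L (strf f s (k + 1)) i =
        if i < s * (k + 1) then L (f (i / s)) (i % s) else 0 := by
      intro i
      rw [strf, L_cat _ _ _ _ h1]
      by_cases h3 : i < s * k
      · have h4 : i < s * (k + 1) := by rw [mul_add, mul_one]; omega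
        rw [if_pos h3, if_pos h4, h2, if_pos h3]
      · rw [if_neg h3]
        by_cases h4 : i < s * (k + 1)
        · rw [if_pos h4]
          have h5 : i / s = k := by
            rw [Nat.div_eq_iff hs]
            constructor
            · rw [mul_comm]; omega
            · rw [mul_add, mul_one] at h4
              have : k * s = s * k := mul_comm _ _
              omega
          have h6 : i % s = i - s * k := by
            have := Nat.div_add_mod i s
            rw [h5] at this
            omega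
          rw [h5, h6]
        · rw [if_neg h4]
          apply L_eq_zero_of_lt _ _ _ hfk
          rw [mul_add, mul_one] at h4
          omega
    refine ⟨?_, hlane⟩
    apply lt_of_L_eq_zero
    intro i hi
    rw [hlane, if_neg (by omega)]

theorem mul_strf (A : ℕ) (f : ℕ → ℕ) (s k : ℕ) :
    A * strf f s k = strf (fun j => A * f j) s k := by
  induction k with
  | zero => rfl
  | succ k ih =>
    rw [strf, strf, mul_add, ih, Nat.shiftLeft_eq, Nat.shiftLeft_eq, mul_assoc]

/-- Spread `m` lanes over a distance of `s` lanes from each other. -/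
def spr (s m Y : ℕ) : ℕ := (Y * strf (fun _ => 1) (s - 1) m) &&& strf (fun _ => 2 ^ 40 - 1) s m

theorem spread_aux (s m Y : ℕ) (hs : 1 < s) (hms : m ≤ s) (hY : Y < 2 ^ (40 * m))
    (hb : ∀ i, L Y i < 2 ^ 39) (k : ℕ) (hk : k ≤ m) :
    (∀ i, (s - 1) * k < i → L (Y * strf (fun _ => 1) (s - 1) k) i = 0) ∧
    L (Y * strf (fun _ => 1) (s - 1) k) ((s - 1) * k) < 2 ^ 39 ∧
    ∀ j < k, L (Y * strf (fun _ => 1) (s - 1) k) (s * j) = L Y j := by
  induction k with
  | zero =>
    refine ⟨fun i _ => ?_, ?_, fun j hj => absurd hj (Nat.not_lt_zero j)⟩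
    · rw [strf, mul_zero]; exact L_zero_left i
    · rw [strf, mul_zero, L_zero_left]; norm_num
  | succ k ih =>
    obtain ⟨h1, h2, h3⟩ := ih (by omega)
    have hP : Y * strf (fun _ => 1) (s - 1) (k + 1) =
        Y * strf (fun _ => 1) (s - 1) k + Y <<< (40 * ((s - 1) * k)) := by
      rw [strf, mul_add, Nat.shiftLeft_eq 1, one_mul, Nat.shiftLeft_eq]
    set d := (s - 1) * k with hd
    have hd1 : (s - 1) * (k + 1) = d + (s - 1) := by rw [hd]; ring
    have hadd : ∀ i, L (Y * strf (fun _ => 1) (s - 1) k) i + L (Y <<< (40 * d)) i < 2 ^ 40 := by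
      intro i
      rw [L_shl]
      have h4 := L_lt (Y * strf (fun _ => 1) (s - 1) k) i
      split_ifs with h5
      · omega
      · have h6 := hb (i - d)
        rcases Nat.eq_or_lt_of_le (not_lt.mp h5) with h7 | h7
        · rw [← h7] at h6 ⊢
          omega
        · rw [h1 i h7]
          omega
    have hlane : ∀ i, L (Y * strf (fun _ => 1) (s - 1) (k + 1)) i =
        L (Y * strf (fun _ => 1) (s - 1) k) i + if i < d then 0 else L Y (i - d) := by
      intro i
      rw [hP, L_add _ _ hadd, L_shl]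
    refine ⟨fun i hi => ?_, ?_, fun j hj => ?_⟩
    · rw [hd1] at hi
      rw [hlane, h1 i (by omega), if_neg (by omega), zero_add]
      exact L_eq_zero_of_lt _ _ _ hY (by omega)
    · rw [hd1, hlane, h1 _ (by omega), if_neg (by omega), zero_add]
      exact hb _
    · rw [hlane]
      have hsk : s * k = d + k := by
        obtain ⟨s', rfl⟩ : ∃ s', s = s' + 1 := ⟨s - 1, by omega⟩
        rw [hd, Nat.add_sub_cancel]
        ring
      rcases Nat.lt_or_ge j k with h4 | h4
      · have h5 : s * j < d := by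
          have h6 : s * (j + 1) ≤ s * k := Nat.mul_le_mul_left _ (by omega)
          rw [mul_add, mul_one] at h6
          omega
        rw [h3 j h4, if_pos h5, add_zero]
      · have h5 : j = k := by omega
        subst h5
        rw [if_neg (by omega)]
        have h6 : s * j - d = j := by omega
        rw [h6]
        rcases Nat.eq_zero_or_pos j with h7 | h7
        · subst h7
          rw [strf, mul_zero, L_zero_left, zero_add]
        · rw [h1 _ (by omega), zero_add]

theorem spr_eq (s m Y : ℕ) (hs : 1 < s) (hms : m ≤ s) (hY : Y < 2 ^ (40 * m))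
    (hb : ∀ i, L Y i < 2 ^ 39) : spr s m Y = strf (fun j => L Y j) s m := by
  obtain ⟨_, _, h3⟩ := spread_aux s m Y hs hms hY hb m le_rfl
  have hm : (2 : ℕ) ^ 40 - 1 < 2 ^ 40 := by norm_num
  have h40 : (2 : ℕ) ^ 40 ≤ 2 ^ (40 * s) := Nat.pow_le_pow_right (by norm_num) (by omega)
  obtain ⟨_, h5⟩ := strf_spec (fun _ => 2 ^ 40 - 1) s (by omega) m (fun j _ =>
    lt_of_lt_of_le hm h40)
  obtain ⟨_, h7⟩ := strf_spec (fun j => L Y j) s (by omega) m (fun j _ =>
    lt_of_lt_of_le (L_lt Y j) h40)
  apply L_ext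
  intro i
  rw [spr, L_and, h5, h7]
  by_cases h8 : i < s * m
  · rw [if_pos h8, if_pos h8, L_small _ hm, L_small _ (L_lt Y _)]
    by_cases h9 : i % s = 0
    · rw [if_pos h9, if_pos h9, and_full _ (L_lt _ _)]
      have h10 : i = s * (i / s) := (Nat.mul_div_cancel' (Nat.dvd_of_mod_eq_zero h9)).symm
      have h12 : i / s < m := Nat.div_lt_of_lt_mul h8
      have h11 := h3 (i / s) h12
      rw [← h10] at h11
      exact h11
    · rw [if_neg h9, if_neg h9, Nat.and_zero]
  · rw [if_neg h8, if_neg h8, Nat.and_zero]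

/-- The outer product of an array of `s` lanes and an array of `m` lanes. -/
def outer (s m A B : ℕ) : ℕ := A * spr s m B

theorem outer_spec (s m A B : ℕ) (hs : 1 < s) (hms : m ≤ s) (hA : A < 2 ^ (40 * s))
    (hB : B < 2 ^ (40 * m))
    (hb : ∀ i, L B i < 2 ^ 39) (hab : ∀ i j, L A i * L B j < 2 ^ 40) :
    outer s m A B < 2 ^ (40 * (s * m)) ∧
    ∀ i, L (outer s m A B) i = if i < s * m then L A (i % s) * L B (i / s) else 0 := by
  have hlane : ∀ j i, L (A * L B j) i = L A i * L B j := by
    intro j i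
    rw [mul_comm A, L_smul _ _ (fun i => by rw [mul_comm]; exact hab i j), mul_comm]
  have h1 : ∀ j < m, A * L B j < 2 ^ (40 * s) := by
    intro j _
    apply lt_of_L_eq_zero
    intro i hi
    rw [hlane, L_eq_zero_of_lt _ _ _ hA hi, zero_mul]
  obtain ⟨h2, h3⟩ := strf_spec (fun j => A * L B j) s (by omega) m h1
  rw [outer, spr_eq s m B hs hms hB hb, mul_strf]
  refine ⟨h2, fun i => ?_⟩
  rw [h3, hlane]

/-- The `s` lanes from `s f` on. -/
def sl (s V f : ℕ) : ℕ := (V >>> (40 * (s * f))) % 2 ^ (40 * s)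

theorem sl_spec (s V f : ℕ) : sl s V f < 2 ^ (40 * s) ∧
    ∀ i, L (sl s V f) i = if i < s then L V (i + s * f) else 0 := by
  refine ⟨Nat.mod_lt _ (Nat.pos_of_ne_zero (by positivity)), fun i => ?_⟩
  rw [sl, L_mod, L_shr]

/-- Sums over a list. -/
def lsum (g : ℕ → ℕ) : List ℕ → ℕ
  | [] => 0
  | V :: l => g V + lsum g l

theorem lsum_eq (g : ℕ → ℕ) (l : List ℕ) : lsum g l = (l.map g).sum := by
  induction l with
  | nil => rfl
  | cons V l ih => rw [lsum, ih, List.map_cons, List.sum_cons]

theorem lsum_spec (g : ℕ → ℕ) (M : ℕ) (l : List ℕ) (hM : ∀ V ∈ l, ∀ i, L (g V) i ≤ M)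
    (hl : l.length * M < 2 ^ 40) :
    ∀ i, L (lsum g l) i = (l.map fun V => L (g V) i).sum ∧ L (lsum g l) i ≤ l.length * M := by
  induction l with
  | nil =>
    intro i
    rw [lsum, L_zero_left]
    exact ⟨rfl, Nat.zero_le _⟩
  | cons V l ih =>
    have hlen : (V :: l).length * M = M + l.length * M := by
      rw [List.length_cons]; ring
    rw [hlen] at hl ⊢
    have h1 := ih (fun W hW => hM W (List.mem_cons_of_mem _ hW)) (by omega)
    have h2 := hM V List.mem_cons_self
    have hadd : ∀ i, L (g V) i + L (lsum g l) i < 2 ^ 40 := by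
      intro i
      have := h2 i
      have := (h1 i).2
      omega
    intro i
    rw [lsum, L_add _ _ hadd, List.map_cons, List.sum_cons, (h1 i).1]
    refine ⟨rfl, ?_⟩
    rw [← (h1 i).1]
    exact Nat.add_le_add (h2 i) (h1 i).2

theorem lsum_lt (g : ℕ → ℕ) (M N : ℕ) (l : List ℕ) (hM : ∀ V ∈ l, ∀ i, L (g V) i ≤ M)
    (hl : l.length * M < 2 ^ 40) (hN : ∀ V ∈ l, g V < 2 ^ (40 * N)) :
    lsum g l < 2 ^ (40 * N) := by
  apply lt_of_L_eq_zero
  intro i hi
  rw [(lsum_spec g M l hM hl i).1]
  apply List.sum_eq_zero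
  intro x hx
  rw [List.mem_map] at hx
  obtain ⟨V, hV, rfl⟩ := hx
  exact L_eq_zero_of_lt _ _ _ (hN V hV) hi

/-! ### Gram sums -/

/-- The Gram sum of a family of vectors with offset 8192. -/
def gram (l : List ℕ) (c c' : ℕ) : ℤ :=
  (l.map fun V => ((L V c : ℤ) - 8192) * ((L V c' : ℤ) - 8192)).sum

theorem gram_comm (l : List ℕ) (c c' : ℕ) : gram l c c' = gram l c' c := by
  unfold gram
  congr 1
  apply List.map_congr_left
  intro V _
  ring

/-- A family of vectors is good if it has at most 64 members, of 1024 lanes smaller than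
`2 ^ 14`. -/
def Good (l : List ℕ) : Prop :=
  l.length ≤ 64 ∧ ∀ V ∈ l, V < 2 ^ (40 * 1024) ∧ ∀ i, L V i < 2 ^ 14

theorem gram_expand (l : List ℕ) (c c' : ℕ) :
    gram l c c' = (((l.map fun V => L V c * L V c').sum : ℕ) : ℤ) + 8192 * 8192 * (l.length : ℤ)
      - 8192 * (((l.map fun V => L V c).sum : ℕ) : ℤ)
      - 8192 * (((l.map fun V => L V c').sum : ℕ) : ℤ) := by
  unfold gram
  induction l with
  | nil => simp
  | cons V l ih =>
    simp only [List.map_cons, List.sum_cons, List.length_cons]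
    rw [ih]
    push_cast
    ring

theorem gram_bound (l : List ℕ) (hl : Good l) (c c' : ℕ) :
    -(2 ^ 32) ≤ gram l c c' ∧ gram l c c' ≤ 2 ^ 32 := by
  have key : ∀ m : List ℕ, (∀ V ∈ m, ∀ i, L V i < 2 ^ 14) →
      -(2 ^ 26 * (m.length : ℤ)) ≤ gram m c c' ∧ gram m c c' ≤ 2 ^ 26 * (m.length : ℤ) := by
    intro m
    induction m with
    | nil => intro _; simp [gram]
    | cons V m ih =>
      intro h
      obtain ⟨h1, h2⟩ := ih fun W hW => h W (List.mem_cons_of_mem _ hW)
      have h3 := h V List.mem_cons_self c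
      have h4 := h V List.mem_cons_self c'
      have e1 : gram (V :: m) c c' = ((L V c : ℤ) - 8192) * ((L V c' : ℤ) - 8192) +
          gram m c c' := by
        unfold gram
        rw [List.map_cons, List.sum_cons]
      have h5 : (0 : ℤ) ≤ (L V c : ℤ) := Int.natCast_nonneg _
      have h6 : (0 : ℤ) ≤ (L V c' : ℤ) := Int.natCast_nonneg _
      have h7 : (L V c : ℤ) < 2 ^ 14 := by exact_mod_cast h3
      have h8 : (L V c' : ℤ) < 2 ^ 14 := by exact_mod_cast h4
      have h9 : |((L V c : ℤ) - 8192) * ((L V c' : ℤ) - 8192)| ≤ 8192 * 8192 := by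
        rw [abs_mul]
        apply mul_le_mul
        · rw [abs_le]; constructor <;> norm_num at h7 ⊢ <;> omega
        · rw [abs_le]; constructor <;> norm_num at h8 ⊢ <;> omega
        · exact abs_nonneg _
        · norm_num
      rw [abs_le] at h9
      rw [e1, List.length_cons]
      push_cast
      constructor <;> linarith [h9.1, h9.2]
  obtain ⟨h1, h2⟩ := key l fun V hV => (hl.2 V hV).2
  have h3 : (l.length : ℤ) ≤ 64 := by exact_mod_cast hl.1
  constructor <;> linarith

end Pool.Agent.Lib.MP_afdd4d_co
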