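import Pool.Agent.Lib.MP_afdd4d_co.Lane3

/-!
# Lanes, part 4: tables of Gram sums
-/

namespace Pool.Agent.Lib.MP_afdd4d_co

open Finset

/-- A table of Gram sums, offset by `2 ^ 32`, for a slice of `2 ^ kx` codes and a slice of
`2 ^ ky` codes. -/
def blk0 (kx ky : ℕ) (l : List ℕ) (fx fy : ℕ) : ℕ :=
  (lsum (fun V => outer (2 ^ kx) (2 ^ ky) (sl (2 ^ kx) V fx) (sl (2 ^ ky) V fy)) l +
      cst (2 ^ 32 + 8192 * 8192 * l.length) (kx + ky)) -
    (outer (2 ^ kx) (2 ^ ky) (lsum (fun V => sl (2 ^ kx) V fx) l) (cst 8192 ky) +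
      outer (2 ^ kx) (2 ^ ky) (cst 8192 kx) (lsum (fun V => sl (2 ^ ky) V fy) l))

theorem blk0_spec (kx ky : ℕ) (hk : ky ≤ kx) (hk1 : 1 ≤ kx) (l : List ℕ) (hl : Good l)
    (fx fy : ℕ) :
    blk0 kx ky l fx fy < 2 ^ (40 * (2 ^ kx * 2 ^ ky)) ∧
    ∀ i < 2 ^ kx * 2 ^ ky, (L (blk0 kx ky l fx fy) i : ℤ) =
      2 ^ 32 + gram l (i % 2 ^ kx + 2 ^ kx * fx) (i / 2 ^ kx + 2 ^ ky * fy) := by
  obtain ⟨hlen, hV⟩ := hl
  have hpadd : 2 ^ (kx + ky) = 2 ^ kx * 2 ^ ky := pow_add _ _ _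
  have hs1 : 1 < 2 ^ kx := Nat.one_lt_two_pow (by omega)
  have hms : 2 ^ ky ≤ 2 ^ kx := Nat.pow_le_pow_right (by norm_num) hk
  have hxp : 0 < 2 ^ kx := Nat.two_pow_pos kx
  have hsl : ∀ s, ∀ V ∈ l, ∀ f i, L (sl s V f) i < 2 ^ 14 := by
    intro s V h f i
    rw [(sl_spec s V f).2]
    split_ifs
    · exact (hV V h).2 _
    · norm_num
  -- first term
  have ho : ∀ V ∈ l, outer (2 ^ kx) (2 ^ ky) (sl (2 ^ kx) V fx) (sl (2 ^ ky) V fy) <
      2 ^ (40 * (2 ^ kx * 2 ^ ky)) ∧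
      ∀ i, L (outer (2 ^ kx) (2 ^ ky) (sl (2 ^ kx) V fx) (sl (2 ^ ky) V fy)) i =
        if i < 2 ^ kx * 2 ^ ky then
          L (sl (2 ^ kx) V fx) (i % 2 ^ kx) * L (sl (2 ^ ky) V fy) (i / 2 ^ kx) else 0 := by
    intro V h
    refine outer_spec _ _ _ _ hs1 hms (sl_spec _ V fx).1 (sl_spec _ V fy).1 (fun i => ?_)
      (fun i j => ?_)
    · have := hsl (2 ^ ky) V h fy i
      omega
    · have h1 := hsl (2 ^ kx) V h fx i
      have h2 := hsl (2 ^ ky) V h fy j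
      calc L (sl (2 ^ kx) V fx) i * L (sl (2 ^ ky) V fy) j ≤ 2 ^ 14 * 2 ^ 14 :=
            Nat.mul_le_mul h1.le h2.le
        _ < 2 ^ 40 := by norm_num
  have ho2 : ∀ V ∈ l, ∀ i,
      L (outer (2 ^ kx) (2 ^ ky) (sl (2 ^ kx) V fx) (sl (2 ^ ky) V fy)) i ≤ 2 ^ 28 := by
    intro V h i
    rw [(ho V h).2]
    split_ifs
    · calc L (sl (2 ^ kx) V fx) (i % 2 ^ kx) * L (sl (2 ^ ky) V fy) (i / 2 ^ kx) ≤
            2 ^ 14 * 2 ^ 14 := Nat.mul_le_mul (hsl _ V h fx _).le (hsl _ V h fy _).le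
        _ = 2 ^ 28 := by norm_num
    · exact Nat.zero_le _
  have hb1 : l.length * 2 ^ 28 < 2 ^ 40 := by
    calc l.length * 2 ^ 28 ≤ 64 * 2 ^ 28 := Nat.mul_le_mul_right _ hlen
      _ < 2 ^ 40 := by norm_num
  have hA1 := lsum_spec
    (fun V => outer (2 ^ kx) (2 ^ ky) (sl (2 ^ kx) V fx) (sl (2 ^ ky) V fy)) (2 ^ 28) l ho2 hb1
  have hA1lt := lsum_lt
    (fun V => outer (2 ^ kx) (2 ^ ky) (sl (2 ^ kx) V fx) (sl (2 ^ ky) V fy)) (2 ^ 28)
    (2 ^ kx * 2 ^ ky) l ho2 hb1 (fun V h => (ho V h).1)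
  -- the constant
  have hcK : 2 ^ 32 + 8192 * 8192 * l.length < 2 ^ 40 := by
    have : 8192 * 8192 * l.length ≤ 8192 * 8192 * 64 := Nat.mul_le_mul_left _ hlen
    norm_num at this ⊢
    omega
  have hA2 := cst_lane (2 ^ 32 + 8192 * 8192 * l.length) (kx + ky) hcK
  have hA2lt := (cst_spec (2 ^ 32 + 8192 * 8192 * l.length) (kx + ky) hcK).1
  rw [hpadd] at hA2 hA2lt
  -- sums of slices
  have hb2 : l.length * 2 ^ 14 < 2 ^ 40 := by
    calc l.length * 2 ^ 14 ≤ 64 * 2 ^ 14 := Nat.mul_le_mul_right _ hlen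
      _ < 2 ^ 40 := by norm_num
  have hS : ∀ s f i, L (lsum (fun V => sl s V f) l) i = (l.map fun V => L (sl s V f) i).sum ∧
      L (lsum (fun V => sl s V f) l) i ≤ l.length * 2 ^ 14 := fun s f =>
    lsum_spec (fun V => sl s V f) (2 ^ 14) l (fun V h i => (hsl s V h f i).le) hb2
  have hS' : ∀ s f i, L (lsum (fun V => sl s V f) l) i ≤ 2 ^ 20 := by
    intro s f i
    refine le_trans (hS s f i).2 ?_
    calc l.length * 2 ^ 14 ≤ 64 * 2 ^ 14 := Nat.mul_le_mul_right _ hlen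
      _ = 2 ^ 20 := by norm_num
  have hSlt : ∀ s f, lsum (fun V => sl s V f) l < 2 ^ (40 * s) := fun s f =>
    lsum_lt (fun V => sl s V f) (2 ^ 14) s l (fun V h i => (hsl s V h f i).le) hb2
      (fun V _ => (sl_spec s V f).1)
  have hc6 : (8192 : ℕ) < 2 ^ 40 := by norm_num
  have hC : ∀ k i, L (cst 8192 k) i = if i < 2 ^ k then 8192 else 0 := fun k => cst_lane 8192 k hc6
  have hClt : ∀ k, cst 8192 k < 2 ^ (40 * 2 ^ k) := fun k => (cst_spec 8192 k hc6).1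
  have hC' : ∀ k i, L (cst 8192 k) i ≤ 8192 := by
    intro k i
    rw [hC]
    split_ifs <;> omega
  have hB1 := outer_spec (2 ^ kx) (2 ^ ky) (lsum (fun V => sl (2 ^ kx) V fx) l) (cst 8192 ky)
    hs1 hms (hSlt _ fx) (hClt ky)
    (fun i => lt_of_le_of_lt (hC' ky i) (by norm_num))
    (fun i j => lt_of_le_of_lt (Nat.mul_le_mul (hS' _ fx i) (hC' ky j)) (by norm_num))
  have hB2 := outer_spec (2 ^ kx) (2 ^ ky) (cst 8192 kx) (lsum (fun V => sl (2 ^ ky) V fy) l)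
    hs1 hms (hClt kx) (hSlt _ fy)
    (fun i => lt_of_le_of_lt (hS' _ fy i) (by norm_num))
    (fun i j => lt_of_le_of_lt (Nat.mul_le_mul (hC' kx i) (hS' _ fy j)) (by norm_num))
  -- lanes of the sums
  have haddA : ∀ i,
      L (lsum (fun V => outer (2 ^ kx) (2 ^ ky) (sl (2 ^ kx) V fx) (sl (2 ^ ky) V fy)) l) i +
      L (cst (2 ^ 32 + 8192 * 8192 * l.length) (kx + ky)) i < 2 ^ 40 := by
    intro i
    have h1 := (hA1 i).2
    have h2 : l.length * 2 ^ 28 ≤ 64 * 2 ^ 28 := Nat.mul_le_mul_right _ hlen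
    have h3 : L (cst (2 ^ 32 + 8192 * 8192 * l.length) (kx + ky)) i ≤
        2 ^ 32 + 8192 * 8192 * 64 := by
      rw [hA2]
      split_ifs
      · have : 8192 * 8192 * l.length ≤ 8192 * 8192 * 64 := Nat.mul_le_mul_left _ hlen
        omega
      · exact Nat.zero_le _
    norm_num at h1 h2 h3 ⊢
    omega
  have hB1l : ∀ i, L (outer (2 ^ kx) (2 ^ ky) (lsum (fun V => sl (2 ^ kx) V fx) l)
      (cst 8192 ky)) i ≤ 2 ^ 33 := by
    intro i
    rw [hB1.2]
    split_ifs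
    · exact le_trans (Nat.mul_le_mul (hS' _ fx _) (hC' _ _)) (by norm_num)
    · exact Nat.zero_le _
  have hB2l : ∀ i, L (outer (2 ^ kx) (2 ^ ky) (cst 8192 kx)
      (lsum (fun V => sl (2 ^ ky) V fy) l)) i ≤ 2 ^ 33 := by
    intro i
    rw [hB2.2]
    split_ifs
    · exact le_trans (Nat.mul_le_mul (hC' _ _) (hS' _ fy _)) (by norm_num)
    · exact Nat.zero_le _
  have haddB : ∀ i, L (outer (2 ^ kx) (2 ^ ky) (lsum (fun V => sl (2 ^ kx) V fx) l)
      (cst 8192 ky)) i + L (outer (2 ^ kx) (2 ^ ky) (cst 8192 kx)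
      (lsum (fun V => sl (2 ^ ky) V fy) l)) i < 2 ^ 40 := by
    intro i
    have h1 := hB1l i
    have h2 := hB2l i
    norm_num at h1 h2 ⊢
    omega
  have hbnd : ∀ i < 2 ^ kx * 2 ^ ky, i % 2 ^ kx < 2 ^ kx ∧ i / 2 ^ kx < 2 ^ ky := by
    intro i hi
    exact ⟨Nat.mod_lt _ hxp, Nat.div_lt_of_lt_mul hi⟩
  -- integer value
  have hA : ∀ i < 2 ^ kx * 2 ^ ky,
      (L (lsum (fun V => outer (2 ^ kx) (2 ^ ky) (sl (2 ^ kx) V fx) (sl (2 ^ ky) V fy)) l +
      cst (2 ^ 32 + 8192 * 8192 * l.length) (kx + ky)) i : ℤ) =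
      (((l.map fun V => L V (i % 2 ^ kx + 2 ^ kx * fx) *
        L V (i / 2 ^ kx + 2 ^ ky * fy)).sum : ℕ) : ℤ) +
        (2 ^ 32 + 8192 * 8192 * (l.length : ℤ)) := by
    intro i hi
    obtain ⟨h64, h65⟩ := hbnd i hi
    have e0 : (l.map fun V =>
        L (outer (2 ^ kx) (2 ^ ky) (sl (2 ^ kx) V fx) (sl (2 ^ ky) V fy)) i) =
        l.map fun V => L V (i % 2 ^ kx + 2 ^ kx * fx) * L V (i / 2 ^ kx + 2 ^ ky * fy) := by
      apply List.map_congr_left
      intro V h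
      rw [(ho V h).2, if_pos hi, (sl_spec _ V fx).2, (sl_spec _ V fy).2, if_pos h64, if_pos h65]
    rw [L_add _ _ haddA, (hA1 i).1, e0, hA2, if_pos hi]
    push_cast
    ring
  have hB : ∀ i < 2 ^ kx * 2 ^ ky,
      (L (outer (2 ^ kx) (2 ^ ky) (lsum (fun V => sl (2 ^ kx) V fx) l) (cst 8192 ky) +
      outer (2 ^ kx) (2 ^ ky) (cst 8192 kx) (lsum (fun V => sl (2 ^ ky) V fy) l)) i : ℤ) =
      8192 * (((l.map fun V => L V (i % 2 ^ kx + 2 ^ kx * fx)).sum : ℕ) : ℤ) +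
      8192 * (((l.map fun V => L V (i / 2 ^ kx + 2 ^ ky * fy)).sum : ℕ) : ℤ) := by
    intro i hi
    obtain ⟨h64, h65⟩ := hbnd i hi
    rw [L_add _ _ haddB, hB1.2, hB2.2, if_pos hi, if_pos hi, (hS _ fx _).1, (hS _ fy _).1, hC, hC,
      if_pos h65, if_pos h64]
    have e1 : (l.map fun V => L (sl (2 ^ kx) V fx) (i % 2 ^ kx)) =
        l.map fun V => L V (i % 2 ^ kx + 2 ^ kx * fx) := by
      apply List.map_congr_left
      intro V _
      rw [(sl_spec _ V fx).2, if_pos h64]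
    have e2 : (l.map fun V => L (sl (2 ^ ky) V fy) (i / 2 ^ kx)) =
        l.map fun V => L V (i / 2 ^ kx + 2 ^ ky * fy) := by
      apply List.map_congr_left
      intro V _
      rw [(sl_spec _ V fy).2, if_pos h65]
    rw [e1, e2]
    push_cast
    ring
  have hle : ∀ i, L (outer (2 ^ kx) (2 ^ ky) (lsum (fun V => sl (2 ^ kx) V fx) l)
      (cst 8192 ky) +
      outer (2 ^ kx) (2 ^ ky) (cst 8192 kx) (lsum (fun V => sl (2 ^ ky) V fy) l)) i ≤
      L (lsum (fun V => outer (2 ^ kx) (2 ^ ky) (sl (2 ^ kx) V fx) (sl (2 ^ ky) V fy)) l +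
      cst (2 ^ 32 + 8192 * 8192 * l.length) (kx + ky)) i := by
    intro i
    by_cases hi : i < 2 ^ kx * 2 ^ ky
    · have h1 := hA i hi
      have h2 := hB i hi
      have h3 := gram_expand l (i % 2 ^ kx + 2 ^ kx * fx) (i / 2 ^ kx + 2 ^ ky * fy)
      have h4 := (gram_bound l ⟨hlen, hV⟩ (i % 2 ^ kx + 2 ^ kx * fx)
        (i / 2 ^ kx + 2 ^ ky * fy)).1
      have h5 : (L (outer (2 ^ kx) (2 ^ ky) (lsum (fun V => sl (2 ^ kx) V fx) l)
          (cst 8192 ky) +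
          outer (2 ^ kx) (2 ^ ky) (cst 8192 kx) (lsum (fun V => sl (2 ^ ky) V fy) l)) i : ℤ) ≤
          (L (lsum (fun V => outer (2 ^ kx) (2 ^ ky) (sl (2 ^ kx) V fx)
            (sl (2 ^ ky) V fy)) l +
          cst (2 ^ 32 + 8192 * 8192 * l.length) (kx + ky)) i : ℤ) := by
        rw [h1, h2]
        linarith
      exact_mod_cast h5
    · rw [L_add _ _ haddB, hB1.2, hB2.2, if_neg hi, if_neg hi]
      exact Nat.zero_le _
  have hsub := L_sub _ _ hle
  constructor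
  · apply lt_of_L_eq_zero
    intro i hi
    rw [blk0, hsub, L_add _ _ haddA, L_eq_zero_of_lt _ _ _ hA1lt hi,
      L_eq_zero_of_lt _ _ _ hA2lt hi]
    simp
  · intro i hi
    rw [blk0, hsub, Nat.cast_sub (hle i), hA i hi, hB i hi,
      gram_expand l (i % 2 ^ kx + 2 ^ kx * fx) (i / 2 ^ kx + 2 ^ ky * fy)]
    ring

/-- The table, or zero for an empty family. -/
def blk (kx ky : ℕ) : List ℕ → ℕ → ℕ → ℕ
  | [], _, _ => 0
  | V :: r, fx, fy => blk0 kx ky (V :: r) fx fy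

theorem blk_spec (kx ky : ℕ) (hk : ky ≤ kx) (hk1 : 1 ≤ kx) (l : List ℕ) (hl : Good l)
    (fx fy : ℕ) :
    blk kx ky l fx fy < 2 ^ (40 * (2 ^ kx * 2 ^ ky)) ∧
    (l ≠ [] → ∀ i < 2 ^ kx * 2 ^ ky, (L (blk kx ky l fx fy) i : ℤ) =
      2 ^ 32 + gram l (i % 2 ^ kx + 2 ^ kx * fx) (i / 2 ^ kx + 2 ^ ky * fy)) ∧
    ∀ i, L (blk kx ky l fx fy) i ≤ 2 ^ 33 := by
  cases l with
  | nil =>
    refine ⟨Nat.two_pow_pos _, fun h => absurd rfl h, fun i => ?_⟩
    rw [blk, L_zero_left]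
    exact Nat.zero_le _
  | cons V r =>
    obtain ⟨h1, h2⟩ := blk0_spec kx ky hk hk1 (V :: r) hl fx fy
    refine ⟨h1, fun _ => h2, fun i => ?_⟩
    rw [blk]
    by_cases hi : i < 2 ^ kx * 2 ^ ky
    · have h3 := h2 i hi
      have h4 := (gram_bound (V :: r) hl (i % 2 ^ kx + 2 ^ kx * fx)
        (i / 2 ^ kx + 2 ^ ky * fy)).2
      have h5 : (L (blk0 kx ky (V :: r) fx fy) i : ℤ) ≤ 2 ^ 33 := by
        rw [h3]
        linarith
      exact_mod_cast h5
    · rw [L_eq_zero_of_lt _ _ _ h1 (by omega)]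
      exact Nat.zero_le _

/-- Concatenation. -/
def cat (A N B : ℕ) : ℕ := A + B <<< (40 * N)

/-- The tables of a list of families. -/
def tab (kx ky fx fy : ℕ) : List (List ℕ) → ℕ
  | [] => 0
  | l :: r => cat (blk kx ky l fx fy) (2 ^ (kx + ky)) (tab kx ky fx fy r)

theorem tab_spec (kx ky : ℕ) (hk : ky ≤ kx) (hk1 : 1 ≤ kx) (fx fy : ℕ) (ls : List (List ℕ))
    (h : ∀ l ∈ ls, Good l) :
    ∀ i, L (tab kx ky fx fy ls) i =
      L (blk kx ky (ls.getD (i / 2 ^ (kx + ky)) []) fx fy) (i % 2 ^ (kx + ky)) := by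
  have hN : 0 < 2 ^ (kx + ky) := Nat.two_pow_pos _
  induction ls with
  | nil =>
    intro i
    rw [tab, List.getD_nil, blk, L_zero_left, L_zero_left]
  | cons l r ih =>
    intro i
    have h1 := (blk_spec kx ky hk hk1 l (h l List.mem_cons_self) fx fy).1
    rw [← pow_add] at h1
    rw [tab, cat, L_cat _ _ _ _ h1]
    by_cases hi : i < 2 ^ (kx + ky)
    · rw [if_pos hi, Nat.div_eq_of_lt hi, Nat.mod_eq_of_lt hi]
      rfl
    · rw [if_neg hi, ih fun m hm => h m (List.mem_cons_of_mem _ hm)]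
      have e1 : i / 2 ^ (kx + ky) = (i - 2 ^ (kx + ky)) / 2 ^ (kx + ky) + 1 :=
        Nat.div_eq_sub_div hN (not_lt.mp hi)
      have e2 : i % 2 ^ (kx + ky) = (i - 2 ^ (kx + ky)) % 2 ^ (kx + ky) :=
        Nat.mod_eq_sub_mod (not_lt.mp hi)
      rw [e1, List.getD_cons_succ, e2]

theorem tab_lt (kx ky t : ℕ) (hk : ky ≤ kx) (hk1 : 1 ≤ kx) (fx fy : ℕ) (ls : List (List ℕ))
    (h : ∀ l ∈ ls, Good l) (hls : ls.length ≤ 2 ^ t) :
    tab kx ky fx fy ls < 2 ^ (40 * 2 ^ (kx + ky + t)) := by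
  apply lt_of_L_eq_zero
  intro i hi
  rw [tab_spec kx ky hk hk1 fx fy ls h, List.getD_eq_default, blk, L_zero_left]
  refine le_trans hls ?_
  rw [Nat.le_div_iff_mul_le (Nat.two_pow_pos _), ← pow_add]
  have e : t + (kx + ky) = kx + ky + t := by ring
  rw [e]
  exact hi

/-- The row of Gram sums with one code fixed. -/
def row0 (l : List ℕ) (c : ℕ) : ℕ :=
  (lsum (fun V => L V c * V) l + cst (2 ^ 32 + 8192 * 8192 * l.length) 10) -
    (8192 * lsum (fun V => V) l + cst (8192 * lsum (fun V => L V c) l) 10)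

theorem row0_spec (l : List ℕ) (hl : Good l) (c : ℕ) :
    row0 l c < 2 ^ (40 * 1024) ∧
    ∀ i < 1024, (L (row0 l c) i : ℤ) = 2 ^ 32 + gram l i c := by
  obtain ⟨hlen, hV⟩ := hl
  have ho : ∀ V ∈ l, ∀ i, L (L V c * V) i = L V c * L V i := by
    intro V h i
    refine L_smul _ _ (fun j => ?_) i
    calc L V c * L V j ≤ 2 ^ 14 * 2 ^ 14 := Nat.mul_le_mul ((hV V h).2 c).le ((hV V h).2 j).le
      _ < 2 ^ 40 := by norm_num
  have ho2 : ∀ V ∈ l, ∀ i, L (L V c * V) i ≤ 2 ^ 28 := by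
    intro V h i
    rw [ho V h]
    calc L V c * L V i ≤ 2 ^ 14 * 2 ^ 14 := Nat.mul_le_mul ((hV V h).2 c).le ((hV V h).2 i).le
      _ = 2 ^ 28 := by norm_num
  have ho3 : ∀ V ∈ l, L V c * V < 2 ^ (40 * 1024) := by
    intro V h
    apply lt_of_L_eq_zero
    intro i hi
    rw [ho V h, L_eq_zero_of_lt _ _ _ (hV V h).1 hi, mul_zero]
  have hb1 : l.length * 2 ^ 28 < 2 ^ 40 := by
    calc l.length * 2 ^ 28 ≤ 64 * 2 ^ 28 := Nat.mul_le_mul_right _ hlen
      _ < 2 ^ 40 := by norm_num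
  have hA1 := lsum_spec (fun V => L V c * V) (2 ^ 28) l ho2 hb1
  have hA1lt := lsum_lt (fun V => L V c * V) (2 ^ 28) 1024 l ho2 hb1 ho3
  have hcK : 2 ^ 32 + 8192 * 8192 * l.length < 2 ^ 40 := by
    have : 8192 * 8192 * l.length ≤ 8192 * 8192 * 64 := Nat.mul_le_mul_left _ hlen
    norm_num at this ⊢
    omega
  have hA2 := cst_lane (2 ^ 32 + 8192 * 8192 * l.length) 10 hcK
  have hA2lt := (cst_spec (2 ^ 32 + 8192 * 8192 * l.length) 10 hcK).1
  have hb2 : l.length * 2 ^ 14 < 2 ^ 40 := by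
    calc l.length * 2 ^ 14 ≤ 64 * 2 ^ 14 := Nat.mul_le_mul_right _ hlen
      _ < 2 ^ 40 := by norm_num
  have hS := lsum_spec (fun V => V) (2 ^ 14) l (fun V h i => ((hV V h).2 i).le) hb2
  have hSlt := lsum_lt (fun V => V) (2 ^ 14) 1024 l (fun V h i => ((hV V h).2 i).le) hb2
    (fun V h => (hV V h).1)
  have hS' : ∀ i, L (lsum (fun V => V) l) i ≤ 2 ^ 20 := by
    intro i
    refine le_trans (hS i).2 ?_
    calc l.length * 2 ^ 14 ≤ 64 * 2 ^ 14 := Nat.mul_le_mul_right _ hlen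
      _ = 2 ^ 20 := by norm_num
  have hB1 := L_smul 8192 (lsum (fun V => V) l) (fun i =>
    lt_of_le_of_lt (Nat.mul_le_mul_left _ (hS' i)) (by norm_num))
  have hB1l : ∀ i, L (8192 * lsum (fun V => V) l) i ≤ 2 ^ 33 := by
    intro i
    rw [hB1]
    calc 8192 * L (lsum (fun V => V) l) i ≤ 8192 * 2 ^ 20 := Nat.mul_le_mul_left _ (hS' i)
      _ = 2 ^ 33 := by norm_num
  have hsc : lsum (fun V => L V c) l = (l.map fun V => L V c).sum := lsum_eq _ _
  have hsc2 : lsum (fun V => L V c) l ≤ 2 ^ 20 := by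
    rw [hsc, ← (hS c).1]
    exact hS' c
  have hB2c : 8192 * lsum (fun V => L V c) l < 2 ^ 40 :=
    lt_of_le_of_lt (Nat.mul_le_mul_left _ hsc2) (by norm_num)
  have hB2 := cst_lane (8192 * lsum (fun V => L V c) l) 10 hB2c
  have hB2l : ∀ i, L (cst (8192 * lsum (fun V => L V c) l) 10) i ≤ 2 ^ 33 := by
    intro i
    rw [hB2]
    split_ifs
    · calc 8192 * lsum (fun V => L V c) l ≤ 8192 * 2 ^ 20 := Nat.mul_le_mul_left _ hsc2
        _ = 2 ^ 33 := by norm_num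
    · exact Nat.zero_le _
  have haddA : ∀ i, L (lsum (fun V => L V c * V) l) i +
      L (cst (2 ^ 32 + 8192 * 8192 * l.length) 10) i < 2 ^ 40 := by
    intro i
    have h1 := (hA1 i).2
    have h2 : l.length * 2 ^ 28 ≤ 64 * 2 ^ 28 := Nat.mul_le_mul_right _ hlen
    have h3 : L (cst (2 ^ 32 + 8192 * 8192 * l.length) 10) i ≤ 2 ^ 32 + 8192 * 8192 * 64 := by
      rw [hA2]
      split_ifs
      · have : 8192 * 8192 * l.length ≤ 8192 * 8192 * 64 := Nat.mul_le_mul_left _ hlen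
        omega
      · exact Nat.zero_le _
    norm_num at h1 h2 h3 ⊢
    omega
  have haddB : ∀ i, L (8192 * lsum (fun V => V) l) i +
      L (cst (8192 * lsum (fun V => L V c) l) 10) i < 2 ^ 40 := by
    intro i
    have h1 := hB1l i
    have h2 := hB2l i
    norm_num at h1 h2 ⊢
    omega
  have hA : ∀ i < 1024, (L (lsum (fun V => L V c * V) l +
      cst (2 ^ 32 + 8192 * 8192 * l.length) 10) i : ℤ) =
      (((l.map fun V => L V i * L V c).sum : ℕ) : ℤ) +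
        (2 ^ 32 + 8192 * 8192 * (l.length : ℤ)) := by
    intro i hi
    have e0 : (l.map fun V => L (L V c * V) i) = l.map fun V => L V i * L V c := by
      apply List.map_congr_left
      intro V h
      rw [ho V h, mul_comm]
    rw [L_add _ _ haddA, (hA1 i).1, e0, hA2, if_pos (by norm_num; exact hi)]
    push_cast
    ring
  have hB : ∀ i < 1024, (L (8192 * lsum (fun V => V) l +
      cst (8192 * lsum (fun V => L V c) l) 10) i : ℤ) =
      8192 * (((l.map fun V => L V i).sum : ℕ) : ℤ) +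
      8192 * (((l.map fun V => L V c).sum : ℕ) : ℤ) := by
    intro i hi
    rw [L_add _ _ haddB, hB1, hB2, if_pos (by norm_num; exact hi), (hS i).1, hsc]
    push_cast
    ring
  have hle : ∀ i, L (8192 * lsum (fun V => V) l +
      cst (8192 * lsum (fun V => L V c) l) 10) i ≤
      L (lsum (fun V => L V c * V) l + cst (2 ^ 32 + 8192 * 8192 * l.length) 10) i := by
    intro i
    by_cases hi : i < 1024
    · have h1 := hA i hi
      have h2 := hB i hi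
      have h3 := gram_expand l i c
      have h4 := (gram_bound l ⟨hlen, hV⟩ i c).1
      have h5 : (L (8192 * lsum (fun V => V) l +
          cst (8192 * lsum (fun V => L V c) l) 10) i : ℤ) ≤
          (L (lsum (fun V => L V c * V) l +
          cst (2 ^ 32 + 8192 * 8192 * l.length) 10) i : ℤ) := by
        rw [h1, h2]
        linarith
      exact_mod_cast h5
    · rw [L_add _ _ haddB, hB1, hB2, if_neg (by norm_num; exact not_lt.mp hi),
        L_eq_zero_of_lt _ _ _ hSlt (by omega)]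
      exact Nat.zero_le _
  have hsub := L_sub _ _ hle
  constructor
  · apply lt_of_L_eq_zero
    intro i hi
    rw [row0, hsub, L_add _ _ haddA, L_eq_zero_of_lt _ _ _ hA1lt hi,
      L_eq_zero_of_lt _ _ _ hA2lt (by norm_num; exact hi)]
    simp
  · intro i hi
    rw [row0, hsub, Nat.cast_sub (hle i), hA i hi, hB i hi, gram_expand l i c]
    ring

def row : List ℕ → ℕ → ℕ
  | [], _ => 0
  | V :: r, c => row0 (V :: r) c

theorem row_spec (l : List ℕ) (hl : Good l) (c : ℕ) :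
    row l c < 2 ^ (40 * 1024) ∧
    (l ≠ [] → ∀ i < 1024, (L (row l c) i : ℤ) = 2 ^ 32 + gram l i c) ∧
    ∀ i, L (row l c) i ≤ 2 ^ 33 := by
  cases l with
  | nil =>
    refine ⟨Nat.pos_of_ne_zero (by positivity), fun h => absurd rfl h, fun i => ?_⟩
    rw [row, L_zero_left]
    exact Nat.zero_le _
  | cons V r =>
    obtain ⟨h1, h2⟩ := row0_spec (V :: r) hl c
    refine ⟨h1, fun _ => h2, fun i => ?_⟩
    rw [row]
    by_cases hi : i < 1024
    · have h3 := h2 i hi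
      have h4 := (gram_bound (V :: r) hl i c).2
      have h5 : (L (row0 (V :: r) c) i : ℤ) ≤ 2 ^ 33 := by
        rw [h3]
        linarith
      exact_mod_cast h5
    · rw [L_eq_zero_of_lt _ _ _ h1 (by omega)]
      exact Nat.zero_le _

end Pool.Agent.Lib.MP_afdd4d_co
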