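import Pool.Agent.Lib.MP_afdd4d_co.Tuple

/-!
# The local inequality for seven vertices
-/

namespace Pool.Agent.Lib.MP_afdd4d_co

open Finset

/-- The quadruple with number `i`. -/
def quadF (i : ℕ) : Finset (Fin 7) := univ.filter fun z => (z : ℕ) ∉ tripD.getD i []

theorem quadF_card : ∀ i < 35, (quadF i).card = 4 := by decide +kernel

theorem quadF_inj : ∀ i < 35, ∀ j < 35, quadF i = quadF j → i = j := by decide +kernel

theorem image_quadF : (Finset.range 35).image quadF = (univ : Finset (Fin 7)).powersetCard 4 := by
  apply Finset.eq_of_subset_of_card_le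
  · intro T hT
    rw [Finset.mem_image] at hT
    obtain ⟨i, hi, rfl⟩ := hT
    rw [Finset.mem_powersetCard]
    exact ⟨Finset.subset_univ _, quadF_card i (Finset.mem_range.mp hi)⟩
  · rw [Finset.card_powersetCard, Finset.card_image_of_injOn, Finset.card_range,
      Finset.card_univ, Fintype.card_fin]
    · decide
    · intro i hi j hj hij
      exact quadF_inj i (Finset.mem_range.mp hi) j (Finset.mem_range.mp hj) hij

/-- The labels of a row as a map. -/
def gf5 (l : List ℕ) (i : Fin 5) : Fin 7 := gf l (Fin.castAdd 2 i)

/-- The geometric meaning of a row. -/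
def okgeo (r : Row) (l : List ℕ) : Bool :=
  decide ((List.range 5).map (fun i => (quads5 i).image (gf5 l)) = r.p.map quadF) &&
  (decide ((List.range 10).map (fun i => insert (gf l 5) ((tri5 i).image (gf5 l))) =
    r.x.map quadF) &&
  decide ((List.range 10).map (fun i => insert (gf l 6) ((tri5 i).image (gf5 l))) =
    r.y.map quadF))

theorem geo_ok : (List.zipWith okgeo (allR groups) geo).all id = true := by decide +kernel

theorem geo_len : (allR groups).length = geo.length := by decide +kernel

/-- The action of the permutations used in the reduction. -/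
def okred (d : List ℕ × List ℕ) : Bool :=
  decide (Function.Injective (gf d.1)) &&
  decide ((List.range 15).map (fun i => (quadF i).image (gf d.1)) = d.2.map quadF)

theorem red_ok : redD.all okred = true := by decide +kernel

theorem iso_ok : isoD.all (fun l => (allR groups).any fun r => decide (r.p = l)) = true := by
  decide +kernel

theorem allR_p_len : (allR groups).all (fun r => decide (r.p.length = 5)) = true := by
  decide +kernel

theorem groups_ok : ∀ g ∈ groups, okG g = true := by
  have h : groups.all okG = true := by decide +kernel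
  rwa [List.all_eq_true] at h

section loc
variable {n : ℕ} (H : Finset (Finset (Fin n))) (fA fB : List (List ℕ))

/-- The bits of a tuple. -/
def FF (t : Fin 7 → Fin n) (i : ℕ) : Bool := E H t (quadF i)

theorem NN_eq (t : Fin 7 → Fin n) : NN H t = ∑ i ∈ range 35, (FF H t i).toNat := by
  rw [NN, ← image_quadF, Finset.sum_image]
  · rfl
  · intro i hi j hj hij
    exact quadF_inj i (Finset.mem_range.mp hi) j (Finset.mem_range.mp hj) hij

theorem FF_map (t : Fin 7 → Fin n) (l : List ℕ) :
    bt (FF H t) l = bb ((l.map quadF).map (E H t)) := by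
  rw [bt_eq_bb, List.map_map]
  rfl

theorem gr_eq (t : Fin 7 → Fin n) (r : Row) (l : List ℕ) (h : okgeo r l = true) :
    gr fA fB (FF H t) r = val H fA fB t (gf l) ∧
    bt (FF H t) r.p = bt (pat H (t ∘ gf5 l)) (List.range 5) := by
  simp only [okgeo, Bool.and_eq_true, decide_eq_true_eq] at h
  obtain ⟨h1, h2, h3⟩ := h
  have e1 : bt (FF H t) r.p = bt (pat H (t ∘ gf5 l)) (List.range 5) := by
    rw [FF_map, ← h1, bt_eq_bb, List.map_map]
    refine congrArg bb (List.map_congr_left fun i _ => ?_)
    rw [pat, E_comp]
    rfl
  have e2 : bt (FF H t) r.x = bt (lk H (t ∘ gf5 l) (t (gf l 5))) (List.range 10) := by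
    rw [FF_map, ← h2, bt_eq_bb, List.map_map]
    refine congrArg bb (List.map_congr_left fun i _ => ?_)
    rw [Function.comp_apply, lk, E, Finset.image_insert, Finset.image_image]
  have e3 : bt (FF H t) r.y = bt (lk H (t ∘ gf5 l) (t (gf l 6))) (List.range 10) := by
    rw [FF_map, ← h3, bt_eq_bb, List.map_map]
    refine congrArg bb (List.map_congr_left fun i _ => ?_)
    rw [Function.comp_apply, lk, E, Finset.image_insert, Finset.image_image]
  refine ⟨?_, e1⟩
  rw [gr, e1, e2, e3]
  rfl

theorem zip_sum (P : Row → List ℕ → Prop) (f : Row → ℤ) (g : List ℕ → ℤ)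
    (hP : ∀ r l, P r l → f r = g l) : ∀ (A : List Row) (B : List (List ℕ)),
    List.Forall₂ P A B → (A.map f).sum = (B.map g).sum := by
  intro A B h
  induction h with
  | nil => rfl
  | cons h1 _ ih => rw [List.map_cons, List.map_cons, List.sum_cons, List.sum_cons, ih, hP _ _ h1]

theorem forall₂_of_zipWith (f : Row → List ℕ → Bool) : ∀ (A : List Row) (B : List (List ℕ)),
    A.length = B.length → (List.zipWith f A B).all id = true →
    List.Forall₂ (fun r l => f r l = true) A B := by
  intro A
  induction A with
  | nil =>
    intro B hl _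
    cases B with
    | nil => exact List.Forall₂.nil
    | cons b B => simp at hl
  | cons a A ih =>
    intro B hl hz
    cases B with
    | nil => simp at hl
    | cons b B =>
      rw [List.zipWith_cons_cons, List.all_cons, Bool.and_eq_true] at hz
      exact List.Forall₂.cons hz.1 (ih B (by simpa using hl) hz.2)

theorem geo_forall : List.Forall₂ (fun r l => okgeo r l = true) (allR groups) geo :=
  forall₂_of_zipWith okgeo _ _ geo_len geo_ok

theorem sum_gr (t : Fin 7 → Fin n) :
    ((allR groups).map (gr fA fB (FF H t))).sum = PP H fA fB t :=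
  zip_sum _ _ _ (fun r l h => (gr_eq H fA fB t r l h).1) _ _ geo_forall

theorem FF_red (t : Fin 7 → Fin n) (d : List ℕ × List ℕ)
    (hmap : (List.range 15).map (fun i => (quadF i).image (gf d.1)) = d.2.map quadF) :
    bt (FF H (t ∘ gf d.1)) (List.range 15) = bt (FF H t) d.2 := by
  rw [FF_map H t, ← hmap, bt_eq_bb, List.map_map]
  refine congrArg bb (List.map_congr_left fun i _ => ?_)
  rw [FF, E_comp]
  rfl

theorem quads5_card : ∀ i : Fin 5, 4 ≤ (quads5 i).card := by decide

theorem pat_ne (h4 : ∀ S : Finset (Fin n), S.card = 5 → ∃ e ∈ S.powersetCard 4, e ∉ H)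
    (s : Fin 5 → Fin n) (hs : Function.Injective s) : bt (pat H s) (List.range 5) ≠ 0 := by
  intro h0
  have hcard : (univ.image s).card = 5 := by
    rw [Finset.card_image_of_injective _ hs, Finset.card_univ, Fintype.card_fin]
  obtain ⟨e, he, heH⟩ := h4 _ hcard
  rw [Finset.mem_powersetCard] at he
  obtain ⟨hesub, hecard⟩ := he
  -- the missing vertex
  have hdiff : (univ.image s \ e).card = 1 := by
    have := Finset.card_sdiff_add_card_eq_card hesub
    omega
  obtain ⟨x, hx⟩ := Finset.card_eq_one.mp hdiff
  have hxm : x ∈ univ.image s \ e := by rw [hx]; exact Finset.mem_singleton_self x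
  rw [Finset.mem_sdiff, Finset.mem_image] at hxm
  obtain ⟨⟨i, _, hi⟩, hxe⟩ := hxm
  have himg : (quads5 i).image s = e := by
    apply Finset.eq_of_subset_of_card_le
    · intro y hy
      rw [Finset.mem_image] at hy
      obtain ⟨j, hj, rfl⟩ := hy
      by_contra hne
      have h1 : s j ∈ univ.image s \ e := by
        rw [Finset.mem_sdiff]
        exact ⟨Finset.mem_image_of_mem _ (Finset.mem_univ _), hne⟩
      rw [hx, Finset.mem_singleton, ← hi] at h1
      have h2 := hs h1
      rw [quads5, Finset.mem_filter] at hj
      exact hj.2 (by rw [h2])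
    · rw [Finset.card_image_of_injective _ hs, hecard]
      exact quads5_card i
  have hbit : pat H s i = true := by
    rw [pat, E, himg]
    exact decide_eq_true heH
  have h1 := congrArg (fun m => Nat.testBit m i) h0
  simp only [Nat.zero_testBit] at h1
  rw [← idx_eq_bt, testBit_idx, hbit] at h1
  have := i.isLt
  simp [this] at h1

end loc

section main
variable {n : ℕ} (H : Finset (Finset (Fin n)))

theorem gf5_inj (l : List ℕ) (h : Function.Injective (gf l)) : Function.Injective (gf5 l) :=
  fun _ _ hij => Fin.castAdd_injective 5 2 (h hij)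

theorem valid (h4 : ∀ S : Finset (Fin n), S.card = 5 → ∃ e ∈ S.powersetCard 4, e ∉ H)
    (t : Fin 7 → Fin n) (ht : Function.Injective t) : ∀ r ∈ allR groups, bt (FF H t) r.p ≠ 0 := by
  have key : ∀ (A : List Row) (B : List (List ℕ)),
      List.Forall₂ (fun r l => okgeo r l = true) A B → (∀ l ∈ B, Function.Injective (gf l)) →
      ∀ r ∈ A, bt (FF H t) r.p ≠ 0 := by
    intro A B h
    induction h with
    | nil => intro _ r hr; simp at hr
    | cons h1 _ ih =>
      intro hB r hr
      rw [List.mem_cons] at hr
      rcases hr with rfl | hr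
      · rw [(gr_eq H [] [] t _ _ h1).2]
        apply pat_ne H h4
        exact ht.comp (gf5_inj _ (hB _ List.mem_cons_self))
      · exact ih (fun l hl => hB l (List.mem_cons_of_mem _ hl)) r hr
  exact key _ _ geo_forall geo_inj

theorem local_ineq (fA fB : List (List ℕ)) (hgood : GoodF fA fB)
    (hI : ∀ d ∈ invD, okI fA fB d = true) (a Lo : ℕ) (ha : a < 2 ^ 30) (hL : Lo ≤ 21 * 2 ^ 32)
    (hc : ∀ c ∈ classes, ∀ w < 4, chkF fA fB groups a Lo (c + 32768 * w) = true)
    (h4 : ∀ S : Finset (Fin n), S.card = 5 → ∃ e ∈ S.powersetCard 4, e ∉ H) :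
    ∀ (m : ℕ) (t : Fin 7 → Fin n), Function.Injective t →
      bt (FF H t) (List.range 15) = m →
      (Lo : ℤ) + PP H fA fB t ≤ (a : ℤ) * (NN H t : ℤ) := by
  intro m
  induction m using Nat.strong_induction_on with
  | _ m ih =>
    intro t ht hm
    have hmlt : m < 2 ^ 15 := by
      rw [← hm]
      have := bt_lt (FF H t) (List.range 15)
      rwa [List.length_range] at this
    have hmb : ∀ i < 15, FF H t i = m.testBit i := by
      intro i hi
      rw [← hm, ← idx_eq_bt, testBit_idx]
      simp [hi]
    have hred := red_all m hmlt
    rw [red, Bool.or_eq_true, Bool.or_eq_true] at hred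
    rcases hred with hred | hred | hred
    · -- a permutation decreases the base graph
      rw [List.any_eq_true] at hred
      obtain ⟨d, hd, hlt⟩ := hred
      have hlt' := Nat.le_of_ble_eq_true hlt
      rw [btsF_eq, bts_eq] at hlt'
      have hdok := red_ok
      rw [List.all_eq_true] at hdok
      have hd2 := hdok d hd
      simp only [okred, Bool.and_eq_true, decide_eq_true_eq] at hd2
      obtain ⟨hinj, hmap⟩ := hd2
      have e1 : bt (FF H (t ∘ gf d.1)) (List.range 15) = bt m.testBit d.2 := by
        rw [FF_red H t d hmap]
        apply bt_congr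
        intro i hi
        apply hmb
        -- entries of d.2 are below 15
        have h15 : redD.all (fun d => d.2.all fun i => decide (i < 15)) = true := by
          decide +kernel
        rw [List.all_eq_true] at h15
        have h16 := h15 d hd
        rw [List.all_eq_true] at h16
        exact of_decide_eq_true (h16 i hi)
      have h5 := ih (bt m.testBit d.2) hlt' (t ∘ gf d.1) (ht.comp hinj) e1
      rwa [PP_comp H fA fB hgood hI t _ hinj, NN_comp H t _ hinj] at h5
    · -- an uncovered pair
      exfalso
      rw [List.any_eq_true] at hred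
      obtain ⟨l, hl, h0⟩ := hred
      have h0' := Nat.eq_of_beq_eq_true h0
      rw [btsF_eq, bts_eq] at h0'
      have hiso := iso_ok
      rw [List.all_eq_true] at hiso
      have h5 := hiso l hl
      rw [List.any_eq_true] at h5
      obtain ⟨r, hr, hrl⟩ := h5
      have hrl' := of_decide_eq_true hrl
      apply valid H h4 t ht r hr
      rw [hrl', ← h0']
      apply bt_congr
      intro i hi
      apply hmb
      have h15 : isoD.all (fun d => d.all fun i => decide (i < 15)) = true := by
        decide +kernel
      rw [List.all_eq_true] at h15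
      have h16 := h15 l hl
      rw [List.all_eq_true] at h16
      exact of_decide_eq_true (h16 i hi)
    · -- a base graph of the list
      have hmem : m ∈ classes := by
        rwa [List.elem_iff] at hred
      set w := bt (FF H t) [15, 16] with hw
      have hw4 : w < 4 := bt_lt (FF H t) [15, 16]
      have hbt : bt (FF H t) (List.range 17) = m + 32768 * w := by
        have e17 : List.range 17 = List.range 15 ++ [15, 16] := by decide
        rw [e17, bt_append, hm, List.length_range, ← hw]
        norm_num
      have hmb' : ∀ i < 17, FF H t i = (m + 32768 * w).testBit i := by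
        intro i hi
        rw [← hbt, ← idx_eq_bt, testBit_idx]
        simp [hi]
      have h5 := hc m hmem w hw4
      rw [chkF_eq] at h5
      have h6 := chk_spec fA fB hgood groups (by decide +kernel) groups_ok a Lo
        (m + 32768 * w) ha hL h5 (FF H t) hmb' (valid H h4 t ht)
      rwa [sum_gr, ← NN_eq] at h6

end main

end Pool.Agent.Lib.MP_afdd4d_co
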