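import Pool.Agent.Lib.MP_afdd4d_co.Fams
import Pool.Agent.Lib.MP_afdd4d_co.Base

/-!
# Tuples of vertices: bits, Gram values, invariance under permutations
-/

namespace Pool.Agent.Lib.MP_afdd4d_co

open Finset

/-! ### Bits of lists -/

def bb : List Bool → ℕ
  | [] => 0
  | b :: l => b.toNat + 2 * bb l

theorem bt_eq_bb (F : ℕ → Bool) (l : List ℕ) : bt F l = bb (l.map F) := by
  induction l with
  | nil => rfl
  | cons i l ih => rw [bt, List.map_cons, bb, ih]

/-- The four labels other than `i`. -/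
def quads5 (i : ℕ) : Finset (Fin 5) := univ.filter fun j => (j : ℕ) ≠ i

/-- The pairs of labels in the order of the bits of a code. -/
def PI : List (ℕ × ℕ) := [(1, 2), (1, 3), (2, 3), (1, 4), (2, 4), (3, 4), (0, 1), (0, 2), (0, 3),
  (0, 4)]

/-- The three labels outside the `r`-th pair. -/
def tri5 (r : ℕ) : Finset (Fin 5) :=
  univ.filter fun j => (j : ℕ) ≠ (PI.getD r (0, 0)).1 ∧ (j : ℕ) ≠ (PI.getD r (0, 0)).2

section tup
variable {n : ℕ} (H : Finset (Finset (Fin n)))

/-- Whether the image of `T` is not an edge. -/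
def E {m : ℕ} (t : Fin m → Fin n) (T : Finset (Fin m)) : Bool := decide (T.image t ∉ H)

theorem E_comp {m k : ℕ} (t : Fin m → Fin n) (f : Fin k → Fin m) (T : Finset (Fin k)) :
    E H (t ∘ f) T = E H t (T.image f) := by
  unfold E
  rw [Finset.image_image]

/-- The bits of the pattern of five vertices. -/
def pat (s : Fin 5 → Fin n) (i : ℕ) : Bool := E H s (quads5 i)

/-- The bits of the code of a vertex. -/
def lk (s : Fin 5 → Fin n) (u : Fin n) (r : ℕ) : Bool :=
  decide (insert u ((tri5 r).image s) ∉ H)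

/-- The Gram value of seven vertices. -/
def Gm (fA fB : List (List ℕ)) (s : Fin 5 → Fin n) (u w : Fin n) : ℤ :=
  gram (fam fA fB (bt (pat H s) (List.range 5))) (bt (lk H s u) (List.range 10))
    (bt (lk H s w) (List.range 10))

theorem Gm_comm (fA fB : List (List ℕ)) (s : Fin 5 → Fin n) (u w : Fin n) :
    Gm H fA fB s u w = Gm H fA fB s w u := gram_comm _ _ _

theorem swap_data (i : Fin 4) :
    ((invD.getD i ([], [], [])).1.length = 5 ∧ (invD.getD i ([], [], [])).2.1.length = 10) ∧
    (∀ k < 5, (quads5 k).image (Equiv.swap i.castSucc i.succ) =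
      quads5 ((invD.getD i ([], [], [])).1.getD k 0)) ∧
    ∀ r < 10, (tri5 r).image (Equiv.swap i.castSucc i.succ) =
      tri5 ((invD.getD i ([], [], [])).2.1.getD r 0) := by
  revert i
  decide +kernel

theorem map_getD_range (l : List ℕ) (m : ℕ) (h : l.length = m) :
    (List.range m).map (fun r => l.getD r 0) = l := by
  apply List.ext_getElem
  · rw [List.length_map, List.length_range, h]
  · intro i hi1 hi2
    rw [List.getElem_map, List.getElem_range, List.getD_eq_getElem _ _ hi2]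

theorem Gm_swap (fA fB : List (List ℕ)) (hgood : GoodF fA fB)
    (hI : ∀ d ∈ invD, okI fA fB d = true) (i : Fin 4) (s : Fin 5 → Fin n) (u w : Fin n) :
    Gm H fA fB (s ∘ Equiv.swap i.castSucc i.succ) u w = Gm H fA fB s u w := by
  obtain ⟨⟨h1, h2⟩, h3, h4⟩ := swap_data i
  have hmem : invD.getD i ([], [], []) ∈ invD := by
    have hlen : (i : ℕ) < invD.length := i.isLt
    rw [List.getD_eq_getElem _ _ hlen]
    exact List.getElem_mem hlen
  have hok := hI _ hmem
  obtain ⟨sg, ss, pr, hd⟩ : ∃ sg ss pr, invD.getD i ([], [], []) = (sg, ss, pr) :=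
    ⟨_, _, _, rfl⟩
  rw [hd] at h1 h2 h3 h4 hok
  have e1 : bt (pat H (s ∘ Equiv.swap i.castSucc i.succ)) (List.range 5) = bt (pat H s) sg := by
    have e0 : bt (pat H (s ∘ Equiv.swap i.castSucc i.succ)) (List.range 5) =
        bt (pat H s ∘ fun k => sg.getD k 0) (List.range 5) := by
      apply bt_congr
      intro k hk
      rw [pat, E_comp, h3 k (List.mem_range.mp hk)]
      rfl
    rw [e0, ← bt_map, map_getD_range sg 5 h1]
  have e2 : ∀ x : Fin n, bt (lk H (s ∘ Equiv.swap i.castSucc i.succ) x) (List.range 10) =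
      bt (lk H s x) ss := by
    intro x
    have e0 : bt (lk H (s ∘ Equiv.swap i.castSucc i.succ) x) (List.range 10) =
        bt (lk H s x ∘ fun k => ss.getD k 0) (List.range 10) := by
      apply bt_congr
      intro k hk
      rw [lk, ← Finset.image_image, h4 k (List.mem_range.mp hk)]
      rfl
    rw [e0, ← bt_map, map_getD_range ss 10 h2]
  rw [Gm, Gm, e1, e2, e2]
  exact gram_inv fA fB hgood sg ss pr hok (pat H s) (lk H s u) (lk H s w)

theorem Gm_perm (fA fB : List (List ℕ)) (hgood : GoodF fA fB)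
    (hI : ∀ d ∈ invD, okI fA fB d = true) (σ : Equiv.Perm (Fin 5)) :
    ∀ (s : Fin 5 → Fin n) (u w : Fin n), Gm H fA fB (s ∘ σ) u w = Gm H fA fB s u w := by
  have hσ : σ ∈ Submonoid.closure (Set.range fun i : Fin 4 => Equiv.swap i.castSucc i.succ) := by
    rw [Equiv.Perm.mclosure_swap_castSucc_succ]
    trivial
  induction hσ using Submonoid.closure_induction with
  | mem x hx =>
    obtain ⟨i, rfl⟩ := hx
    intro s u w
    exact Gm_swap H fA fB hgood hI i s u w
  | one => intro s u w; rfl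
  | mul x y _ _ hx hy =>
    intro s u w
    have e : s ∘ (x * y : Equiv.Perm (Fin 5)) = (s ∘ x) ∘ y := rfl
    rw [e, hy, hx]

/-- The Gram value of a tuple with the vertices in the order given by `ρ`. -/
def val (fA fB : List (List ℕ)) (t : Fin 7 → Fin n) (ρ : Fin 7 → Fin 7) : ℤ :=
  Gm H fA fB (fun i : Fin 5 => t (ρ (Fin.castAdd 2 i))) (t (ρ 5)) (t (ρ 6))

theorem castAdd_ne : ∀ i : Fin 5, (Fin.castAdd 2 i : Fin 7) ≠ 5 ∧ (Fin.castAdd 2 i : Fin 7) ≠ 6 := by
  decide

theorem exists_perm5 (ρ ρ' : Fin 7 → Fin 7) (h : Function.Injective ρ)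
    (h' : Function.Injective ρ')
    (hs : ({ρ 5, ρ 6} : Finset (Fin 7)) = {ρ' 5, ρ' 6}) :
    ∃ σ : Equiv.Perm (Fin 5), ∀ i, ρ (Fin.castAdd 2 i) = ρ' (Fin.castAdd 2 (σ i)) := by
  have hb' : Function.Bijective ρ' := Finite.injective_iff_bijective.mp h'
  have hex : ∀ i : Fin 5, ∃ j : Fin 5, ρ (Fin.castAdd 2 i) = ρ' (Fin.castAdd 2 j) := by
    intro i
    obtain ⟨k, hk⟩ := hb'.2 (ρ (Fin.castAdd 2 i))
    have hk56 : k ≠ 5 ∧ k ≠ 6 := by
      have hne : ρ (Fin.castAdd 2 i) ∉ ({ρ 5, ρ 6} : Finset (Fin 7)) := by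
        rw [Finset.mem_insert, Finset.mem_singleton]
        rintro (h1 | h1)
        · exact (castAdd_ne i).1 (h h1)
        · exact (castAdd_ne i).2 (h h1)
      rw [hs, Finset.mem_insert, Finset.mem_singleton, ← hk] at hne
      constructor
      · intro h5
        exact hne (Or.inl (by rw [h5]))
      · intro h6
        exact hne (Or.inr (by rw [h6]))
    have hk5 : (k : ℕ) < 5 := by
      have h1 : (k : ℕ) ≠ 5 := fun h => hk56.1 (Fin.ext h)
      have h2 : (k : ℕ) ≠ 6 := fun h => hk56.2 (Fin.ext h)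
      have := k.isLt
      omega
    refine ⟨⟨k, hk5⟩, ?_⟩
    rw [← hk]
    rfl
  choose f hf using hex
  have hfi : Function.Injective f := by
    intro i j hij
    have h1 : ρ (Fin.castAdd 2 i) = ρ (Fin.castAdd 2 j) := by rw [hf, hf, hij]
    have h2 := h h1
    exact Fin.castAdd_injective 5 2 h2
  exact ⟨Equiv.ofBijective f (Finite.injective_iff_bijective.mp hfi), hf⟩

theorem val_eq (fA fB : List (List ℕ)) (hgood : GoodF fA fB)
    (hI : ∀ d ∈ invD, okI fA fB d = true) (t : Fin 7 → Fin n) (ρ ρ' : Fin 7 → Fin 7)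
    (h : Function.Injective ρ) (h' : Function.Injective ρ') (h5 : ρ 5 = ρ' 5)
    (h6 : ρ 6 = ρ' 6) : val H fA fB t ρ = val H fA fB t ρ' := by
  obtain ⟨σ, hσ⟩ := exists_perm5 ρ ρ' h h' (by rw [h5, h6])
  have e1 : (fun i : Fin 5 => t (ρ (Fin.castAdd 2 i))) =
      (fun i : Fin 5 => t (ρ' (Fin.castAdd 2 i))) ∘ σ := by
    funext i
    rw [hσ]
    rfl
  rw [val, val, e1, Gm_perm H fA fB hgood hI, h5, h6]

theorem val_swap (fA fB : List (List ℕ)) (hgood : GoodF fA fB)
    (hI : ∀ d ∈ invD, okI fA fB d = true) (t : Fin 7 → Fin n) (ρ ρ' : Fin 7 → Fin 7)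
    (h : Function.Injective ρ) (h' : Function.Injective ρ') (h5 : ρ 5 = ρ' 6)
    (h6 : ρ 6 = ρ' 5) : val H fA fB t ρ = val H fA fB t ρ' := by
  obtain ⟨σ, hσ⟩ := exists_perm5 ρ ρ' h h' (by rw [h5, h6, Finset.pair_comm])
  have e1 : (fun i : Fin 5 => t (ρ (Fin.castAdd 2 i))) =
      (fun i : Fin 5 => t (ρ' (Fin.castAdd 2 i))) ∘ σ := by
    funext i
    rw [hσ]
    rfl
  rw [val, val, e1, Gm_perm H fA fB hgood hI, h5, h6, Gm_comm]

end tup

/-- The list `l` as a function. -/
def gf (l : List ℕ) (i : Fin 7) : Fin 7 := Fin.ofNat 7 (l.getD i 0)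

/-- An injective map whose last two values are `x` and `y`. -/
def rho (x y : Fin 7) : Fin 7 → Fin 7 :=
  fun i => (((List.finRange 7).filter fun z => z ≠ x ∧ z ≠ y) ++ [x, y]).getD i 0

theorem rho_spec : ∀ x y : Fin 7, x ≠ y →
    Function.Injective (rho x y) ∧ rho x y 5 = x ∧ rho x y 6 = y := by
  decide +kernel

theorem geo_inj : ∀ l ∈ geo, Function.Injective (gf l) := by
  decide +kernel

def geoPairs : List (Fin 7 × Fin 7) :=
  geo.map (fun l => (gf l 5, gf l 6)) ++ geo.map (fun l => (gf l 6, gf l 5))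

theorem geoPairs_nodup : geoPairs.Nodup := by decide +kernel

theorem geoPairs_toFinset : geoPairs.toFinset = (univ : Finset (Fin 7)).offDiag := by
  decide +kernel

section tup2
variable {n : ℕ} (H : Finset (Finset (Fin n))) (fA fB : List (List ℕ)) (hgood : GoodF fA fB)
  (hI : ∀ d ∈ invD, okI fA fB d = true)

/-- The sum of the Gram values over the 21 pairs of a tuple. -/
def PP (t : Fin 7 → Fin n) : ℤ := (geo.map fun l => val H fA fB t (gf l)).sum

include hgood hI in
theorem two_PP (t : Fin 7 → Fin n) :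
    2 * PP H fA fB t = ∑ p ∈ (univ : Finset (Fin 7)).offDiag, val H fA fB t (rho p.1 p.2) := by
  rw [← geoPairs_toFinset, List.sum_toFinset _ geoPairs_nodup, geoPairs, List.map_append,
    List.sum_append, List.map_map, List.map_map]
  have e1 : geo.map ((fun p : Fin 7 × Fin 7 => val H fA fB t (rho p.1 p.2)) ∘
      fun l => (gf l 5, gf l 6)) = geo.map fun l => val H fA fB t (gf l) := by
    apply List.map_congr_left
    intro l hl
    have hinj := geo_inj l hl
    have hne : gf l 5 ≠ gf l 6 := fun h => absurd (hinj h) (by decide)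
    obtain ⟨h1, h2, h3⟩ := rho_spec _ _ hne
    exact val_eq H fA fB hgood hI t _ _ h1 hinj h2 h3
  have e2 : geo.map ((fun p : Fin 7 × Fin 7 => val H fA fB t (rho p.1 p.2)) ∘
      fun l => (gf l 6, gf l 5)) = geo.map fun l => val H fA fB t (gf l) := by
    apply List.map_congr_left
    intro l hl
    have hinj := geo_inj l hl
    have hne : gf l 6 ≠ gf l 5 := fun h => absurd (hinj h) (by decide)
    obtain ⟨h1, h2, h3⟩ := rho_spec _ _ hne
    exact val_swap H fA fB hgood hI t _ _ h1 hinj h2 h3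
  rw [e1, e2, PP]
  ring

include hgood hI in
theorem PP_comp (t : Fin 7 → Fin n) (v : Fin 7 → Fin 7) (hv : Function.Injective v) :
    PP H fA fB (t ∘ v) = PP H fA fB t := by
  have h1 := two_PP H fA fB hgood hI (t ∘ v)
  have h2 := two_PP H fA fB hgood hI t
  have h3 : ∑ p ∈ (univ : Finset (Fin 7)).offDiag, val H fA fB (t ∘ v) (rho p.1 p.2) =
      ∑ p ∈ (univ : Finset (Fin 7)).offDiag, val H fA fB t (rho p.1 p.2) := by
    set e : Fin 7 ≃ Fin 7 := Equiv.ofBijective v (Finite.injective_iff_bijective.mp hv) with he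
    refine Finset.sum_equiv (Equiv.prodCongr e e) ?_ ?_
    · intro p
      rw [Finset.mem_offDiag, Finset.mem_offDiag]
      simp only [Finset.mem_univ, true_and]
      constructor
      · intro h h4
        exact h (e.injective h4)
      · intro h h4
        apply h
        change e p.1 = e p.2
        rw [h4]
    · intro p hp
      rw [Finset.mem_offDiag] at hp
      obtain ⟨h4, h5, h6⟩ := rho_spec p.1 p.2 hp.2.2
      have hne : v p.1 ≠ v p.2 := fun h => hp.2.2 (hv h)
      obtain ⟨h7, h8, h9⟩ := rho_spec (v p.1) (v p.2) hne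
      have e1 : val H fA fB (t ∘ v) (rho p.1 p.2) = val H fA fB t (v ∘ rho p.1 p.2) := rfl
      rw [e1]
      refine val_eq H fA fB hgood hI t _ _ (hv.comp h4) h7 ?_ ?_
      · change v (rho p.1 p.2 5) = rho (v p.1) (v p.2) 5
        rw [h5, h8]
      · change v (rho p.1 p.2 6) = rho (v p.1) (v p.2) 6
        rw [h6, h9]
  linarith

/-- The number of non-edges among the quadruples of a tuple. -/
def NN (t : Fin 7 → Fin n) : ℕ :=
  ∑ T ∈ (univ : Finset (Fin 7)).powersetCard 4, (E H t T).toNat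

theorem NN_comp (t : Fin 7 → Fin n) (v : Fin 7 → Fin 7) (hv : Function.Injective v) :
    NN H (t ∘ v) = NN H t := by
  set e : Fin 7 ≃ Fin 7 := Equiv.ofBijective v (Finite.injective_iff_bijective.mp hv) with he
  refine Finset.sum_equiv e.finsetCongr ?_ ?_
  · intro T
    rw [Finset.mem_powersetCard, Finset.mem_powersetCard, Equiv.finsetCongr_apply,
      Finset.card_map]
    simp
  · intro T _
    rw [E_comp, Equiv.finsetCongr_apply, Finset.map_eq_image]
    rfl

end tup2

end Pool.Agent.Lib.MP_afdd4d_co
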